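import Pool.Agent.H591R3.CEX.Defs
import Pool.Agent.H591R3.PHG.Defs

/-! The objects of the proof. -/

set_option autoImplicit false

namespace Pool.Agent.H591R3.CEX

open Finset H568R2 Pool.Agent.H676 Pool.Agent.H620R2.Gauge Pool.Agent.NPC Pool.Agent.H591R3.PHG

/-- The value of the node `q` of the forest with the parameters in `u`. -/
def nodeVal (A : Oracle) (i : ℕ) (u q : List Bool) : Bool :=
  ((parse i u).1.foldr up (bitv A (unpair (parse i u).2).1.length)) q

/-- The hard optimization problem for level `i` (with `ρ` the identity): the first parameter in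
`x` is the length of the solutions, and `y` is a solution if the node `x y` has the value true. -/
def CA (A : Oracle) (i : ℕ) (x y : ℕ) : Prop :=
  y = 0 ∨ ((str y).length = (unpair (str x)).1.length ∧
    nodeVal A i (unpair (str x)).2 (str x ++ str y) = true)

/-- Games against a random assignment: `Prc D R H` means that some strategy reveals, in addition
to the coordinates in `R`, coordinates one after the other, of which at most `D` are guesses, and
`H z` is the number of guesses that hit the value true. -/
inductive Prc {I : Type} [DecidableEq I] : ℕ → Finset I → ((I → Bool) → ℕ) → Prop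
  | done {D : ℕ} {R : Finset I} : Prc D R (fun _ => 0)
  | cost {D : ℕ} {R : Finset I} {i : I} {H : Bool → (I → Bool) → ℕ} (hi : i ∉ R)
      (h : ∀ b, Prc D (insert i R) (H b)) :
      Prc (D + 1) R (fun z => (if z i = true then 1 else 0) + H (z i) z)
  | free {D : ℕ} {R : Finset I} {i : I} {H : Bool → (I → Bool) → ℕ} (hi : i ∉ R)
      (h : ∀ b, Prc D (insert i R) (H b)) : Prc D R (fun z => H (z i) z)

/-- The set of the feasible solutions, given by the values of the nodes. -/
def feas {c : ℕ} (nm : Fin c → ℕ) (v : Fin c → Bool) : Set ℕ := {y | y = 0 ∨ ∃ g, v g = true ∧ nm g = y}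

open Classical in
/-- The adversary that returns the next feasible solution (and `0` if the number presented is not
feasible). -/
noncomputable def advN (S : Set ℕ) : Adversary := fun _ y =>
  if y ∉ S then some 0
  else if h : ∃ z, z ∈ S ∧ y < z then some (Nat.find h) else none

/-- The algorithm finds the maximum of `S` on input `x` within `R` rounds against this adversary. -/
def Suc1 (M : CAlg) (x : List Bool) (R : ℕ) (B : Oracle) (S : Set ℕ) : Prop :=
  ∃ y, M.run B (advN S) x R [] = some (str y) ∧ y ∈ S ∧ ∀ z ∈ S, z ≤ y

/-- No child is determined to be true and at least `D` children are undetermined. -/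
def Good2 {c : ℕ} (D : ℕ) (σ : Fin c → Option Bool) : Prop := Unkilled σ ∧ D ≤ (live σ).card

open Classical in
/-- The number of good roots. -/
noncomputable def ngood2 {X : Type} [Fintype X] {c : ℕ} (D : ℕ) (s : X × Fin c → Option Bool) : ℕ :=
  (univ.filter (fun j => Good2 D (fun i => s (j, i)))).card

/-- The expectation of `W0` for the statuses of the roots, from the statuses at the last level. -/
noncomputable def WT {X : Type} [Fintype X] [DecidableEq X] (t ξ : ℝ) (smin : ℕ)
    (W0 : (X → Option Bool) → ℝ) : (cs : List ℕ) → (Idx X cs → Option Bool) → ℝ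
  | [], s => W0 s
  | c :: cs, s => ∑ ρ : Idx X cs → St c, wt (G := Idx X cs) t t ξ smin s ρ *
      WT t ξ smin W0 cs (fun h => (ρ h).1)

end Pool.Agent.H591R3.CEX
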