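import Pool.Agent.H591R3.CEX.Base
import Pool.Agent.H591R3.PHG.FewGood

/-! Task T3: few_true and few_good2. -/

set_option autoImplicit false

namespace Pool.Agent.H591R3.CEX

open Finset H568R2 Pool.Agent.H676 Pool.Agent.H620R2.Gauge Pool.Agent.NPC Pool.Agent.H591R3.PHG

namespace FewAux

theorem ex_prod {I : Type} [Fintype I] [DecidableEq I] (w : Bool → ℝ) (φ : I → Bool → ℝ) :
    Ex w (fun z : I → Bool => ∏ i, φ i (z i)) = ∏ i, ∑ b, w b * φ i b := by
  unfold Ex
  rw [Finset.prod_univ_sum, Fintype.piFinset_univ]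
  exact Finset.sum_congr rfl fun z _ => (Finset.prod_mul_distrib).symm

end FewAux

open Classical in
theorem few_true {X : Type} [Fintype X] [DecidableEq X] {c D R : ℕ} {t : ℝ} (ht : 0 ≤ t)
    (ht1 : t ≤ 1) (s : X × Fin c → Option Bool) (j : X) (hD : D ≤ (live (fun g => s (j, g))).card) :
    Ex (ber t) (fun z : X × Fin c → Bool =>
      if (univ.filter (fun g => val s z (j, g) = true)).card ≤ R then (1 : ℝ) else 0) ≤
      2 ^ R * (1 - t / 2) ^ D := by
  set L := live (fun g => s (j, g)) with hL
  have hber : ∀ b, 0 ≤ ber t b := by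
    intro b
    unfold ber
    split_ifs
    · exact ht
    · linarith
  let φ : X × Fin c → Bool → ℝ := fun i b => if i.1 = j ∧ i.2 ∈ L ∧ b = true then 1 / 2 else 1
  have hφ : ∀ i b, φ i b = if i.1 = j ∧ i.2 ∈ L ∧ b = true then 1 / 2 else 1 := fun _ _ => rfl
  have hprod : ∀ z : X × Fin c → Bool, ∏ i, φ i (z i) =
      (1 / 2 : ℝ) ^ (L.filter (fun g => z (j, g) = true)).card := by
    intro z
    rw [Fintype.prod_prod_type, Finset.prod_eq_single j]
    · have h1 : ∀ g : Fin c, φ (j, g) (z (j, g)) =
          if g ∈ L.filter (fun g => z (j, g) = true) then (1 / 2 : ℝ) else 1 := by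
        intro g
        rw [hφ]
        simp only [true_and, Finset.mem_filter]
      rw [Finset.prod_congr rfl fun g _ => h1 g, Finset.prod_ite, Finset.prod_const,
        Finset.prod_const_one, mul_one]
      congr 2
      ext g
      simp
    · intro x _ hx
      refine Finset.prod_eq_one fun g _ => ?_
      rw [hφ, if_neg]
      exact fun h => hx h.1
    · intro h
      exact absurd (Finset.mem_univ _) h
  have h1 : Ex (ber t) (fun z : X × Fin c → Bool =>
      if (univ.filter (fun g => val s z (j, g) = true)).card ≤ R then (1 : ℝ) else 0) ≤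
      Ex (ber t) (fun z : X × Fin c → Bool => (2 : ℝ) ^ R * ∏ i, φ i (z i)) := by
    refine Ex_mono hber fun z => ?_
    rw [hprod]
    split_ifs with hz
    · have hsub : (L.filter (fun g => z (j, g) = true)) ⊆
          univ.filter (fun g => val s z (j, g) = true) := by
        intro g hg
        rw [Finset.mem_filter] at hg ⊢
        refine ⟨Finset.mem_univ _, ?_⟩
        have hg1 : s (j, g) = none := by
          have := hg.1
          rw [hL] at this
          unfold live at this
          exact (Finset.mem_filter.1 this).2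
        unfold Pool.Agent.H591R3.PHG.val
        rw [hg1]
        exact hg.2
      have hle : (L.filter (fun g => z (j, g) = true)).card ≤ R :=
        (Finset.card_le_card hsub).trans hz
      have h2 : (1 / 2 : ℝ) ^ R ≤ (1 / 2 : ℝ) ^ (L.filter (fun g => z (j, g) = true)).card :=
        pow_le_pow_of_le_one (by norm_num) (by norm_num) hle
      calc (1 : ℝ) = 2 ^ R * (1 / 2) ^ R := by
            rw [← mul_pow]
            norm_num
        _ ≤ _ := mul_le_mul_of_nonneg_left h2 (by positivity)
    · positivity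
  refine h1.trans ?_
  rw [Ex_smul, FewAux.ex_prod]
  refine mul_le_mul_of_nonneg_left ?_ (by positivity)
  rw [Fintype.prod_prod_type, Finset.prod_eq_single j]
  · have h3 : ∀ g : Fin c, ∑ b, ber t b * φ (j, g) b = if g ∈ L then (1 - t / 2 : ℝ) else 1 := by
      intro g
      rw [Fintype.sum_bool, hφ, hφ]
      unfold ber
      by_cases hg : g ∈ L
      · simp [hg]
        ring
      · simp [hg]
    rw [Finset.prod_congr rfl fun g _ => h3 g, Finset.prod_ite, Finset.prod_const,
      Finset.prod_const_one, mul_one]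
    have h4 : (univ.filter (fun g => g ∈ L)) = L := by
      ext g
      simp
    rw [h4]
    exact pow_le_pow_of_le_one (by linarith) (by linarith) hD
  · intro x _ hx
    refine Finset.prod_eq_one fun g _ => ?_
    rw [Fintype.sum_bool, hφ, hφ, if_neg (fun h => hx h.1), if_neg (fun h => hx h.1)]
    unfold ber
    simp
  · intro h
    exact absurd (Finset.mem_univ _) h

open Classical in
theorem few_good2 {X : Type} [Fintype X] [DecidableEq X] {c D g : ℕ} {law : Option Bool → ℝ}
    (hn : ∀ v, 0 ≤ law v) (hl : ∑ v, law v = 1)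
    (hgood : 1 / 2 ≤ ∑ σ : Fin c → Option Bool, (∏ i, law (σ i)) *
      (if Good2 D σ then (1 : ℝ) else 0)) (hg : 4 * g ≤ Fintype.card X) :
    Ex law (fun s : X × Fin c → Option Bool => if ngood2 D s < g then (1 : ℝ) else 0) ≤
      (9 / 10) ^ Fintype.card X := by
  set K := Fintype.card X with hK
  let h : (Fin c → Option Bool) → ℝ := fun σ => if Good2 D σ then 1 / 2 else 1
  -- the product over the roots
  have hprod : ∀ s : X × Fin c → Option Bool,
      ∏ j, h (fun i => s (j, i)) = (1 / 2 : ℝ) ^ ngood2 D s := by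
    intro s
    have : ∀ j : X, h (fun i => s (j, i)) =
        if Good2 D (fun i => s (j, i)) then (1 / 2 : ℝ) else 1 := fun _ => rfl
    rw [Finset.prod_congr rfl fun j _ => this j, Finset.prod_ite, Finset.prod_const,
      Finset.prod_const, one_pow, mul_one]
    rfl
  have h1 : Ex law (fun s : X × Fin c → Option Bool =>
      if ngood2 D s < g then (1 : ℝ) else 0) ≤
      Ex law (fun s : X × Fin c → Option Bool => (2 : ℝ) ^ g * ∏ j, h (fun i => s (j, i))) := by
    refine Ex_mono hn fun s => ?_
    rw [hprod]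
    split_ifs with hs
    · have h2 : (1 / 2 : ℝ) ^ g ≤ (1 / 2 : ℝ) ^ ngood2 D s :=
        pow_le_pow_of_le_one (by norm_num) (by norm_num) hs.le
      calc (1 : ℝ) = 2 ^ g * (1 / 2) ^ g := by
            rw [← mul_pow]
            norm_num
        _ ≤ 2 ^ g * (1 / 2) ^ ngood2 D s := mul_le_mul_of_nonneg_left h2 (by positivity)
    · positivity
  refine h1.trans ?_
  rw [Ex_smul, fg_block]
  have h4 : ∑ σ : Fin c → Option Bool, (∏ i, law (σ i)) * h σ ≤ 3 / 4 := by
    have h5 : ∀ σ : Fin c → Option Bool, (∏ i, law (σ i)) * h σ =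
        (∏ i, law (σ i)) - 1 / 2 * ((∏ i, law (σ i)) *
          (if Good2 D σ then (1 : ℝ) else 0)) := by
      intro σ
      have : h σ = if Good2 D σ then (1 / 2 : ℝ) else 1 := rfl
      rw [this]
      split_ifs <;> ring
    rw [Finset.sum_congr rfl fun σ _ => h5 σ, Finset.sum_sub_distrib, ← Finset.mul_sum]
    have h6 : ∑ σ : Fin c → Option Bool, ∏ i, law (σ i) = 1 := by
      have := Ex_const (I := Fin c) hl 1
      unfold Ex at this
      simpa using this
    rw [h6]
    linarith
  have h7 : 0 ≤ ∑ σ : Fin c → Option Bool, (∏ i, law (σ i)) * h σ := by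
    refine Finset.sum_nonneg fun σ _ => mul_nonneg (Finset.prod_nonneg fun i _ => hn _) ?_
    have : h σ = if Good2 D σ then (1 / 2 : ℝ) else 1 := rfl
    rw [this]
    split_ifs <;> norm_num
  have h8 : (2 : ℝ) ^ g * (∑ σ : Fin c → Option Bool, (∏ i, law (σ i)) * h σ) ^ K ≤
      2 ^ g * (3 / 4) ^ K :=
    mul_le_mul_of_nonneg_left (pow_le_pow_left₀ h7 h4 K) (by positivity)
  refine h8.trans ?_
  refine le_of_pow_le_pow_left₀ (n := 4) (by norm_num) (by positivity) ?_
  have h9 : ((2 : ℝ) ^ g) ^ 4 ≤ 2 ^ K := by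
    rw [← pow_mul]
    exact pow_le_pow_right₀ (by norm_num) (by omega)
  calc ((2 : ℝ) ^ g * (3 / 4) ^ K) ^ 4 = ((2 : ℝ) ^ g) ^ 4 * ((3 / 4) ^ K) ^ 4 := by ring
    _ ≤ 2 ^ K * ((3 / 4) ^ K) ^ 4 := mul_le_mul_of_nonneg_right h9 (by positivity)
    _ = (81 / 128) ^ K := by
        rw [← pow_mul, mul_comm K 4, pow_mul, ← mul_pow]
        norm_num
    _ ≤ (6561 / 10000) ^ K := pow_le_pow_left₀ (by norm_num) (by norm_num) K
    _ = ((9 / 10) ^ K) ^ 4 := by
        rw [← pow_mul, mul_comm K 4, pow_mul]
        norm_num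

end Pool.Agent.H591R3.CEX
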