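import Pool.Agent.H591R3.CEX.Base
import Pool.Agent.H620R2.Gauge.S

/-! Task T2 (helper640): runs of the algorithms against the adversary as a guessing game. -/

set_option autoImplicit false

namespace Pool.Agent.H591R3.CEX

open Finset H568R2 Pool.Agent.H676 Pool.Agent.H620R2.Gauge Pool.Agent.NPC Pool.Agent.H591R3.PHG

namespace GameAux

section win

variable {I : Type} [DecidableEq I]

theorem prc_mono {D D' : ℕ} {R : Finset I} {H : (I → Bool) → ℕ} (h : Prc D R H) (hD : D ≤ D') :
    Prc D' R H := by
  induction h generalizing D' with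
  | done => exact Prc.done
  | cost hi h ih =>
    obtain ⟨D'', rfl⟩ : ∃ D'', D' = D'' + 1 := ⟨D' - 1, by omega⟩
    exact Prc.cost hi (fun b => ih b (by omega))
  | free hi h ih => exact Prc.free hi (fun b => ih b hD)

/-- a strategy with at most `D` guesses makes `k` hits for all assignments with the property `Q`
that agree with `z0` on `R` -/
def Win (D : ℕ) (R : Finset I) (z0 : I → Bool) (k : ℕ) (Q : (I → Bool) → Prop) : Prop :=
  ∃ H, Prc D R H ∧ ∀ z, (∀ i ∈ R, z i = z0 i) → Q z → k ≤ H z

theorem win_false {D : ℕ} {R : Finset I} {z0 : I → Bool} {k : ℕ} {Q : (I → Bool) → Prop}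
    (h : ∀ z, (∀ i ∈ R, z i = z0 i) → ¬ Q z) : Win D R z0 k Q :=
  ⟨_, Prc.done, fun z hz hQ => absurd hQ (h z hz)⟩

theorem win_zero {D : ℕ} {R : Finset I} {z0 : I → Bool} {Q : (I → Bool) → Prop} :
    Win D R z0 0 Q := ⟨_, Prc.done, fun _ _ _ => Nat.zero_le _⟩

theorem Win.mono {D D' : ℕ} {R : Finset I} {z0 : I → Bool} {k k' : ℕ} {Q Q' : (I → Bool) → Prop}
    (h : Win D R z0 k Q) (hD : D ≤ D') (hk : k' ≤ k)
    (hQ : ∀ z, (∀ i ∈ R, z i = z0 i) → Q' z → Q z) : Win D' R z0 k' Q' := by
  obtain ⟨H, h1, h2⟩ := h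
  exact ⟨H, prc_mono h1 hD, fun z hz hq => hk.trans (h2 z hz (hQ z hz hq))⟩

theorem agree_insert {R : Finset I} {z0 z : I → Bool} {i : I} {b : Bool} (hi : i ∉ R)
    (hz : ∀ i ∈ R, z i = z0 i) (hb : z i = b) :
    ∀ i' ∈ insert i R, z i' = Function.update z0 i b i' := by
  intro i' hi'
  rw [mem_insert] at hi'
  rcases hi' with rfl | h
  · rw [Function.update_self, hb]
  · have : i' ≠ i := fun h' => hi (h' ▸ h)
    rw [Function.update_of_ne this, hz i' h]

theorem win_cost {D : ℕ} {R : Finset I} {z0 : I → Bool} {k : ℕ} {Q : (I → Bool) → Prop} {i : I}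
    (hi : i ∉ R) (h1 : Win D (insert i R) (Function.update z0 i true) k Q)
    (h0 : Win D (insert i R) (Function.update z0 i false) (k + 1) Q) :
    Win (D + 1) R z0 (k + 1) Q := by
  obtain ⟨H1, p1, q1⟩ := h1
  obtain ⟨H0, p0, q0⟩ := h0
  refine ⟨_, Prc.cost (H := fun b => if b = true then H1 else H0) hi (fun b => ?_), ?_⟩
  · cases b
    · exact p0
    · exact p1
  · intro z hz hQ
    cases hb : z i with
    | true =>
      have := q1 z (agree_insert hi hz hb) hQ
      simp only [if_true]
      omega
    | false =>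
      have := q0 z (agree_insert hi hz hb) hQ
      simp only [Bool.false_eq_true, if_false]
      omega

theorem win_free {D : ℕ} {R : Finset I} {z0 : I → Bool} {k : ℕ} {Q : (I → Bool) → Prop} {i : I}
    (hi : i ∉ R) (h : ∀ b, Win D (insert i R) (Function.update z0 i b) k Q) : Win D R z0 k Q := by
  choose H p q using h
  refine ⟨_, Prc.free (H := H) hi p, ?_⟩
  intro z hz hQ
  exact q (z i) z (agree_insert hi hz rfl) hQ

end win

section main

variable {K c : ℕ} (M : CAlg) (X : Fin K → List Bool) (nm : Fin c → ℕ)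
  (s : Fin K × Fin c → Option Bool) (F : List Bool → (Fin K × Fin c → Bool) → Bool)

/-- the feasible solutions of the block `j` -/
def Sj (j : Fin K) (z : Fin K × Fin c → Bool) : Set ℕ := feas nm (fun g => val s z (j, g))

open Classical in
/-- the number of the true nodes of the block `j` -/
noncomputable def cnt (j : Fin K) (z : Fin K × Fin c → Bool) : ℕ :=
  (univ.filter (fun g => val s z (j, g) = true)).card

/-- success in all the blocks of `J` -/
def Gd (Rn : ℕ) (J : Finset (Fin K)) (z : Fin K × Fin c → Bool) : Prop :=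
  ∀ j ∈ J, Suc1 M (X j) Rn (fun q => F q z) (Sj nm s j z) ∧ Rn < cnt s j z

/-- the output is the maximum -/
def RM (j : Fin K) (z : Fin K × Fin c → Bool) (o : Option (List Bool)) : Prop :=
  ∃ y, o = some (str y) ∧ y ∈ Sj nm s j z ∧ ∀ w ∈ Sj nm s j z, w ≤ y

/-- no true value is revealed in the blocks of `J` -/
def Ok (J : Finset (Fin K)) (R : Finset (Fin K × Fin c)) (z0 : Fin K × Fin c → Bool) : Prop :=
  ∀ j ∈ J, ∀ g, (j, g) ∈ R → z0 (j, g) = false

/-- the invariant of a run -/
structure Inv (j : Fin K) (J : Finset (Fin K)) (u κ : ℕ) (R : Finset (Fin K × Fin c))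
    (z0 : Fin K × Fin c → Bool) : Prop where
  nj : j ∉ J
  ok : Ok J R z0
  low : ∀ g, s (j, g) = none → nm g ≤ u → (j, g) ∈ R
  tr : ∀ g, s (j, g) = none → (j, g) ∈ R → z0 (j, g) = true → nm g ≤ u
  card : (univ.filter (fun g => s (j, g) = none ∧ (j, g) ∈ R ∧ z0 (j, g) = true)).card ≤ κ
  top : u = 0 ∨ ∃ g, s (j, g) = none ∧ (j, g) ∈ R ∧ z0 (j, g) = true ∧ nm g = u

variable {M X nm s F}

theorem val_iff {j : Fin K} (hj : Unkilled (fun g => s (j, g))) (z : Fin K × Fin c → Bool)
    (g : Fin c) : val s z (j, g) = true ↔ s (j, g) = none ∧ z (j, g) = true := by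
  unfold PHG.val
  cases h : s (j, g) with
  | none => simp
  | some b =>
    cases b with
    | true => exact absurd h (hj g)
    | false => simp

theorem mem_Sj {j : Fin K} (hj : Unkilled (fun g => s (j, g))) (z : Fin K × Fin c → Bool) (y : ℕ) :
    y ∈ Sj nm s j z ↔ y = 0 ∨ ∃ g, s (j, g) = none ∧ z (j, g) = true ∧ nm g = y := by
  unfold Sj feas
  rw [Set.mem_ofPred_eq]
  constructor
  · rintro (h | ⟨g, h1, h2⟩)
    · exact Or.inl h
    · rw [val_iff hj] at h1
      exact Or.inr ⟨g, h1.1, h1.2, h2⟩
  · rintro (h | ⟨g, h1, h2, h3⟩)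
    · exact Or.inl h
    · exact Or.inr ⟨g, (val_iff hj z g).2 ⟨h1, h2⟩, h3⟩

theorem few {j : Fin K} (hj : Unkilled (fun g => s (j, g))) {J : Finset (Fin K)} {u κ : ℕ}
    {R : Finset (Fin K × Fin c)} {z0 z : Fin K × Fin c → Bool} (hI : Inv nm s j J u κ R z0)
    (hz : ∀ i ∈ R, z i = z0 i)
    (hall : ∀ g, s (j, g) = none → z (j, g) = true → nm g ≤ u) : cnt s j z ≤ κ := by
  classical
  refine le_trans (card_le_card ?_) hI.card
  intro g hg
  rw [mem_filter] at hg ⊢
  have h := (val_iff hj z g).1 hg.2
  have hR := hI.low g h.1 (hall g h.1 h.2)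
  exact ⟨mem_univ _, h.1, hR, by rw [← hz _ hR]; exact h.2⟩

theorem Inv.insert_false {j : Fin K} {J : Finset (Fin K)} {u κ : ℕ}
    {R : Finset (Fin K × Fin c)} {z0 : Fin K × Fin c → Bool} (hI : Inv nm s j J u κ R z0)
    {i : Fin K × Fin c} (hi : i ∉ R) :
    Inv nm s j J u κ (insert i R) (Function.update z0 i false) := by
  have key : ∀ i', i' ∈ insert i R → Function.update z0 i false i' = true →
      i' ∈ R ∧ z0 i' = true := by
    intro i' h1 h2
    by_cases h : i' = i
    · subst h
      rw [Function.update_self] at h2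
      exact absurd h2 (by decide)
    · rw [Function.update_of_ne h] at h2
      exact ⟨(mem_insert.1 h1).resolve_left h, h2⟩
  have key2 : ∀ i', i' ∈ R → Function.update z0 i false i' = z0 i' := by
    intro i' h1
    exact Function.update_of_ne (fun h => hi (by rw [← h]; exact h1)) _ _
  refine ⟨hI.nj, ?_, ?_, ?_, ?_, ?_⟩
  · intro j' hj' g hg
    by_contra hcon
    rw [Bool.not_eq_false] at hcon
    obtain ⟨h1, h2⟩ := key _ hg hcon
    rw [hI.ok j' hj' g h1] at h2
    exact absurd h2 (by decide)
  · intro g h1 h2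
    exact mem_insert_of_mem (hI.low g h1 h2)
  · intro g h1 h2 h3
    obtain ⟨h4, h5⟩ := key _ h2 h3
    exact hI.tr g h1 h4 h5
  · refine le_trans (card_le_card ?_) hI.card
    intro g hg
    rw [mem_filter] at hg ⊢
    obtain ⟨h4, h5⟩ := key _ hg.2.2.1 hg.2.2.2
    exact ⟨hg.1, hg.2.1, h4, h5⟩
  · rcases hI.top with h | ⟨g, h1, h2, h3, h4⟩
    · exact Or.inl h
    · exact Or.inr ⟨g, h1, mem_insert_of_mem h2, by rw [key2 _ h2]; exact h3, h4⟩

theorem Inv.insert_other {j : Fin K} {J J' : Finset (Fin K)} {u κ : ℕ}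
    {R : Finset (Fin K × Fin c)} {z0 : Fin K × Fin c → Bool} (hI : Inv nm s j J u κ R z0)
    {i : Fin K × Fin c} (hij : i.1 ≠ j) (hJ : J' ⊆ J) (hiJ : i.1 ∉ J') (b : Bool) :
    Inv nm s j J' u κ (insert i R) (Function.update z0 i b) := by
  have key : ∀ i' : Fin K × Fin c, i'.1 ≠ i.1 → (i' ∈ insert i R ↔ i' ∈ R) ∧
      Function.update z0 i b i' = z0 i' := by
    intro i' h1
    have h : i' ≠ i := fun h => h1 (by rw [h])
    refine ⟨⟨fun h2 => (mem_insert.1 h2).resolve_left h, fun h2 => mem_insert_of_mem h2⟩, ?_⟩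
    exact Function.update_of_ne h _ _
  have keyj : ∀ g : Fin c, ((j, g) ∈ insert i R ↔ (j, g) ∈ R) ∧
      Function.update z0 i b (j, g) = z0 (j, g) := fun g => key (j, g) (fun h => hij h.symm)
  refine ⟨fun h => hI.nj (hJ h), ?_, ?_, ?_, ?_, ?_⟩
  · intro j' hj' g hg
    have h := key (j', g) (fun h => hiJ (by rw [← h]; exact hj'))
    rw [h.2]
    exact hI.ok j' (hJ hj') g (h.1.1 hg)
  · intro g h1 h2
    exact mem_insert_of_mem (hI.low g h1 h2)
  · intro g h1 h2 h3
    rw [(keyj g).1] at h2
    rw [(keyj g).2] at h3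
    exact hI.tr g h1 h2 h3
  · refine le_trans (card_le_card ?_) hI.card
    intro g hg
    rw [mem_filter] at hg ⊢
    rw [(keyj g).1, (keyj g).2] at hg
    exact hg
  · rcases hI.top with h | ⟨g, h1, h2, h3, h4⟩
    · exact Or.inl h
    · exact Or.inr ⟨g, h1, mem_insert_of_mem h2, by rw [(keyj g).2]; exact h3, h4⟩

theorem Ok.insert {J J' : Finset (Fin K)}
    {R : Finset (Fin K × Fin c)} {z0 : Fin K × Fin c → Bool} (hO : Ok J R z0)
    {i : Fin K × Fin c} (hJ : J' ⊆ J) (hiJ : i.1 ∉ J') (b : Bool) :
    Ok J' (insert i R) (Function.update z0 i b) := by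
  intro j' hj' g hg
  have h1 : ((j', g) : Fin K × Fin c) ≠ i := fun h => hiJ (by rw [← h]; exact hj')
  rw [Function.update_of_ne h1]
  exact hO j' (hJ hj') g ((mem_insert.1 hg).resolve_left h1)

/-- the decision tree of a question -/
theorem tree {j : Fin K} {u κ : ℕ} (B D0 : ℕ) (Q : Finset (Fin K) → (Fin K × Fin c → Bool) → Prop)
    (hQ : ∀ J J' z, J' ⊆ J → Q J z → Q J' z) : ∀ (k : ℕ) (f : (Fin K × Fin c → Bool) → Bool),
    DTr k f → ∀ (J : Finset (Fin K)) (R : Finset (Fin K × Fin c)) (z0 : Fin K × Fin c → Bool),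
    Inv nm s j J u κ R z0 →
    (∀ (b : Bool) (J' : Finset (Fin K)) (R' : Finset (Fin K × Fin c)) (z0' : Fin K × Fin c → Bool),
      R ⊆ R' → (∀ i ∈ R, z0' i = z0 i) → J' ⊆ J → Inv nm s j J' u κ R' z0' →
      Win (D0 + J'.card * B) R' z0' (J'.card + 1) (fun z => Q J' z ∧ f z = b)) →
    (∀ (J' : Finset (Fin K)) (R' : Finset (Fin K × Fin c)) (z0' : Fin K × Fin c → Bool),
      J' ⊆ J → Ok J' R' z0' → Win (J'.card * B) R' z0' J'.card (Q J')) →
    Win (k + (D0 + J.card * B)) R z0 (J.card + 1) (Q J) := by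
  intro k
  induction k with
  | zero =>
    rintro f ⟨b, hb⟩ J R z0 hI h1 _
    exact (h1 b J R z0 Subset.rfl (fun _ _ => rfl) Subset.rfl hI).mono (by omega) le_rfl
      (fun z _ hz => ⟨hz, hb z⟩)
  | succ k ih =>
    intro f hf J R z0 hI h1 h2
    rcases hf with ⟨b, hb⟩ | ⟨i, hi⟩
    · exact (h1 b J R z0 Subset.rfl (fun _ _ => rfl) Subset.rfl hI).mono (by omega) le_rfl
        (fun z _ hz => ⟨hz, hb z⟩)
    · have hupd : ∀ (z : Fin K × Fin c → Bool) (b0 : Bool), z i = b0 →
          f (Function.update z i b0) = f z := by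
        intro z b0 h
        rw [← h, Function.update_eq_self]
      by_cases hiR : i ∈ R
      · refine (ih _ (hi (z0 i)) J R z0 hI ?_ h2).mono (by omega) le_rfl (fun z _ hz => hz)
        intro b J' R' z0' hR hz0 hJ hI'
        refine (h1 b J' R' z0' hR hz0 hJ hI').mono le_rfl le_rfl ?_
        rintro z hz ⟨hq, hfz⟩
        refine ⟨hq, ?_⟩
        rw [← hfz]
        exact (hupd z _ (by rw [hz i (hR hiR), hz0 i hiR])).symm
      · -- the continuation after the value `b0` of the coordinate `i`
        have cont : ∀ (b0 : Bool) (J' : Finset (Fin K)), J' ⊆ J →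
            Inv nm s j J' u κ (insert i R) (Function.update z0 i b0) →
            Win (k + (D0 + J'.card * B)) (insert i R) (Function.update z0 i b0) (J'.card + 1)
              (Q J') := by
          intro b0 J' hJ' hI'
          refine ih _ (hi b0) J' (insert i R) _ hI' ?_ (fun J'' R' z0' hJ'' => h2 J'' R' z0'
            (hJ''.trans hJ'))
          intro b J'' R' z0' hR hz0 hJ hI''
          have hz0' : ∀ i' ∈ R, z0' i' = z0 i' := by
            intro i' hi'
            rw [hz0 i' (mem_insert_of_mem hi'), Function.update_of_ne]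
            exact fun h => hiR (by rw [← h]; exact hi')
          refine (h1 b J'' R' z0' ((subset_insert _ _).trans hR) hz0' (hJ.trans hJ') hI'').mono
            le_rfl le_rfl ?_
          rintro z hz ⟨hq, hfz⟩
          refine ⟨hq, ?_⟩
          rw [← hfz]
          refine (hupd z _ ?_).symm
          rw [hz i (hR (mem_insert_self _ _)), hz0 i (mem_insert_self _ _), Function.update_self]
        have c0 := cont false J Subset.rfl (hI.insert_false hiR)
        have e : k + 1 + (D0 + J.card * B) = (k + (D0 + J.card * B)) + 1 := by omega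
        rw [e]
        refine win_cost hiR ?_ c0
        by_cases hij : i.1 = j
        · refine (h2 J (insert i R) (Function.update z0 i true) Subset.rfl
            (hI.ok.insert Subset.rfl (by rw [hij]; exact hI.nj) true)).mono (by omega) le_rfl
            (fun z _ hz => hz)
        · by_cases hiJ : i.1 ∈ J
          · have hcard := card_erase_add_one hiJ
            have h3 := cont true (J.erase i.1) (erase_subset _ _)
              (hI.insert_other hij (erase_subset _ _) (notMem_erase _ _) true)
            refine h3.mono ?_ (by omega) (fun z _ hz => hQ J _ z (erase_subset _ _) hz)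
            have : (J.erase i.1).card * B ≤ J.card * B := Nat.mul_le_mul_right _ (by omega)
            omega
          · have h3 := cont true J Subset.rfl (hI.insert_other hij Subset.rfl hiJ true)
            exact h3.mono le_rfl (by omega) (fun z _ hz => hz)

theorem Gd.mono {Rn : ℕ} {J J' : Finset (Fin K)} {z : Fin K × Fin c → Bool}
    (h : Gd M X nm s F Rn J z) (hJ : J' ⊆ J) : Gd M X nm s F Rn J' z := fun j hj => h j (hJ hj)

theorem advN_of_notMem {S : Set ℕ} {a : List Bool} {y : ℕ} (h : y ∉ S) : advN S a y = some 0 := by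
  unfold advN
  rw [if_pos h]

theorem advN_of_next {S : Set ℕ} {a : List Bool} {y w : ℕ} (h : y ∈ S) (hw : w ∈ S) (hyw : y < w)
    (hmin : ∀ w' ∈ S, y < w' → w ≤ w') : advN S a y = some w := by
  classical
  unfold advN
  have hex : ∃ z, z ∈ S ∧ y < z := ⟨w, hw, hyw⟩
  rw [if_neg (not_not.2 h), dif_pos hex]
  congr 1
  apply le_antisymm
  · exact Nat.find_min' hex ⟨hw, hyw⟩
  · exact hmin _ (Nat.find_spec hex).1 (Nat.find_spec hex).2

/-- the output of the algorithm -/
theorem win_out (hnm : Function.Injective nm) (hpos : ∀ g, 0 < nm g) {j : Fin K}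
    (hj : Unkilled (fun g => s (j, g))) {J : Finset (Fin K)} {u κ Rn B : ℕ}
    {R : Finset (Fin K × Fin c)} {z0 : Fin K × Fin c → Bool} (hI : Inv nm s j J u κ R z0)
    (hκ : κ ≤ Rn)
    (hCL : ∀ (R' : Finset (Fin K × Fin c)) (z0' : Fin K × Fin c → Bool), Ok J R' z0' →
      Win (J.card * B) R' z0' J.card (Gd M X nm s F Rn J)) (w : List Bool) :
    Win (J.card * B + 1) R z0 (J.card + 1) (fun z => RM nm s j z (some w) ∧ Rn < cnt s j z ∧
      Gd M X nm s F Rn J z) := by
  by_cases hw : ∃ y, w = str y
  swap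
  · refine win_false ?_
    rintro z _ ⟨⟨y, h1, _⟩, _⟩
    exact hw ⟨y, Option.some.inj h1⟩
  obtain ⟨y0, rfl⟩ := hw
  have hRM : ∀ z, RM nm s j z (some (str y0)) → y0 ∈ Sj nm s j z ∧ ∀ w ∈ Sj nm s j z, w ≤ y0 := by
    rintro z ⟨y, h1, h2, h3⟩
    rw [str_injective (Option.some.inj h1)]
    exact ⟨h2, h3⟩
  by_cases hg : ∃ g, nm g = y0
  swap
  · refine win_false ?_
    rintro z _ ⟨h1, h2, _⟩
    obtain ⟨h3, h4⟩ := hRM z h1
    rw [mem_Sj hj] at h3
    rcases h3 with h3 | ⟨g, _, _, h3⟩
    · have h5 : cnt s j z = 0 := by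
        unfold cnt
        rw [card_eq_zero, filter_eq_empty_iff]
        intro g _ hgv
        rw [val_iff hj] at hgv
        have := h4 (nm g) ((mem_Sj hj z _).2 (Or.inr ⟨g, hgv.1, hgv.2, rfl⟩))
        have := hpos g
        omega
      omega
    · exact hg ⟨g, h3⟩
  obtain ⟨g, rfl⟩ := hg
  have hval : ∀ z, nm g ∈ Sj nm s j z → s (j, g) = none ∧ z (j, g) = true := by
    intro z h
    rw [mem_Sj hj] at h
    rcases h with h | ⟨g', h1, h2, h3⟩
    · exact absurd h (hpos g).ne'
    · rw [← hnm h3]
      exact ⟨h1, h2⟩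
  by_cases hs : s (j, g) = none
  swap
  · exact win_false fun z _ hz => hs (hval z (hRM z hz.1).1).1
  by_cases hR : (j, g) ∈ R
  · refine win_false ?_
    rintro z hz ⟨h1, h2, _⟩
    obtain ⟨h3, h4⟩ := hRM z h1
    have h5 := (hval z h3).2
    rw [hz _ hR] at h5
    have h6 := hI.tr g hs hR h5
    have h7 := few hj hI hz (fun g' h8 h9 =>
      (h4 (nm g') ((mem_Sj hj z _).2 (Or.inr ⟨g', h8, h9, rfl⟩))).trans h6)
    omega
  · refine win_cost hR ?_ ?_
    · exact (hCL _ _ (hI.ok.insert Subset.rfl hI.nj true)).mono le_rfl le_rfl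
        (fun z _ hz => hz.2.2)
    · refine win_false ?_
      rintro z hz ⟨h1, _, _⟩
      have h5 := (hval z (hRM z h1).1).2
      rw [hz _ (mem_insert_self _ _), Function.update_self] at h5
      exact absurd h5 (by decide)

variable (M X nm s F)

/-- the goal of a run with `n` rounds left -/
def QN (j : Fin K) (J : Finset (Fin K)) (Rn n : ℕ) (a : List Bool)
    (z : Fin K × Fin c → Bool) : Prop :=
  RM nm s j z (M.run (fun q => F q z) (advN (Sj nm s j z)) (X j) n a) ∧ Rn < cnt s j z ∧
    Gd M X nm s F Rn J z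

/-- the rest of the run after an answer of the adversary -/
noncomputable def aft (j : Fin K) (n : ℕ) (a : List Bool) (z : Fin K × Fin c → Bool) :
    Option ℕ → Option (List Bool)
  | none => M.run (fun q => F q z) (advN (Sj nm s j z)) (X j) n (a ++ [false])
  | some w => M.run (fun q => F q z) (advN (Sj nm s j z)) (X j) n
      (a ++ (true :: pairBits (str w) []))

/-- the goal after the presentation of `y` -/
def QP (j : Fin K) (J : Finset (Fin K)) (Rn n : ℕ) (a : List Bool) (y : ℕ)
    (z : Fin K × Fin c → Bool) : Prop :=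
  RM nm s j z (aft M X nm s F j n a z (advN (Sj nm s j z) a y)) ∧ Rn < cnt s j z ∧
    Gd M X nm s F Rn J z

variable {M X nm s F}

theorem QP.next {j : Fin K} {J : Finset (Fin K)} {Rn n : ℕ} {a : List Bool} {y w : ℕ}
    {z : Fin K × Fin c → Bool} (h : QP M X nm s F j J Rn n a y z)
    (hw : advN (Sj nm s j z) a y = some w) :
    QN M X nm s F j J Rn n (a ++ (true :: pairBits (str w) [])) z := by
  unfold QP at h
  rw [hw] at h
  exact h

/-- the next feasible solution above `u` is found by scanning -/
theorem scan (hnm : Function.Injective nm) {j : Fin K}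
    (hj : Unkilled (fun g => s (j, g))) {J : Finset (Fin K)} {Rn n D : ℕ} {a : List Bool}
    (hnext : ∀ (R' : Finset (Fin K × Fin c)) (z0' : Fin K × Fin c → Bool) (u' κ' : ℕ)
      (a' : List Bool), Inv nm s j J u' κ' R' z0' → κ' + n ≤ Rn →
      Win D R' z0' (J.card + 1) (QN M X nm s F j J Rn n a')) {u κ : ℕ} (hκ : κ + 1 + n ≤ Rn) :
    ∀ (m : ℕ) (R : Finset (Fin K × Fin c)) (z0 : Fin K × Fin c → Bool),
      Inv nm s j J u κ R z0 →
      (univ.filter (fun g => s (j, g) = none ∧ (j, g) ∉ R ∧ u < nm g)).card = m →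
      Win D R z0 (J.card + 1) (QP M X nm s F j J Rn n a u) := by
  intro m
  induction m with
  | zero =>
    intro R z0 hI hm
    refine win_false ?_
    rintro z hz ⟨_, h2, _⟩
    have h7 := few hj hI hz (fun g h8 h9 => by
      by_contra hcon
      rw [not_le] at hcon
      have hR : (j, g) ∈ R := by
        by_contra hR
        rw [card_eq_zero, filter_eq_empty_iff] at hm
        exact hm (mem_univ g) ⟨h8, hR, hcon⟩
      rw [hz _ hR] at h9
      exact absurd (hI.tr g h8 hR h9) (not_le.2 hcon))
    omega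
  | succ m ih =>
    intro R z0 hI hm
    have hne : (univ.filter (fun g => s (j, g) = none ∧ (j, g) ∉ R ∧ u < nm g)).Nonempty := by
      rw [← card_pos]; omega
    obtain ⟨g, hg, hmin⟩ := exists_min_image _ nm hne
    rw [mem_filter] at hg
    obtain ⟨_, hs, hR, hug⟩ := hg
    refine win_free hR (fun b => ?_)
    cases b with
    | false =>
      refine ih _ _ (hI.insert_false hR) ?_
      have : (univ.filter (fun g' => s (j, g') = none ∧ (j, g') ∉ insert (j, g) R ∧ u < nm g')) =
          (univ.filter (fun g' => s (j, g') = none ∧ (j, g') ∉ R ∧ u < nm g')).erase g := by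
        ext g'
        simp only [mem_filter, mem_univ, true_and, mem_insert, mem_erase, not_or, Prod.mk.injEq]
        tauto
      rw [this, card_erase_of_mem (by rw [mem_filter]; exact ⟨mem_univ _, hs, hR, hug⟩), hm]
      rfl
    | true =>
      have hI' : Inv nm s j J (nm g) (κ + 1) (insert (j, g) R) (Function.update z0 (j, g) true) := by
        refine ⟨hI.nj, hI.ok.insert Subset.rfl hI.nj true, ?_, ?_, ?_, ?_⟩
        · intro g' h1 h2
          by_cases hgg : g' = g
          · rw [hgg]; exact mem_insert_self _ _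
          · apply mem_insert_of_mem
            by_cases h3 : nm g' ≤ u
            · exact hI.low g' h1 h3
            · by_contra hR'
              have h4 := hmin g' (by rw [mem_filter]; exact ⟨mem_univ _, h1, hR', not_le.1 h3⟩)
              exact hgg (hnm (le_antisymm h2 h4))
        · intro g' h1 h2 h3
          by_cases hgg : g' = g
          · rw [hgg]
          · have hne' : ((j, g') : Fin K × Fin c) ≠ (j, g) := fun h => hgg (Prod.mk.inj h).2
            rw [Function.update_of_ne hne'] at h3
            exact (hI.tr g' h1 ((mem_insert.1 h2).resolve_left hne') h3).trans hug.le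
        · have hsub : (univ.filter (fun g' => s (j, g') = none ∧ (j, g') ∈ insert (j, g) R ∧
              Function.update z0 (j, g) true (j, g') = true)) ⊆
              insert g (univ.filter (fun g' => s (j, g') = none ∧ (j, g') ∈ R ∧
                z0 (j, g') = true)) := by
            intro g' hg'
            rw [mem_filter] at hg'
            by_cases hgg : g' = g
            · rw [hgg]; exact mem_insert_self _ _
            · have hne' : ((j, g') : Fin K × Fin c) ≠ (j, g) := fun h => hgg (Prod.mk.inj h).2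
              rw [Function.update_of_ne hne'] at hg'
              apply mem_insert_of_mem
              rw [mem_filter]
              exact ⟨hg'.1, hg'.2.1, (mem_insert.1 hg'.2.2.1).resolve_left hne', hg'.2.2.2⟩
          have := card_le_card hsub
          have := card_insert_le g (univ.filter (fun g' => s (j, g') = none ∧ (j, g') ∈ R ∧
                z0 (j, g') = true))
          have := hI.card
          omega
        · exact Or.inr ⟨g, hs, mem_insert_self _ _, Function.update_self _ _ _, rfl⟩
      refine (hnext _ _ (nm g) (κ + 1) (a ++ (true :: pairBits (str (nm g)) [])) hI'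
        hκ).mono le_rfl le_rfl ?_
      intro z hz hq
      refine hq.next ?_
      have hzR : ∀ i ∈ R, z i = z0 i := by
        intro i hi
        rw [hz i (mem_insert_of_mem hi), Function.update_of_ne]
        exact fun h => hR (by rw [← h]; exact hi)
      have hzg : z (j, g) = true := by
        rw [hz _ (mem_insert_self _ _), Function.update_self]
      refine advN_of_next ?_ ((mem_Sj hj z _).2 (Or.inr ⟨g, hs, hzg, rfl⟩)) hug ?_
      · rw [mem_Sj hj]
        rcases hI.top with h | ⟨g', h1, h2, h3, h4⟩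
        · exact Or.inl h
        · exact Or.inr ⟨g', h1, by rw [hzR _ h2]; exact h3, h4⟩
      · intro w hw huw
        rw [mem_Sj hj] at hw
        rcases hw with h | ⟨g', h1, h2, h3⟩
        · omega
        · rw [← h3]
          by_contra hcon
          rw [not_le] at hcon
          by_cases hR' : (j, g') ∈ R
          · rw [hzR _ hR'] at h2
            have := hI.tr g' h1 hR' h2
            omega
          · have := hmin g' (by rw [mem_filter]; exact ⟨mem_univ _, h1, hR', by omega⟩)
            omega

/-- the presentation of `y` -/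
theorem pres (hnm : Function.Injective nm) {j : Fin K}
    (hj : Unkilled (fun g => s (j, g))) {J : Finset (Fin K)} {Rn n D B : ℕ} {a : List Bool}
    (hBD : J.card * B ≤ D)
    (hnext : ∀ (R' : Finset (Fin K × Fin c)) (z0' : Fin K × Fin c → Bool) (u' κ' : ℕ)
      (a' : List Bool), Inv nm s j J u' κ' R' z0' → κ' + n ≤ Rn →
      Win D R' z0' (J.card + 1) (QN M X nm s F j J Rn n a')) {u κ : ℕ} (hκ : κ + 1 + n ≤ Rn)
    (hCL : ∀ (R' : Finset (Fin K × Fin c)) (z0' : Fin K × Fin c → Bool), Ok J R' z0' →
      Win (J.card * B) R' z0' J.card (Gd M X nm s F Rn J))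
    {R : Finset (Fin K × Fin c)} {z0 : Fin K × Fin c → Bool} (hI : Inv nm s j J u κ R z0) (y : ℕ) :
    Win (D + 1) R z0 (J.card + 1) (QP M X nm s F j J Rn n a y) := by
  by_cases hyu : y = u
  · subst hyu
    exact (scan hnm hj hnext hκ _ R z0 hI rfl).mono (by omega) le_rfl (fun z _ hz => hz)
  by_cases hfe : y = 0 ∨ ∃ g, s (j, g) = none ∧ (j, g) ∈ R ∧ z0 (j, g) = true ∧ nm g = y
  · have hlt : y < u := by
      rcases hfe with h | ⟨g, h1, h2, h3, h4⟩
      · omega
      · have := hI.tr g h1 h2 h3
        omega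
    have hne : (univ.filter (fun g => s (j, g) = none ∧ (j, g) ∈ R ∧ z0 (j, g) = true ∧
        y < nm g)).Nonempty := by
      rcases hI.top with h | ⟨g, h1, h2, h3, h4⟩
      · omega
      · exact ⟨g, by rw [mem_filter]; exact ⟨mem_univ _, h1, h2, h3, by omega⟩⟩
    obtain ⟨g, hg, hmin⟩ := exists_min_image _ nm hne
    rw [mem_filter] at hg
    obtain ⟨_, hs, hR, hz0, hyg⟩ := hg
    refine (hnext R z0 u κ (a ++ (true :: pairBits (str (nm g)) [])) hI (by omega)).mono
      (by omega) le_rfl ?_
    intro z hz hq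
    refine hq.next (advN_of_next ?_ ((mem_Sj hj z _).2 (Or.inr ⟨g, hs, by rw [hz _ hR]; exact hz0,
      rfl⟩)) hyg ?_)
    · rw [mem_Sj hj]
      rcases hfe with h | ⟨g', h1, h2, h3, h4⟩
      · exact Or.inl h
      · exact Or.inr ⟨g', h1, by rw [hz _ h2]; exact h3, h4⟩
    · intro w hw hyw
      rw [mem_Sj hj] at hw
      rcases hw with h | ⟨g', h1, h2, h3⟩
      · omega
      · by_cases h4 : nm g' ≤ u
        · have h5 := hI.low g' h1 h4
          rw [hz _ h5] at h2
          rw [← h3]
          exact hmin g' (by rw [mem_filter]; exact ⟨mem_univ _, h1, h5, h2, by omega⟩)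
        · have := hI.tr g hs hR hz0
          omega
  · rw [not_or] at hfe
    -- answers `some 0` if `y` is not feasible
    have hinf : ∀ (R' : Finset (Fin K × Fin c)) (z0' : Fin K × Fin c → Bool),
        Inv nm s j J u κ R' z0' → (∀ z, (∀ i ∈ R', z i = z0' i) → y ∉ Sj nm s j z) →
        Win D R' z0' (J.card + 1) (QP M X nm s F j J Rn n a y) := by
      intro R' z0' hI' h
      refine (hnext R' z0' u κ (a ++ (true :: pairBits (str 0) [])) hI' (by omega)).mono
        le_rfl le_rfl ?_
      intro z hz hq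
      exact hq.next (advN_of_notMem (h z hz))
    by_cases hg : ∃ g, nm g = y ∧ s (j, g) = none ∧ (j, g) ∉ R
    · obtain ⟨g, rfl, hs, hR⟩ := hg
      refine win_cost hR ?_ ?_
      · exact (hCL _ _ (hI.ok.insert Subset.rfl hI.nj true)).mono hBD le_rfl
          (fun z _ hz => hz.2.2)
      · refine hinf _ _ (hI.insert_false hR) ?_
        intro z hz hy
        rw [mem_Sj hj] at hy
        rcases hy with h | ⟨g', h1, h2, h3⟩
        · exact hfe.1 h
        · rw [hnm h3, hz _ (mem_insert_self _ _), Function.update_self] at h2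
          exact absurd h2 (by decide)
    · refine (hinf R z0 hI ?_).mono (by omega) le_rfl (fun z _ hz => hz)
      intro z hz hy
      rw [mem_Sj hj] at hy
      rcases hy with h | ⟨g', h1, h2, h3⟩
      · exact hfe.1 h
      · by_cases hR : (j, g') ∈ R
        · rw [hz _ hR] at h2
          exact hfe.2 ⟨g', h1, hR, h2, h3⟩
        · exact hg ⟨g', h3, h1, hR⟩

/-- the run of one block -/
theorem run_claim (hnm : Function.Injective nm) (hpos : ∀ g, 0 < nm g) {r Rn B : ℕ}
    (hF : ∀ q, DTr r (F q)) {j : Fin K} (hj : Unkilled (fun g => s (j, g)))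
    (Jt : Finset (Fin K))
    (hCL : ∀ J ⊆ Jt, ∀ (R' : Finset (Fin K × Fin c)) (z0' : Fin K × Fin c → Bool), Ok J R' z0' →
      Win (J.card * B) R' z0' J.card (Gd M X nm s F Rn J)) :
    ∀ (n : ℕ) (J : Finset (Fin K)), J ⊆ Jt → ∀ (R : Finset (Fin K × Fin c))
      (z0 : Fin K × Fin c → Bool) (u κ : ℕ) (a : List Bool), Inv nm s j J u κ R z0 → κ + n ≤ Rn →
      Win (n * (r + 1) + J.card * B) R z0 (J.card + 1) (QN M X nm s F j J Rn n a) := by
  intro n
  induction n with
  | zero =>
    intro J hJ R z0 u κ a hI hκ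
    refine win_false ?_
    rintro z hz ⟨⟨y, h1, _⟩, _⟩
    simp [CAlg.run] at h1
  | succ n ih =>
    intro J hJ R z0 u κ a hI hκ
    have hsc : (n + 1) * (r + 1) = n * (r + 1) + r + 1 := by ring
    have hout : ∀ w, (∀ z, M.run (fun q => F q z) (advN (Sj nm s j z)) (X j) (n + 1) a = some w) →
        Win ((n + 1) * (r + 1) + J.card * B) R z0 (J.card + 1)
          (QN M X nm s F j J Rn (n + 1) a) := by
      intro w hw
      refine (win_out hnm hpos hj hI (by omega) (hCL J hJ) w).mono (by rw [hsc]; omega) le_rfl ?_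
      rintro z hz ⟨h1, h2, h3⟩
      rw [hw z] at h1
      exact ⟨h1, h2, h3⟩
    rcases hD : M.D (pairBits (X j) a) with _ | ⟨b1, l1⟩
    · exact hout [] (fun z => by simp [CAlg.run, hD])
    cases b1 with
    | true => exact hout l1 (fun z => by simp [CAlg.run, hD])
    | false =>
      rcases l1 with _ | ⟨b2, l2⟩
      · exact hout [] (fun z => by simp [CAlg.run, hD])
      cases b2 with
      | false =>
        -- a question to the oracle
        have key := tree (nm := nm) (s := s) (j := j) (u := u) (κ := κ) B (n * (r + 1))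
          (fun J' z => RM nm s j z (M.run (fun q => F q z) (advN (Sj nm s j z)) (X j) n
            (a ++ [F l2 z])) ∧ Rn < cnt s j z ∧ Gd M X nm s F Rn J' z)
          (fun J1 J2 z h12 h => ⟨h.1, h.2.1, h.2.2.mono h12⟩) r (F l2) (hF l2) J R z0 hI
          (by
            intro b J' R' z0' _ _ hJ' hI'
            refine (ih J' (hJ'.trans hJ) R' z0' u κ (a ++ [b]) hI' (by omega)).mono le_rfl
              le_rfl ?_
            rintro z _ ⟨⟨h1, h2, h3⟩, h4⟩
            rw [h4] at h1
            exact ⟨h1, h2, h3⟩)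
          (by
            intro J' R' z0' hJ' hO
            exact (hCL J' (hJ'.trans hJ) R' z0' hO).mono le_rfl le_rfl (fun z _ hz => hz.2.2))
        refine key.mono (by rw [hsc]; omega) le_rfl ?_
        rintro z _ ⟨h1, h2, h3⟩
        refine ⟨?_, h2, h3⟩
        simpa [CAlg.run, hD] using h1
      | true =>
        -- a number is presented
        have key := pres (a := a) hnm hj (Nat.le_add_left (J.card * B) (n * (r + 1)))
          (fun R' z0' u' κ' a' => ih J hJ R' z0' u' κ' a') (κ := κ) (u := u) (by omega)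
          (hCL J hJ) hI (num l2)
        refine key.mono (by rw [hsc]; omega) le_rfl ?_
        rintro z _ ⟨h1, h2, h3⟩
        refine ⟨?_, h2, h3⟩
        simp only [CAlg.run, hD] at h1
        cases hadv : advN (Sj nm s j z) a (num l2) with
        | none =>
          rw [hadv] at h1
          simpa [aft] using h1
        | some w =>
          rw [hadv] at h1
          simpa [aft] using h1

/-- all the blocks of `J` -/
theorem claim (hnm : Function.Injective nm) (hpos : ∀ g, 0 < nm g) {r Rn : ℕ}
    (hF : ∀ q, DTr r (F q)) : ∀ (m : ℕ) (J : Finset (Fin K)), J.card = m →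
    (∀ j ∈ J, Unkilled (fun g => s (j, g))) → ∀ (R : Finset (Fin K × Fin c))
    (z0 : Fin K × Fin c → Bool), Ok J R z0 →
    Win (J.card * (Rn * (r + 1))) R z0 J.card (Gd M X nm s F Rn J) := by
  intro m
  induction m using Nat.strong_induction_on with
  | _ m ih =>
    intro J hm hJ R z0 hO
    rcases J.eq_empty_or_nonempty with h | ⟨j, hj⟩
    · subst h
      exact win_zero
    · have hcard := card_erase_add_one hj
      have key := run_claim (X := X) (M := M) (B := Rn * (r + 1)) (Rn := Rn) hnm hpos hF (hJ j hj)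
        (J.erase j)
        (fun J' hJ' R' z0' hO' => ih J'.card (by have := card_le_card hJ'; omega) J' rfl
          (fun j' hj' => hJ j' (mem_of_mem_erase (hJ' hj'))) R' z0' hO') Rn (J.erase j)
        Subset.rfl R z0 0 0 []
        (by
          refine ⟨notMem_erase _ _, fun j' hj' => hO j' (mem_of_mem_erase hj'), ?_, ?_, ?_, ?_⟩
          · intro g _ h
            exact absurd h (not_le.2 (hpos g))
          · intro g _ h1 h2
            rw [hO j hj g h1] at h2
            exact absurd h2 (by decide)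
          · rw [Nat.le_zero, card_eq_zero, filter_eq_empty_iff]
            rintro g _ ⟨_, h1, h2⟩
            rw [hO j hj g h1] at h2
            exact absurd h2 (by decide)
          · exact Or.inl rfl) (by omega)
      refine key.mono ?_ (by omega) ?_
      · have : J.card * (Rn * (r + 1)) = Rn * (r + 1) + (J.erase j).card * (Rn * (r + 1)) := by
          rw [← hcard]; ring
        omega
      · intro z _ hz
        exact ⟨(hz j hj).1, (hz j hj).2, hz.mono (erase_subset _ _)⟩

end main

end GameAux

open Classical in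
theorem game {K c r Rn : ℕ} (M : CAlg) (X : Fin K → List Bool) (nm : Fin c → ℕ)
    (hnm : Function.Injective nm) (hpos : ∀ g, 0 < nm g) (s : Fin K × Fin c → Option Bool)
    (F : List Bool → (Fin K × Fin c → Bool) → Bool) (hF : ∀ q, DTr r (F q))
    (J : Finset (Fin K)) (hJ : ∀ j ∈ J, Unkilled (fun g => s (j, g))) :
    ∃ H : (Fin K × Fin c → Bool) → ℕ, Prc (J.card * (Rn * (r + 1))) ∅ H ∧
      ∀ z : Fin K × Fin c → Bool,
        (∀ j ∈ J, Suc1 M (X j) Rn (fun q => F q z) (feas nm (fun g => val s z (j, g))) ∧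
          Rn < (univ.filter (fun g => val s z (j, g) = true)).card) → J.card ≤ H z := by
  obtain ⟨H, h1, h2⟩ := GameAux.claim (M := M) (X := X) (nm := nm) (s := s) (F := F) (Rn := Rn)
    hnm hpos hF J.card J rfl hJ ∅ (fun _ => false) (fun j _ g h => absurd h (notMem_empty _))
  refine ⟨H, h1, fun z hz => h2 z (fun i hi => absurd hi (notMem_empty _)) ?_⟩
  intro j hj
  exact hz j hj

end Pool.Agent.H591R3.CEX
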