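import Pool.Agent.H591R3.CEX.Base
import Pool.Agent.H591R3.PHG.Inv
import Pool.Agent.H591R3.PHG.GoodProb

/-! Task T4: a root is good with probability at least 1/2. -/

set_option autoImplicit false

namespace Pool.Agent.H591R3.CEX

open Finset H568R2 Pool.Agent.H676 Pool.Agent.H620R2.Gauge Pool.Agent.NPC Pool.Agent.H591R3.PHG

namespace Good2Aux

open Pool.Agent.H591R3.PHG.GoodProbAux

open Classical in
theorem good2_lower {c : ℕ} (D : ℕ) (σ : Fin c → Option Bool) :
    (∏ i, wu (σ i)) - 2 ^ D * (∏ i, wn (1 / 2) (σ i)) ≤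
      if Good2 D σ then (1 : ℝ) else 0 := by
  rw [← unkilled_eq, ← pow_live]
  have p2 : (0 : ℝ) ≤ 2 ^ D * (1 / 2) ^ (live σ).card := by positivity
  by_cases hu : Unkilled σ
  · by_cases h1 : D ≤ (live σ).card
    · rw [if_pos hu, if_pos (show Good2 D σ from ⟨hu, h1⟩)]
      linarith
    · have h4 : (1 : ℝ) ≤ 2 ^ D * (1 / 2) ^ (live σ).card := by
        calc (1 : ℝ) = 2 ^ D * (1 / 2) ^ D := by
              rw [← mul_pow]
              norm_num
          _ ≤ 2 ^ D * (1 / 2) ^ (live σ).card :=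
              mul_le_mul_of_nonneg_left
                (pow_le_pow_of_le_one (by norm_num) (by norm_num) (by omega)) (by positivity)
      rw [if_pos hu]
      split_ifs <;> linarith
  · rw [if_neg hu]
    split_ifs <;> linarith

end Good2Aux

open Classical in
theorem good2_prob {n c : ℕ} (hn : 40 ≤ n) {law : Option Bool → ℝ} (h : Inv n law)
    (h1 : 2 ^ n ≤ c * (law none / 2 ^ (4 * n) + law (some true)))
    (h2 : c * (law none / 2 ^ (4 * n) + law (some true)) < 2 * 2 ^ n) :
    1 / 2 ≤ ∑ σ : Fin c → Option Bool, (∏ i, law (σ i)) *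
      (if Good2 (2 ^ (5 * n - 3)) σ then (1 : ℝ) else 0) := by
  set D : ℕ := 2 ^ (5 * n - 3) with hD
  have hn0 := h.nonneg
  have hl := h.sum
  have hR := h.rare
  have hlow : (1 - law (some true)) ^ c - 2 ^ D * (1 + (1 / 2 - 1) * law none) ^ c ≤
      ∑ σ : Fin c → Option Bool, (∏ i, law (σ i)) * (if Good2 D σ then (1 : ℝ) else 0) := by
    rw [← GoodProbAux.sum_wu hl, ← GoodProbAux.sum_wn (1 / 2) hl, ← GoodProbAux.prod_sum,
      ← GoodProbAux.prod_sum, Finset.mul_sum, ← Finset.sum_sub_distrib]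
    refine Finset.sum_le_sum fun σ _ => ?_
    refine le_trans (le_of_eq ?_) (mul_le_mul_of_nonneg_left (Good2Aux.good2_lower D σ)
      (Finset.prod_nonneg fun i _ => hn0 _))
    ring
  refine le_trans ?_ hlow
  have hL0 : 0 ≤ law none := hn0 _
  have hR0 : 0 ≤ law (some true) := hn0 _
  have hF0 : 0 ≤ law (some false) := hn0 _
  have hsum := hl
  rw [GoodProbAux.sum_option_bool] at hsum
  have hR1 : law (some true) ≤ 1 := by linarith
  have hL1 : law none ≤ 1 := by linarith
  generalize law none = L at *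
  generalize law (some true) = R at *
  have hc0 : (0 : ℝ) ≤ c := Nat.cast_nonneg c
  have hA : (2 : ℝ) ^ (2 * n) = 2 ^ n * 2 ^ n := by rw [two_mul, pow_add]
  have hN : (32 : ℝ) * 2 ≤ 2 ^ n := by
    calc (32 : ℝ) * 2 = 2 ^ 6 := by norm_num
      _ ≤ 2 ^ n := pow_le_pow_right₀ (by norm_num) (by omega)
  have hT1 : (1 : ℝ) ≤ 2 ^ (4 * n) := one_le_pow₀ (by norm_num)
  have hDT : (D : ℝ) = 2 ^ (4 * n) * 2 ^ n / 8 := by
    rw [hD]
    push_cast
    have : (2 : ℝ) ^ (4 * n) * 2 ^ n = 2 ^ (5 * n - 3) * 8 := by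
      rw [← pow_add, show 4 * n + n = 5 * n - 3 + 3 by omega, pow_add]
      norm_num
    rw [this]
    ring
  rw [hA] at hR
  generalize (2 : ℝ) ^ (4 * n) = T at *
  generalize (2 : ℝ) ^ n = N at *
  have hN0 : 0 < N := by linarith
  have hT0 : 0 < T := by linarith
  -- c R ≤ 1/16
  have hcR : c * R ≤ 1 / 16 := by
    calc c * R ≤ c * (2 * (1 / (N * N)) * (L / T + R)) := mul_le_mul_of_nonneg_left hR hc0
      _ = 2 * (1 / (N * N)) * (c * (L / T + R)) := by ring
      _ ≤ 2 * (1 / (N * N)) * (2 * N) := mul_le_mul_of_nonneg_left h2.le (by positivity)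
      _ = 4 / N := by field_simp; ring
      _ ≤ 1 / 16 := by
          rw [div_le_div_iff₀ hN0 (by norm_num)]
          linarith
  have hcL : c * L = T * (c * (L / T + R) - c * R) := by
    field_simp
    ring
  have hcL2 : T * (15 / 16 * N) ≤ c * L := by
    rw [hcL]
    refine mul_le_mul_of_nonneg_left ?_ hT0.le
    linarith
  have a1 : 1 - 1 / 16 ≤ (1 - R) ^ c := by
    have b1 := one_add_mul_le_pow (show (-2 : ℝ) ≤ -R by linarith) c
    rw [← sub_eq_add_neg] at b1
    linarith
  have a3 : 2 ^ D * (1 + (1 / 2 - 1) * L) ^ c ≤ 1 / 12 := by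
    have b1 : (1 + (1 / 2 - 1) * L) ^ c ≤ Real.exp (c * (-(L / 2))) := by
      calc (1 + (1 / 2 - 1) * L) ^ c ≤ (Real.exp (-(L / 2))) ^ c := by
            refine pow_le_pow_left₀ (by linarith) ?_ c
            have := Real.add_one_le_exp (-(L / 2))
            linarith
        _ = Real.exp (c * (-(L / 2))) := (Real.exp_nat_mul _ c).symm
    have b2 : (2 : ℝ) ^ D ≤ Real.exp D := by
      calc (2 : ℝ) ^ D ≤ (Real.exp 1) ^ D := by
            refine pow_le_pow_left₀ (by norm_num) ?_ D
            have := Real.add_one_le_exp (1 : ℝ)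
            linarith
        _ = Real.exp D := by rw [← Real.exp_nat_mul, mul_one]
    calc 2 ^ D * (1 + (1 / 2 - 1) * L) ^ c ≤ Real.exp D * Real.exp (c * (-(L / 2))) :=
          mul_le_mul b2 b1 (pow_nonneg (by linarith) _) (Real.exp_pos _).le
      _ = Real.exp (D + c * (-(L / 2))) := (Real.exp_add _ _).symm
      _ ≤ Real.exp (-11) := by
          refine Real.exp_le_exp.mpr ?_
          rw [hDT]
          have e1 : 1 * (32 * 2) ≤ T * N := mul_le_mul hT1 hN (by norm_num) hT0.le
          nlinarith [hcL2, e1]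
      _ ≤ 1 / 12 := by
          rw [Real.exp_neg, one_div]
          refine inv_anti₀ (by norm_num) ?_
          have := Real.add_one_le_exp (11 : ℝ)
          linarith
  linarith

end Pool.Agent.H591R3.CEX
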