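import Pool.Agent.H591R3.CEX.Base

/-! Exponential moment of the number of hits. -/

set_option autoImplicit false

namespace Pool.Agent.H591R3.CEX

open Finset H568R2 Pool.Agent.H676 Pool.Agent.H620R2.Gauge Pool.Agent.NPC Pool.Agent.H591R3.PHG

namespace Moment

theorem ber_sum (t : ℝ) : ∑ b, ber t b = 1 := by
  rw [Fintype.sum_bool]; simp [ber]

theorem ber_nonneg {t : ℝ} (ht : 0 ≤ t) (ht1 : t ≤ 1) (b : Bool) : 0 ≤ ber t b := by
  cases b <;> simp [ber] <;> linarith

theorem split {I : Type} [Fintype I] [DecidableEq I] (t : ℝ) (F : (I → Bool) → ℝ) (i : I) :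
    Ex (ber t) F = t * Ex (ber t) (fun z => F (Function.update z i true)) +
      (1 - t) * Ex (ber t) (fun z => F (Function.update z i false)) := by
  rw [Ex_resample (ber_sum t) F i]
  have : (fun ω : I → Bool => ∑ a, ber t a * F (Function.update ω i a)) =
      fun ω => t * F (Function.update ω i true) + (1 - t) * F (Function.update ω i false) := by
    funext ω
    rw [Fintype.sum_bool]
    simp [ber]
  rw [this, Ex_add, Ex_smul, Ex_smul]

theorem upd {I : Type} [DecidableEq I] (R : Finset I) (i : I) (hi : i ∉ R) (z₀ z : I → Bool) (b : Bool) :
    (fun i' => if i' ∈ R then z₀ i' else (Function.update z i b) i') =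
      fun i' => if i' ∈ insert i R then (Function.update z₀ i b) i' else z i' := by
  funext i'
  by_cases h1 : i' = i
  · subst h1; simp [hi]
  · simp [h1]

end Moment

open Moment in
theorem prc_moment {I : Type} [Fintype I] [DecidableEq I] {D : ℕ} {R : Finset I}
    {H : (I → Bool) → ℕ} (h : Prc D R H) {t lam : ℝ} (ht : 0 ≤ t) (ht1 : t ≤ 1) (hl : 1 ≤ lam)
    (z₀ : I → Bool) :
    Ex (ber t) (fun z => lam ^ (H (fun i => if i ∈ R then z₀ i else z i))) ≤ (1 + lam * t) ^ D := by
  have hlt : 0 ≤ lam * t := by positivity
  induction h generalizing z₀ with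
  | @done D R =>
    simp only [pow_zero]
    rw [Ex_const (ber_sum t)]
    exact one_le_pow₀ (by linarith)
  | @cost D R i H hi h ih =>
    have key : ∀ b, Ex (ber t) (fun z => lam ^ ((if (fun i' => if i' ∈ R then z₀ i' else (Function.update z i b) i') i = true then 1 else 0) +
        H ((fun i' => if i' ∈ R then z₀ i' else (Function.update z i b) i') i) (fun i' => if i' ∈ R then z₀ i' else (Function.update z i b) i'))) ≤
        lam ^ (if b = true then 1 else 0) * (1 + lam * t) ^ D := by
      intro b
      have e : ∀ z : I → Bool, lam ^ ((if (fun i' => if i' ∈ R then z₀ i' else (Function.update z i b) i') i = true then 1 else 0) +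
        H ((fun i' => if i' ∈ R then z₀ i' else (Function.update z i b) i') i) (fun i' => if i' ∈ R then z₀ i' else (Function.update z i b) i')) =
        lam ^ (if b = true then 1 else 0) * lam ^ (H b (fun i' => if i' ∈ insert i R then (Function.update z₀ i b) i' else z i')) := by
        intro z
        have e1 : (fun i' => if i' ∈ R then z₀ i' else (Function.update z i b) i') i = b := by simp [hi]
        rw [e1, upd R i hi, pow_add]
      simp only [e]
      rw [Ex_smul]
      have : 0 ≤ lam ^ (if b = true then 1 else 0) := by positivity
      exact mul_le_mul_of_nonneg_left (ih b (Function.update z₀ i b)) this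
    rw [split t _ i]
    have k1 := key true
    have k2 := key false
    simp only [if_true, Bool.false_eq_true, if_false, pow_one, pow_zero, one_mul] at k1 k2
    have hp : 0 ≤ (1 + lam * t) ^ D := by positivity
    calc _ ≤ t * (lam * (1 + lam * t) ^ D) + (1 - t) * (1 + lam * t) ^ D := by
          apply add_le_add
          · apply mul_le_mul_of_nonneg_left _ ht
            simpa using k1
          · apply mul_le_mul_of_nonneg_left _ (by linarith)
            simpa using k2
      _ ≤ (1 + lam * t) ^ (D + 1) := by
          rw [pow_succ]
          nlinarith [mul_nonneg ht hp]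
  | @free D R i H hi h ih =>
    have key : ∀ b, Ex (ber t) (fun z => lam ^ (
        H ((fun i' => if i' ∈ R then z₀ i' else (Function.update z i b) i') i) (fun i' => if i' ∈ R then z₀ i' else (Function.update z i b) i'))) ≤
        (1 + lam * t) ^ D := by
      intro b
      have e : ∀ z : I → Bool, lam ^ (
        H ((fun i' => if i' ∈ R then z₀ i' else (Function.update z i b) i') i) (fun i' => if i' ∈ R then z₀ i' else (Function.update z i b) i')) =
        lam ^ (H b (fun i' => if i' ∈ insert i R then (Function.update z₀ i b) i' else z i')) := by
        intro z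
        have e1 : (fun i' => if i' ∈ R then z₀ i' else (Function.update z i b) i') i = b := by simp [hi]
        rw [e1, upd R i hi]
      simp only [e]
      exact ih b (Function.update z₀ i b)
    rw [split t _ i]
    have k1 := key true
    have k2 := key false
    calc _ ≤ t * (1 + lam * t) ^ D + (1 - t) * (1 + lam * t) ^ D := by
          apply add_le_add
          · exact mul_le_mul_of_nonneg_left k1 ht
          · exact mul_le_mul_of_nonneg_left k2 (by linarith)
      _ = (1 + lam * t) ^ D := by ring

end Pool.Agent.H591R3.CEX
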