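import Pool.Agent.H591R3.CEX.Base

/-! Numbers for the random oracle theorem on counterexample computations (task T5, helper826). -/

set_option autoImplicit false

namespace Pool.Agent.H591R3.CEX

theorem exists_pow2 {n : ℕ} (hn : 40 ≤ n) {p : ℝ} (h1 : Real.exp (-(36 * n)) ≤ p)
    (h2 : p ≤ 1 / 2 ^ (8 * n)) :
    ∃ a : ℕ, a ≤ 64 * n ∧ (2 : ℝ) ^ n ≤ 2 ^ a * p ∧ (2 : ℝ) ^ a * p < 2 * 2 ^ n := by
  classical
  have hp : 0 < p := lt_of_lt_of_le (Real.exp_pos _) h1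
  have hex : ∃ a : ℕ, (2 : ℝ) ^ n ≤ 2 ^ a * p := by
    obtain ⟨a, ha⟩ := pow_unbounded_of_one_lt ((2 : ℝ) ^ n / p) (by norm_num : (1 : ℝ) < 2)
    refine ⟨a, ?_⟩
    rw [div_lt_iff₀ hp] at ha
    exact ha.le
  have hspec := Nat.find_spec hex
  have hmin : ∀ m < Nat.find hex, ¬ ((2 : ℝ) ^ n ≤ 2 ^ m * p) := fun m hm => Nat.find_min hex hm
  set a := Nat.find hex with hadef
  have hpow : (1 : ℝ) ≤ 2 ^ n := one_le_pow₀ (by norm_num)
  have hpl : p < 1 := by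
    refine lt_of_le_of_lt h2 ?_
    rw [div_lt_one (by positivity)]
    exact one_lt_pow₀ (by norm_num) (by omega)
  have ha0 : a ≠ 0 := by
    intro h0
    rw [h0] at hspec
    simp only [pow_zero, one_mul] at hspec
    linarith
  obtain ⟨b, hb⟩ := Nat.exists_eq_succ_of_ne_zero ha0
  have hb' : (2 : ℝ) ^ b * p < 2 ^ n := by
    have := hmin b (by omega)
    push Not at this
    exact this
  have hbn : b < 63 * n := by
    have hexp2 : Real.exp 2 ≤ 2 ^ 3 := by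
      have h := Real.exp_one_lt_d9
      have h3 : Real.exp 2 = Real.exp 1 ^ 2 := by
        rw [← Real.exp_nat_mul]; norm_num
      rw [h3]
      have h4 : Real.exp 1 ^ 2 ≤ 2.7182818286 ^ 2 :=
        pow_le_pow_left₀ (Real.exp_pos _).le h.le 2
      refine h4.trans (by norm_num)
    have hexp : Real.exp (36 * n) ≤ 2 ^ (54 * n) := by
      have h3 : Real.exp (36 * n) = Real.exp 2 ^ (18 * n) := by
        rw [← Real.exp_nat_mul]; congr 1; push_cast; ring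
      rw [h3]
      calc Real.exp 2 ^ (18 * n) ≤ (2 ^ 3) ^ (18 * n) :=
            pow_le_pow_left₀ (Real.exp_pos _).le hexp2 _
        _ = 2 ^ (54 * n) := by rw [← pow_mul]; congr 1; ring
    have h5 : (2 : ℝ) ^ b * Real.exp (-(36 * n)) < 2 ^ n :=
      lt_of_le_of_lt (mul_le_mul_of_nonneg_left h1 (by positivity)) hb'
    have h6 : (2 : ℝ) ^ b < 2 ^ n * Real.exp (36 * n) := by
      rw [Real.exp_neg] at h5
      have := Real.exp_pos (36 * (n : ℝ))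
      rw [← div_eq_mul_inv, div_lt_iff₀ this] at h5
      exact h5
    have h7 : (2 : ℝ) ^ b < 2 ^ (55 * n) := by
      refine lt_of_lt_of_le h6 ?_
      calc (2 : ℝ) ^ n * Real.exp (36 * n) ≤ 2 ^ n * 2 ^ (54 * n) :=
            mul_le_mul_of_nonneg_left hexp (by positivity)
        _ = 2 ^ (55 * n) := by rw [← pow_add]; congr 1; ring
    have h8 := (pow_lt_pow_iff_right₀ (by norm_num : (1 : ℝ) < 2)).1 h7
    omega
  refine ⟨a, by omega, hspec, ?_⟩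
  rw [hb, Nat.succ_eq_add_one, pow_succ]
  linarith

theorem nums2_term1 {n u Rn : ℕ} (hn : 40 ≤ n) (hu : 8 * u ≤ n) (hR : Rn ≤ 2 ^ (2 * u)) :
    (2 : ℝ) ^ (u + 11) * (2 ^ Rn * (1 - 1 / 2 ^ (4 * n) / 2) ^ (2 ^ (5 * n - 3))) ≤
      (1 / 2) ^ (2 ^ u) := by
  have hx0 : (0 : ℝ) ≤ 1 - 1 / 2 ^ (4 * n) / 2 := by
    have h : (1 : ℝ) / 2 ^ (4 * n) ≤ 1 := by
      rw [div_le_one (by positivity)]; exact one_le_pow₀ (by norm_num)
    linarith
  have hx : (1 : ℝ) - 1 / 2 ^ (4 * n) / 2 ≤ Real.exp (-(1 / 2 ^ (4 * n + 1))) := by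
    have h := Real.add_one_le_exp (-((1 : ℝ) / 2 ^ (4 * n + 1)))
    have h2 : (1 : ℝ) / 2 ^ (4 * n) / 2 = 1 / 2 ^ (4 * n + 1) := by
      rw [pow_succ, div_div]
    rw [h2]; linarith
  have h1 : ((1 : ℝ) - 1 / 2 ^ (4 * n) / 2) ^ (2 ^ (5 * n - 3)) ≤ (1 / 2) ^ (2 ^ (n - 4)) := by
    calc ((1 : ℝ) - 1 / 2 ^ (4 * n) / 2) ^ (2 ^ (5 * n - 3))
        ≤ Real.exp (-(1 / 2 ^ (4 * n + 1))) ^ (2 ^ (5 * n - 3)) :=
          pow_le_pow_left₀ hx0 hx _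
      _ = Real.exp (-1) ^ (2 ^ (n - 4)) := by
          rw [← Real.exp_nat_mul, ← Real.exp_nat_mul]
          congr 1
          push_cast
          have h3 : (2 : ℝ) ^ (5 * n - 3) = 2 ^ (n - 4) * 2 ^ (4 * n + 1) := by
            rw [← pow_add]; congr 1; omega
          rw [h3]
          field_simp
      _ ≤ (1 / 2) ^ (2 ^ (n - 4)) := by
          refine pow_le_pow_left₀ (Real.exp_pos _).le ?_ _
          rw [Real.exp_neg, one_div]
          have h4 : (2 : ℝ) ≤ Real.exp 1 := by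
            have := Real.add_one_le_exp (1 : ℝ); linarith
          exact inv_anti₀ (by norm_num) h4
  have hexp : (u + 11) + Rn + 2 ^ u ≤ 2 ^ (n - 4) := by
    have e1 : u + 11 ≤ 2 ^ (2 * u + 4) := by
      have h5 : u < 2 ^ u := Nat.lt_two_pow_self
      have h6 : 2 ^ u ≤ 2 ^ (2 * u) := Nat.pow_le_pow_right (by norm_num) (by omega)
      have h7 : 2 ^ (2 * u + 4) = 16 * 2 ^ (2 * u) := by rw [pow_add]; ring
      omega
    have e2 : 2 ^ u ≤ 2 ^ (2 * u) := Nat.pow_le_pow_right (by norm_num) (by omega)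
    have e3 : 2 ^ (2 * u + 5) ≤ 2 ^ (n - 4) := Nat.pow_le_pow_right (by norm_num) (by omega)
    have e4 : 2 ^ (2 * u + 5) = 2 * 2 ^ (2 * u + 4) := by rw [pow_succ]; ring
    have e5 : 2 ^ (2 * u + 4) = 16 * 2 ^ (2 * u) := by rw [pow_add]; ring
    omega
  calc (2 : ℝ) ^ (u + 11) * (2 ^ Rn * (1 - 1 / 2 ^ (4 * n) / 2) ^ (2 ^ (5 * n - 3)))
      ≤ (2 : ℝ) ^ (u + 11) * (2 ^ Rn * (1 / 2) ^ (2 ^ (n - 4))) := by gcongr
    _ ≤ (2 : ℝ) ^ (u + 11) * (2 ^ Rn * (1 / 2) ^ ((u + 11) + Rn + 2 ^ u)) := by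
        gcongr 2 ^ (u + 11) * (2 ^ Rn * ?_)
        exact pow_le_pow_of_le_one (by norm_num) (by norm_num) hexp
    _ = (1 / 2) ^ (2 ^ u) := by
        rw [pow_add (1 / 2 : ℝ) (u + 11 + Rn), pow_add (1 / 2 : ℝ) (u + 11) Rn]
        have h8 : ∀ k : ℕ, (2 : ℝ) ^ k * (1 / 2) ^ k = 1 := by
          intro k; rw [← mul_pow]; norm_num
        calc (2 : ℝ) ^ (u + 11) * (2 ^ Rn * ((1 / 2) ^ (u + 11) * (1 / 2) ^ Rn *
                (1 / 2) ^ 2 ^ u))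
            = (2 ^ (u + 11) * (1 / 2) ^ (u + 11)) * (2 ^ Rn * (1 / 2) ^ Rn) *
                (1 / 2) ^ 2 ^ u := by ring
          _ = (1 / 2) ^ 2 ^ u := by rw [h8, h8]; ring

theorem nums2_term2 {n u Rn : ℕ} (hn : 40 ≤ n) (hu : 8 * u ≤ n) (hR : Rn ≤ 2 ^ (2 * u)) :
    ((1 : ℝ) / (2 ^ (4 * n) / 2 ^ (5 * u + 13))) ^ (2 ^ (u + 9)) *
        (1 + 2 ^ (4 * n) / 2 ^ (5 * u + 13) * (1 / 2 ^ (4 * n))) ^
          (2 ^ (u + 11) * (Rn * (2 ^ (2 * u) + 1))) ≤ (1 / 2) ^ (2 ^ u) := by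
  have h1 : (1 : ℝ) / (2 ^ (4 * n) / 2 ^ (5 * u + 13)) ≤ 1 / 2 := by
    refine one_div_le_one_div_of_le (by norm_num) ?_
    rw [le_div_iff₀ (by positivity), ← pow_succ']
    exact pow_le_pow_right₀ (by norm_num) (by omega)
  have h1' : (0 : ℝ) ≤ 1 / (2 ^ (4 * n) / 2 ^ (5 * u + 13)) := by positivity
  have h2 : (2 : ℝ) ^ (4 * n) / 2 ^ (5 * u + 13) * (1 / 2 ^ (4 * n)) = 1 / 2 ^ (5 * u + 13) := by
    field_simp
  have hM : 2 ^ (u + 11) * (Rn * (2 ^ (2 * u) + 1)) ≤ 2 ^ (5 * u + 12) := by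
    have e1 : Rn * (2 ^ (2 * u) + 1) ≤ 2 ^ (2 * u) * (2 * 2 ^ (2 * u)) := by
      refine Nat.mul_le_mul hR ?_
      have : 1 ≤ 2 ^ (2 * u) := Nat.one_le_two_pow
      omega
    calc 2 ^ (u + 11) * (Rn * (2 ^ (2 * u) + 1))
        ≤ 2 ^ (u + 11) * (2 ^ (2 * u) * (2 * 2 ^ (2 * u))) := Nat.mul_le_mul_left _ e1
      _ = 2 ^ (5 * u + 12) := by
          rw [show 5 * u + 12 = (u + 11) + (2 * u + (1 + 2 * u)) by ring,
            pow_add 2 (u + 11) (2 * u + (1 + 2 * u)), pow_add 2 (2 * u) (1 + 2 * u),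
            pow_add 2 1 (2 * u), pow_one]
  have h3 : ((1 : ℝ) + 2 ^ (4 * n) / 2 ^ (5 * u + 13) * (1 / 2 ^ (4 * n))) ^
          (2 ^ (u + 11) * (Rn * (2 ^ (2 * u) + 1))) ≤ 2 := by
    rw [h2]
    have hone : (1 : ℝ) ≤ 1 + 1 / 2 ^ (5 * u + 13) := by
      have : (0 : ℝ) ≤ 1 / 2 ^ (5 * u + 13) := by positivity
      linarith
    calc ((1 : ℝ) + 1 / 2 ^ (5 * u + 13)) ^ (2 ^ (u + 11) * (Rn * (2 ^ (2 * u) + 1)))
        ≤ (1 + 1 / 2 ^ (5 * u + 13)) ^ (2 ^ (5 * u + 12)) := pow_le_pow_right₀ hone hM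
      _ ≤ Real.exp (1 / 2 ^ (5 * u + 13)) ^ (2 ^ (5 * u + 12)) := by
          refine pow_le_pow_left₀ (by positivity) ?_ _
          have := Real.add_one_le_exp ((1 : ℝ) / 2 ^ (5 * u + 13))
          linarith
      _ = Real.exp (1 / 2) := by
          rw [← Real.exp_nat_mul]
          congr 1
          push_cast
          rw [show 5 * u + 13 = (5 * u + 12) + 1 by ring, pow_succ (2 : ℝ) (5 * u + 12)]
          field_simp
      _ ≤ 2 := by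
          have h4 : Real.exp (1 / 2) ^ 2 ≤ 2 ^ 2 := by
            rw [← Real.exp_nat_mul]
            have h5 : ((2 : ℕ) : ℝ) * (1 / 2) = 1 := by norm_num
            rw [h5]
            have := Real.exp_one_lt_d9
            linarith
          exact le_of_sq_le_sq' h4
  calc ((1 : ℝ) / (2 ^ (4 * n) / 2 ^ (5 * u + 13))) ^ (2 ^ (u + 9)) *
        (1 + 2 ^ (4 * n) / 2 ^ (5 * u + 13) * (1 / 2 ^ (4 * n))) ^
          (2 ^ (u + 11) * (Rn * (2 ^ (2 * u) + 1)))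
      ≤ (1 / 2) ^ (2 ^ (u + 9)) * 2 := by
        refine mul_le_mul (pow_le_pow_left₀ h1' h1 _) h3 (by positivity) (by positivity)
    _ ≤ (1 / 2) ^ (2 ^ u + 1) * 2 := by
        refine mul_le_mul_of_nonneg_right ?_ (by norm_num)
        refine pow_le_pow_of_le_one (by norm_num) (by norm_num) ?_
        have e1 : 1 ≤ 2 ^ u := Nat.one_le_two_pow
        have e2 : 2 ^ (u + 9) = 512 * 2 ^ u := by rw [pow_add]; ring
        omega
    _ = (1 / 2) ^ (2 ^ u) := by rw [pow_succ]; ring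
where
  le_of_sq_le_sq' {x : ℝ} (h : x ^ 2 ≤ 2 ^ 2) : x ≤ 2 := by nlinarith [sq_nonneg (x + 2)]

theorem nums2_term3 (u : ℕ) : ((9 : ℝ) / 10) ^ (2 ^ (u + 11)) ≤ (1 / 2) ^ (2 ^ u) := by
  have h1 : 2 ^ (u + 11) = 2048 * 2 ^ u := by rw [pow_add]; ring
  rw [h1, pow_mul]
  refine pow_le_pow_left₀ (by positivity) ?_ _
  calc ((9 : ℝ) / 10) ^ 2048 ≤ (9 / 10) ^ 7 :=
        pow_le_pow_of_le_one (by norm_num) (by norm_num) (by norm_num)
    _ ≤ 1 / 2 := by norm_num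

theorem final2 {n u Rn : ℕ} (hn : 40 ≤ n) (hu : 8 * u ≤ n) (hR : Rn ≤ 2 ^ (2 * u)) :
    (2 : ℝ) ^ (u + 11) * (2 ^ Rn * (1 - 1 / 2 ^ (4 * n) / 2) ^ (2 ^ (5 * n - 3))) +
      (1 / (2 ^ (4 * n) / 2 ^ (5 * u + 13))) ^ (2 ^ (u + 9)) *
        (1 + 2 ^ (4 * n) / 2 ^ (5 * u + 13) * (1 / 2 ^ (4 * n))) ^
          (2 ^ (u + 11) * (Rn * (2 ^ (2 * u) + 1))) +
      (9 / 10) ^ (2 ^ (u + 11)) ≤ 3 * (1 / 2) ^ (2 ^ u) := by
  have h1 := nums2_term1 hn hu hR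
  have h2 := nums2_term2 hn hu hR
  have h3 := nums2_term3 u
  linarith

end Pool.Agent.H591R3.CEX
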