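import Pool.Agent.H591R3.CEX.Base
import Pool.Agent.H591R3.PHG.LangSig
import Pool.Agent.H620R2.Gauge.S

/-! The hard optimization problem is an optimization problem with solution set in `Π_i` relative
to the oracle (helper266; adapted from `PHG/LangSig.lean` of helper570). -/

set_option autoImplicit false

namespace Pool.Agent.H591R3.CEX

open Finset H568R2 Pool.Agent.H676 Pool.Agent.H620R2.Gauge Pool.Agent.NPC Pool.Agent.H591R3.PHG
  Pool.Agent.H622R2

namespace PiCA

/-- the rest of the parameters and the address, from the nested string with `j` quantified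
strings -/
def dec : ℕ → List Bool → List Bool × List Bool
  | 0, z => ((unpair (unpair z).1).2, (unpair z).1 ++ (unpair z).2)
  | j + 1, u => ((unpair (dec j (unpair u).2).1).2,
      (dec j (unpair u).2).2 ++ LangSig.fit (unpair (dec j (unpair u).2).1).1 (unpair u).1)

/-- the input, from the nested string with `j` quantified strings -/
def base : ℕ → List Bool → List Bool
  | 0, z => z
  | j + 1, u => base j (unpair u).2

/-- the input is a pair of strings, the second one is not empty -/
def Nec (z : List Bool) : Bool :=
  decide (pairBits (unpair z).1 (unpair z).2 = z) && !decide ((unpair z).2 = [])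

/-- the second string has the wrong length -/
def Suf (z : List Bool) : Bool :=
  !decide ((unpair z).2.length = (unpair (unpair z).1).1.length)

theorem poly_fst : Poly (fun z : List Bool => (unpair z).1) := Poly.fst poly_unpair

theorem poly_snd : Poly (fun z : List Bool => (unpair z).2) := Poly.snd poly_unpair

theorem poly_dec (j : ℕ) : Poly (dec j) := by
  have h1 := poly_fst
  have h2 := poly_snd
  induction j with
  | zero =>
    have h3 : Poly (fun z : List Bool => unpair (unpair z).1) := poly_unpair.comp h1
    exact (Poly.pair (Poly.snd h3) (Poly.append h1 h2)).congr (fun z => rfl)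
  | succ j ih =>
    have h3 : Poly (fun z : List Bool => dec j (unpair z).2) := ih.comp h2
    have h4 : Poly (fun z : List Bool => unpair (dec j (unpair z).2).1) :=
      poly_unpair.comp (Poly.fst h3)
    exact (Poly.pair (Poly.snd h4)
      (Poly.append (Poly.snd h3) (LangSig.poly_fit (Poly.fst h4) h1))).congr (fun z => rfl)

theorem poly_base (j : ℕ) : Poly (base j) := by
  induction j with
  | zero => exact Poly.id.congr (fun z => rfl)
  | succ j ih => exact (ih.comp poly_snd).congr (fun z => rfl)

theorem poly_Nec : Poly Nec := by
  have h1 := poly_fst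
  have h2 := poly_snd
  exact (Poly.and (Poly.decide_eq (poly_pairBits h1 h2) Poly.id)
    (Poly.not (Poly.decide_eq h2 (NPC.Poly.const [])))).congr (fun z => rfl)

theorem poly_Suf : Poly Suf := by
  have h1 := poly_fst
  have h2 := poly_snd
  have h3 : Poly (fun z : List Bool => (unpair (unpair z).1).1) := h1.comp h1
  exact (Poly.not (Poly.decide_eq (Poly.length h2) (Poly.length h3))).congr (fun z => rfl)

/-- the questions to the oracle -/
def Qs (k : ℕ) (y : List Bool) : List (List Bool) :=
  (List.range (unpair (dec k y).1).1.length).map (fun l => (dec k y).2 ++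
    (List.replicate (min l (unpair (dec k y).1).1.length) ()).map (fun _ => true))

theorem poly_Qs (k : ℕ) : Poly (Qs k) := by
  have h1 : Poly (fun y : List Bool => (unpair (dec k y).1).1) :=
    Poly.fst (poly_unpair.comp (Poly.fst (poly_dec k)))
  have h2 : UPoly (fun y : List Bool => (unpair (dec k y).1).1.length) := UPoly.length h1
  have h3 : UPoly (fun p : List Bool × ℕ => min p.2 (unpair (dec k p.1).1).1.length) :=
    UPoly.of_le (Poly.min (Poly.snd Poly.id) (Poly.length (h1.comp (Poly.fst Poly.id))))
      (h2.comp (Poly.fst Poly.id)) (fun p => min_le_right _ _)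
  have h4 : Poly (fun p : List Bool × ℕ => (dec k p.1).2 ++
      (List.replicate (min p.2 (unpair (dec k p.1).1).1.length) ()).map (fun _ => true)) :=
    Poly.append (Poly.snd ((poly_dec k).comp (Poly.fst Poly.id)))
      (NPC.Poly.map (F := fun _ _ => true) h3 (NPC.Poly.const true))
  exact NPC.Poly.map (F := fun y l => (dec k y).2 ++
    (List.replicate (min l (unpair (dec k y).1).1.length) ()).map (fun _ => true)) h2.range h4

/-- the verifier -/
def Ver (k : ℕ) (e : Bool) (A : Oracle) (y : List Bool) : List Bool :=
  [Nec (base k y) && (Suf (base k y) || decide (((Qs k y).map A).all (fun b => !b) = e))]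

theorem isFP_Ver (k : ℕ) (e : Bool) (A : Oracle) : IsFP A (Ver k e A) := by
  have h1 : Poly (fun p : List Bool × List Bool => p.2.all (fun b => !b)) :=
    Poly.all (p := fun _ b => !b) (Poly.snd Poly.id) (Poly.not (Poly.snd Poly.id))
  have h0 : Poly (fun p : List Bool × List Bool => base k p.1) :=
    (poly_base k).comp (Poly.fst Poly.id)
  have h2 : Poly (fun p : List Bool × List Bool =>
      [Nec (base k p.1) && (Suf (base k p.1) || decide (p.2.all (fun b => !b) = e))]) :=
    Poly.cons (Poly.and (poly_Nec.comp h0) (Poly.or (poly_Suf.comp h0)
      (Poly.decide_eq h1 (NPC.Poly.const e)))) (NPC.Poly.const [])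
  exact IsFP.tt (A := A) (H := fun p =>
    [Nec (base k p.1) && (Suf (base k p.1) || decide (p.2.all (fun b => !b) = e))]) (poly_Qs k) h2

theorem Ver_iff (k : ℕ) (e : Bool) (A : Oracle) (y : List Bool) (hn : Nec (base k y) = true)
    (hs : Suf (base k y) = false) :
    Ver k e A y = [true] ↔ bitv A (unpair (dec k y).1).1.length (dec k y).2 = e := by
  have h1 : ((Qs k y).map A).all (fun b => !b) =
      bitv A (unpair (dec k y).1).1.length (dec k y).2 := by
    rw [Bool.eq_iff_iff]
    unfold bitv Qs
    rw [List.all_eq_true, decide_eq_true_iff]
    simp only [List.mem_map, List.mem_range, Bool.not_eq_true', List.map_replicate]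
    constructor
    · intro h l hl
      have h2 := h (A ((dec k y).2 ++ List.replicate l true)) ⟨_, ⟨l, hl, rfl⟩, by
        rw [Nat.min_eq_left hl.le]⟩
      exact h2
    · rintro h b ⟨_, ⟨l, hl, rfl⟩, rfl⟩
      rw [Nat.min_eq_left hl.le]
      exact h l hl
  unfold Ver
  rw [h1, hn, hs]
  simp

theorem base_pair (i : ℕ) (w u : List Bool) : base (i + 1) (pairBits w u) = base i u := by
  simp only [base, unpair_pairBits]

theorem quant_false (A : Oracle) (K m : ℕ) (e : Bool) : ∀ (j i : ℕ) (b : Bool) (u : List Bool),
    i + j = K → Nec (base i u) = false → ¬ Quant m (Ver K e A) j b u := by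
  intro j
  induction j with
  | zero =>
    intro i b u hi hn
    have hi : i = K := by omega
    subst hi
    have h1 : Ver i e A u ≠ [true] := by
      unfold Ver
      rw [hn]
      simp
    cases b <;> exact h1
  | succ j ih =>
    intro i b u hi hn
    have key : ∀ w : List Bool, ¬ Quant m (Ver K e A) j (!b) (pairBits w u) := fun w =>
      ih (i + 1) (!b) (pairBits w u) (by omega) (by rw [base_pair]; exact hn)
    cases b with
    | true =>
      rintro ⟨w, -, h⟩
      exact key w h
    | false =>
      intro h
      exact key [] (h [] (by simp))

theorem quant_true (A : Oracle) (K m : ℕ) (e : Bool) : ∀ (j i : ℕ) (b : Bool) (u : List Bool),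
    i + j = K → Nec (base i u) = true → Suf (base i u) = true → Quant m (Ver K e A) j b u := by
  intro j
  induction j with
  | zero =>
    intro i b u hi hn hs
    have hi : i = K := by omega
    subst hi
    have h1 : Ver i e A u = [true] := by
      unfold Ver
      rw [hn, hs]
      simp
    cases b <;> exact h1
  | succ j ih =>
    intro i b u hi hn hs
    have key : ∀ w : List Bool, Quant m (Ver K e A) j (!b) (pairBits w u) := fun w =>
      ih (i + 1) (!b) (pairBits w u) (by omega) (by rw [base_pair]; exact hn)
        (by rw [base_pair]; exact hs)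
    cases b with
    | true => exact ⟨[], by simp, key []⟩
    | false => exact fun w _ => key w

theorem quant_iff (A : Oracle) (K m : ℕ) (e : Bool) : ∀ (j i : ℕ) (b : Bool)
    (u r q : List Bool), i + j = K → Nec (base i u) = true → Suf (base i u) = false →
      dec i u = (r, q) → r.length ≤ m → bot b j = !e →
      (Quant m (Ver K e A) j b u ↔
        ((parse j r).1.foldr up (bitv A (unpair (parse j r).2).1.length)) q = !b) := by
  intro j
  induction j with
  | zero =>
    intro i b u r q hi hn hs hd hm hb
    have hi : i = K := by omega
    subst hi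
    have hb' : (!b) = e := by
      rw [bot] at hb
      rw [hb, Bool.not_not]
    have h1 := Ver_iff i e A u hn hs
    rw [hd] at h1
    rw [hb']
    cases b <;> exact h1
  | succ j ih =>
    intro i b u r q hi hn hs hd hm hb
    have hl := LangSig.length_unpair r
    have key : ∀ (w : List Bool), (Quant m (Ver K e A) j (!b) (pairBits w u) ↔
        ((parse j (unpair r).2).1.foldr up
          (bitv A (unpair (parse j (unpair r).2).2).1.length))
            (q ++ LangSig.fit (unpair r).1 w) = b) := by
      intro w
      have h1 := ih (i + 1) (!b) (pairBits w u) (unpair r).2 (q ++ LangSig.fit (unpair r).1 w)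
        (by omega) (by rw [base_pair]; exact hn) (by rw [base_pair]; exact hs)
        (by simp only [dec, unpair_pairBits, hd]) (by omega) hb
      rw [Bool.not_not] at h1
      exact h1
    have hfold : ((parse (j + 1) r).1.foldr up
        (bitv A (unpair (parse (j + 1) r).2).1.length)) q =
        decide (∀ i < 2 ^ (unpair r).1.length, ((parse j (unpair r).2).1.foldr up
          (bitv A (unpair (parse j (unpair r).2).2).1.length))
            (q ++ bitsOf (unpair r).1.length i) = false) := rfl
    rw [hfold]
    cases b with
    | true =>
      have key' : ∀ w : List Bool, (Quant m (Ver K e A) j false (pairBits w u) ↔ _) := key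
      rw [Quant]
      simp only [key']
      rw [LangSig.exists_fit (fun w => ((parse j (unpair r).2).1.foldr up
          (bitv A (unpair (parse j (unpair r).2).2).1.length)) (q ++ w) = true) (unpair r).1 rfl
          (by omega)]
      simp
    | false =>
      have key' : ∀ w : List Bool, (Quant m (Ver K e A) j true (pairBits w u) ↔ _) := key
      rw [Quant]
      simp only [key']
      rw [LangSig.forall_fit (fun w => ((parse j (unpair r).2).1.foldr up
          (bitv A (unpair (parse j (unpair r).2).2).1.length)) (q ++ w) = false) (unpair r).1 rfl
          (by omega)]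
      simp

theorem length_ustep2 (s : List Bool × List Bool × Bool) :
    2 * (ustep s).1.length + (ustep s).2.1.length ≤ 2 * s.1.length + s.2.1.length := by
  obtain ⟨a, l, b⟩ := s
  unfold ustep
  cases b with
  | true => simp
  | false =>
    match l with
    | [] => simp
    | true :: [] => simp
    | true :: c :: l' => simp; omega
    | false :: l' => simp

theorem length_unpair2 (y : List Bool) : 2 * (unpair y).1.length ≤ y.length := by
  have h1 : ∀ k (s : List Bool × List Bool × Bool),
      2 * (ustep^[k] s).1.length + (ustep^[k] s).2.1.length ≤ 2 * s.1.length + s.2.1.length := by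
    intro k
    induction k with
    | zero => intro s; simp
    | succ k ih =>
      intro s
      rw [Function.iterate_succ_apply]
      exact (ih _).trans (length_ustep2 s)
  have h2 := h1 y.length ([], y, false)
  unfold unpair
  simp only [List.length_nil, Nat.mul_zero, Nat.zero_add, List.length_reverse] at h2 ⊢
  omega

theorem str_zero : str 0 = [] := by
  unfold str
  simp

theorem mem_iff (A : Oracle) (i : ℕ) (z : List Bool) :
    (∃ x y, z = pairBits (str x) (str y) ∧ ¬ CA A i x y) ↔
      Nec z = true ∧ (Suf z = true ∨
        nodeVal A i (unpair (unpair z).1).2 ((unpair z).1 ++ (unpair z).2) = false) := by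
  unfold CA Nec Suf
  constructor
  · rintro ⟨x, y, rfl, h⟩
    rw [not_or, not_and_or] at h
    obtain ⟨h1, h2⟩ := h
    simp only [unpair_pairBits]
    have h3 : str y ≠ [] := by
      intro h
      exact h1 (str_injective (h.trans str_zero.symm))
    refine ⟨by simp [h3], ?_⟩
    rcases h2 with h2 | h2
    · left
      simp [h2]
    · right
      simpa using h2
  · rintro ⟨h1, h2⟩
    simp only [Bool.and_eq_true, decide_eq_true_eq, Bool.not_eq_true',
      decide_eq_false_iff_not] at h1 h2
    refine ⟨idx (unpair z).1, idx (unpair z).2, ?_, ?_⟩
    · rw [str_idx, str_idx]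
      exact h1.1.symm
    · rw [not_or, not_and_or]
      refine ⟨?_, ?_⟩
      · intro h
        refine h1.2 ?_
        rw [← str_idx (unpair z).2, h, str_zero]
      · rw [str_idx, str_idx]
        rcases h2 with h2 | h2
        · exact Or.inl h2
        · right
          rw [h2]
          simp

theorem pi (A : Oracle) (i : ℕ) : IsPiRel A i (CA A i) := by
  refine ⟨Ver i (!(bot true i)) A, Polynomial.X, isFP_Ver _ _ _, fun z => ?_⟩
  show (∃ x y, z = pairBits (str x) (str y) ∧ ¬ CA A i x y) ↔ _
  rw [mem_iff]
  cases hn : Nec z with
  | false =>
    have h1 := quant_false A i (Polynomial.X.eval z.length) (!(bot true i)) i 0 true z (by omega) hn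
    simp only [Bool.false_eq_true, false_and, false_iff]
    exact h1
  | true =>
    cases hs : Suf z with
    | true =>
      have h1 := quant_true A i (Polynomial.X.eval z.length) (!(bot true i)) i 0 true z (by omega)
        hn hs
      simp only [true_or, and_self, true_iff]
      exact h1
    | false =>
      have hl1 := LangSig.length_unpair z
      have hl2 := LangSig.length_unpair (unpair z).1
      have h1 := quant_iff A i (Polynomial.X.eval z.length) (!(bot true i)) i 0 true z
        (unpair (unpair z).1).2 ((unpair z).1 ++ (unpair z).2) (by omega) hn hs rfl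
        (by simp only [Polynomial.eval_X]; omega) (by rw [Bool.not_not])
      simp only [Bool.false_eq_true, false_or, true_and]
      rw [h1]
      rfl

theorem le {A : Oracle} {i : ℕ} (x y : ℕ) (h : CA A i x y) : y ≤ x := by
  rcases h with h | ⟨h, -⟩
  · omega
  · have h1 := length_unpair2 (str x)
    have h2 := idx_lt (str y)
    have h3 := le_idx (str x)
    rw [idx_str] at h2 h3
    rcases Nat.eq_zero_or_pos (str x).length with h0 | h0
    · have h4 : (str y).length = 0 := by omega
      have h5 : str y = str 0 := by rw [str_zero]; exact List.length_eq_zero_iff.1 h4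
      have h6 := str_injective h5
      omega
    · have h4 : (str y).length + 1 ≤ (str x).length := by omega
      have h5 := Nat.pow_le_pow_right (show 0 < 2 by norm_num) h4
      omega

theorem fp (A : Oracle) : ∃ F, IsFP A F ∧ ∀ y, F (str y) = str (id y) := by
  refine ⟨fun x => x, ?_, fun y => rfl⟩
  exact IsFP.tt (A := A) (Q := fun _ => []) (H := fun p => p.1) (NPC.Poly.const []) (Poly.fst Poly.id)

end PiCA

theorem ca_opt (A : Oracle) (i : ℕ) : OptProblem A i (CA A i) id where
  zero := fun _ => Or.inl rfl
  le := PiCA.le
  pi := PiCA.pi A i
  fp := PiCA.fp A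

end Pool.Agent.H591R3.CEX
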