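import Pool.Agent.H591R3.CEX.Base
import Pool.Agent.H620R2.Gauge.A1

/-! Task T8: long questions do not matter. -/

set_option autoImplicit false

namespace Pool.Agent.H591R3.CEX

open Pool.Agent.H620R2.Gauge Pool.Agent.NPC

theorem run_trunc (M : CAlg) : ∃ qb : Polynomial ℕ, ∀ (B : Oracle) (adv : Adversary)
    (x : List Bool), (∀ a y z, adv a y = some z → (str z).length ≤ x.length) → ∀ ℓ : ℕ,
    qb.eval x.length ≤ ℓ →
    M.run B adv x (M.p.eval x.length) [] =
      M.run (fun q => decide (q.length ≤ ℓ) && B q) adv x (M.p.eval x.length) [] := by
  obtain ⟨b, hb⟩ := Alg.next_length
    ⟨M.D, M.poly, M.p * (Polynomial.C 2 * Polynomial.X + Polynomial.C 2)⟩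
  refine ⟨b, fun B adv x hadv ℓ hℓ => ?_⟩
  set B' : Oracle := fun q => decide (q.length ≤ ℓ) && B q with hB'
  have hP : (M.p * (Polynomial.C 2 * Polynomial.X + Polynomial.C 2)).eval x.length =
      M.p.eval x.length * (2 * x.length + 2) := by
    simp only [Polynomial.eval_add, Polynomial.eval_mul, Polynomial.eval_C, Polynomial.eval_X]
  have hb' : ∀ a : List Bool, a.length ≤ M.p.eval x.length * (2 * x.length + 2) →
      (M.D (pairBits x a)).length ≤ b.eval x.length := by
    intro a ha
    exact hb x a (by
      show a.length ≤ (M.p * (Polynomial.C 2 * Polynomial.X + Polynomial.C 2)).eval x.length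
      rw [hP]; exact ha)
  have key : ∀ (n : ℕ) (a : List Bool),
      a.length + n * (2 * x.length + 2) ≤ M.p.eval x.length * (2 * x.length + 2) →
      M.run B adv x n a = M.run B' adv x n a := by
    intro n
    induction n with
    | zero => intro a _; rfl
    | succ n ih =>
      intro a ha
      have hsplit : (n + 1) * (2 * x.length + 2) = n * (2 * x.length + 2) + (2 * x.length + 2) := by
        ring
      rw [hsplit] at ha
      have hD := hb' a (by omega)
      rcases hq : M.D (pairBits x a) with _ | ⟨c, q⟩
      · simp only [CAlg.run, hq]
      · cases c with
        | true => simp only [CAlg.run, hq]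
        | false =>
          rcases q with _ | ⟨d, q⟩
          · simp only [CAlg.run, hq]
          · cases d with
            | false =>
              simp only [CAlg.run, hq]
              have e : B' q = B q := by
                have hlen : q.length ≤ ℓ := by
                  rw [hq, List.length_cons, List.length_cons] at hD
                  omega
                simp [hB', hlen]
              rw [e]
              exact ih _ (by rw [List.length_append, List.length_singleton]; omega)
            | true =>
              simp only [CAlg.run, hq]
              rcases hz : adv a (num q) with _ | z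
              · exact ih _ (by rw [List.length_append, List.length_singleton]; omega)
              · have hzl := hadv a (num q) z hz
                refine ih _ ?_
                rw [List.length_append, List.length_cons, length_pairBits, List.length_nil]
                omega
  exact key _ [] (by simp)

end Pool.Agent.H591R3.CEX
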