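import Pool.Agent.H591R3.CEX.Base
import Pool.Agent.H591R3.PHG.Sig
import Pool.Agent.H620R2.GaugeS.Low
import Pool.Agent.H620R2.GaugeR.Seq
import Pool.Agent.H620R2.Gauge2.Trans
import Pool.Agent.H620R2.Gauge.S

/-! If the oracle solves polynomial space, every optimization problem is easy. -/

set_option autoImplicit false

namespace Pool.Agent.H591R3.CEX

open Finset H568R2 Pool.Agent.H676 Pool.Agent.H620R2.Gauge Pool.Agent.NPC Pool.Agent.H591R3.PHG
  Pool.Agent.H622R2

namespace Upper

theorem num_str (i : ℕ) : num (str i) = i := idx_str i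

theorem str_num (y : List Bool) : str (num y) = y := str_idx y

theorem num_eq (y : List Bool) : num y = valB (y.reverse ++ [true]) - 1 := by
  have h : valB (y.reverse ++ [true]) = sval y := by
    rw [← bits_sval, valB_bits]
  rw [h]
  rfl

theorem poly_num {α : Type} [TEnc α] {y : α → List Bool} (hy : Poly y) :
    Poly (fun a => num (y a)) := by
  refine Poly.congr (f := fun a => valB ((y a).reverse ++ [true]) - 1) ?_
    (fun a => (num_eq (y a)).symm)
  exact Poly.sub (Poly.valBits (Poly.append (Poly.reverse hy) (NPC.Poly.const _))) (NPC.Poly.const 1)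

theorem length_le {x y : ℕ} (h : y ≤ x) : (str y).length ≤ (str x).length := by
  rw [length_str, length_str]
  exact Nat.log_mono_right (by omega)

theorem length_le' {u v : List Bool} (h : num v ≤ num u) : v.length ≤ u.length := by
  have := length_le h
  rwa [str_num, str_num] at this

theorem length_pair (x w : List Bool) : (pairBits x w).length = 2 * x.length + 1 + w.length := by
  induction x with
  | nil => simp [pairBits]; omega
  | cons b x ih =>
    have : pairBits (b :: x) w = true :: b :: pairBits x w := by simp [pairBits]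
    rw [this]
    simp only [List.length_cons, ih]
    omega

/-- postprocessing -/
theorem post {A : Oracle} {G : List Bool → List Bool} (hG : IsFP A G)
    {H : List Bool × List Bool → List Bool} (hH : Poly H) : IsFP A (fun z => H (z, G z)) :=
  IsFP.seq (φ := fun p => p.1) (ψ := fun p => H (p.1, p.2.1)) hG
    (IsFP.of_poly (F := fun z => z) Poly.id) (Poly.fst Poly.id)
    (hH.comp (Poly.pair (Poly.fst Poly.id) (Poly.fst (Poly.snd Poly.id))))

theorem fst1 : Poly (fun z : List Bool => (unpair z).1) := Poly.fst poly_unpair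
theorem snd1 : Poly (fun z : List Bool => (unpair z).2) := Poly.snd poly_unpair

/-- `w` beats `v` -/
def Beats (C : ℕ → ℕ → Prop) (ρ : ℕ → ℕ) (x y z : ℕ) : Prop :=
  C x z ∧ (ρ y < ρ z ∨ (ρ z = ρ y ∧ z < y))

/-- the best solution -/
def Best (C : ℕ → ℕ → Prop) (ρ : ℕ → ℕ) (x y : ℕ) : Prop := C x y ∧ ∀ z, ¬ Beats C ρ x y z

theorem best_unique {C : ℕ → ℕ → Prop} {ρ : ℕ → ℕ} {x y y' : ℕ} (h : Best C ρ x y)
    (h' : Best C ρ x y') : y = y' := by
  have h1 := h.2 y'
  have h2 := h'.2 y
  unfold Beats at h1 h2
  have h3 : ¬ (ρ y < ρ y') := fun hc => h1 ⟨h'.1, Or.inl hc⟩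
  have h4 : ¬ (ρ y' < ρ y) := fun hc => h2 ⟨h.1, Or.inl hc⟩
  have h5 : ρ y = ρ y' := by omega
  have h6 : ¬ (y' < y) := fun hc => h1 ⟨h'.1, Or.inr ⟨h5.symm, hc⟩⟩
  have h7 : ¬ (y < y') := fun hc => h2 ⟨h.1, Or.inr ⟨h5, hc⟩⟩
  omega

theorem best_optimal {C : ℕ → ℕ → Prop} {ρ : ℕ → ℕ} {x y : ℕ} (h : Best C ρ x y) :
    Optimal C ρ x y := by
  refine ⟨h.1, fun z _ hz => ?_⟩
  by_contra hc
  exact h.2 z ⟨hz, Or.inl (not_le.1 hc)⟩

open Classical in
theorem best_exists {C : ℕ → ℕ → Prop} {ρ : ℕ → ℕ} {x : ℕ} (h0 : C x 0)
    (hle : ∀ y, C x y → y ≤ x) : ∃ y, Best C ρ x y := by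
  have hne : ((Finset.range (x + 1)).filter (fun y => C x y)).Nonempty :=
    ⟨0, by simp [h0]⟩
  obtain ⟨m, hm, hmax⟩ := Finset.exists_max_image _ ρ hne
  rw [Finset.mem_filter] at hm
  have hex : ∃ y, C x y ∧ ρ y = ρ m := ⟨m, hm.2, rfl⟩
  have hsp := Nat.find_spec hex
  refine ⟨Nat.find hex, hsp.1, ?_⟩
  rintro z ⟨hz, hz2⟩
  have hz3 : ρ z ≤ ρ m := hmax z (by
    rw [Finset.mem_filter, Finset.mem_range]
    exact ⟨by have := hle z hz; omega, hz⟩)
  rcases hz2 with h | ⟨h, h'⟩
  · rw [hsp.2] at h
    omega
  · rw [hsp.2] at h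
    exact Nat.find_min hex h' ⟨hz, h⟩

/-- comparison -/
theorem poly_cmp {α : Type} [TEnc α] {a b c d : α → List Bool} (ha : Poly a) (hb : Poly b)
    (hc : Poly c) (hd : Poly d) :
    Poly (fun z => decide (num (a z) < num (b z) ∨ (num (b z) = num (a z) ∧ num (c z) < num (d z)))) :=
  Poly.decide_or (Poly.decide_lt (poly_num ha) (poly_num hb))
    (Poly.decide_and (Poly.decide_eq (poly_num hb) (poly_num ha))
      (Poly.decide_lt (poly_num hc) (poly_num hd)))

/-- the verifier for: `w` beats `v` -/
theorem ver1 {A : Oracle} {VC F : List Bool → List Bool} (hVC : IsFP A VC) (hF : IsFP A F) :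
    ∃ V : List Bool → List Bool, IsFP A V ∧ ∀ w v u, V (pairBits w (pairBits v u)) = [true] ↔
      VC (pairBits u w) = [true] ∧
        (num (F v) < num (F w) ∨ (num (F w) = num (F v) ∧ num w < num v)) := by
  have pw : Poly (fun z : List Bool => (unpair z).1) := fst1
  have pv : Poly (fun z : List Bool => (unpair (unpair z).2).1) := fst1.comp snd1
  have pu : Poly (fun z : List Bool => (unpair (unpair z).2).2) := snd1.comp snd1
  have hG : IsFP A (fun z => pairBits (VC (pairBits (unpair (unpair z).2).2 (unpair z).1))
      (pairBits (F (unpair z).1) (F (unpair (unpair z).2).1))) :=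
    IsFP.pair (hVC.precomp (poly_pairBits pu pw)) (IsFP.pair (hF.precomp pw) (hF.precomp pv))
  have g1 : Poly (fun p : List Bool × List Bool => (unpair p.2).1) := fst1.comp (Poly.snd Poly.id)
  have g2 : Poly (fun p : List Bool × List Bool => (unpair (unpair p.2).2).1) :=
    fst1.comp (snd1.comp (Poly.snd Poly.id))
  have g3 : Poly (fun p : List Bool × List Bool => (unpair (unpair p.2).2).2) :=
    snd1.comp (snd1.comp (Poly.snd Poly.id))
  have z1 : Poly (fun p : List Bool × List Bool => (unpair p.1).1) := fst1.comp (Poly.fst Poly.id)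
  have z2 : Poly (fun p : List Bool × List Bool => (unpair (unpair p.1).2).1) :=
    fst1.comp (snd1.comp (Poly.fst Poly.id))
  have hH : Poly (fun p : List Bool × List Bool =>
      if (unpair p.2).1 = [true] ∧ (num (unpair (unpair p.2).2).2 < num (unpair (unpair p.2).2).1 ∨
        (num (unpair (unpair p.2).2).1 = num (unpair (unpair p.2).2).2 ∧
          num (unpair p.1).1 < num (unpair (unpair p.1).2).1)) then [true] else []) :=
    Poly.ite (Poly.decide_and (Poly.decide_eq g1 (NPC.Poly.const _)) (poly_cmp g3 g2 z1 z2))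
      (NPC.Poly.const _) (NPC.Poly.const _)
  refine ⟨_, post hG hH, fun w v u => ?_⟩
  simp only [unpair_pairBits]
  split_ifs with hc
  · simp [hc]
  · simp [hc]

/-- the verifier for: `v` is the best solution -/
theorem ver2 {A : Oracle} {VC VN : List Bool → List Bool} (hVC : IsFP A VC) (hVN : IsFP A VN) :
    ∃ V : List Bool → List Bool, IsFP A V ∧ ∀ v u, V (pairBits v u) = [true] ↔
      VC (pairBits u v) = [true] ∧ ¬ VN (pairBits v u) = [true] := by
  have hG : IsFP A (fun z => pairBits (VC (pairBits (unpair z).2 (unpair z).1)) (VN z)) :=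
    IsFP.pair (hVC.precomp (poly_pairBits snd1 fst1)) hVN
  have hH : Poly (fun p : List Bool × List Bool =>
      if (unpair p.2).1 = [true] ∧ ¬ (unpair p.2).2 = [true] then [true] else []) :=
    Poly.ite (Poly.decide_and (Poly.decide_eq (fst1.comp (Poly.snd Poly.id)) (NPC.Poly.const _))
      (Poly.decide_not (Poly.decide_eq (snd1.comp (Poly.snd Poly.id)) (NPC.Poly.const _))))
      (NPC.Poly.const _) (NPC.Poly.const _)
  refine ⟨_, post hG hH, fun v u => ?_⟩
  simp only [unpair_pairBits]
  split_ifs with hc
  · simp [hc]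
  · simp [hc]

/-- the verifier for the bits of the best solution -/
theorem ver3 {A : Oracle} {VB : List Bool → List Bool} (hVB : IsFP A VB) :
    ∃ V : List Bool → List Bool, IsFP A V ∧ ∀ v u a, V (pairBits v (pairBits u a)) = [true] ↔
      VB (pairBits v u) = [true] ∧ (pairBits v []).getD a.length false = true := by
  have hG : IsFP A (fun z => VB (pairBits (unpair z).1 (unpair (unpair z).2).1)) :=
    hVB.precomp (poly_pairBits fst1 (fst1.comp snd1))
  have hH : Poly (fun p : List Bool × List Bool =>
      if p.2 = [true] ∧ (pairBits (unpair p.1).1 []).getD (unpair (unpair p.1).2).2.length false = true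
        then [true] else []) := by
    refine Poly.ite (Poly.decide_and (Poly.decide_eq (Poly.snd Poly.id) (NPC.Poly.const _))
      (Poly.decide_bool ?_)) (NPC.Poly.const _) (NPC.Poly.const _)
    exact Poly.getD (poly_pairBits (fst1.comp (Poly.fst Poly.id)) (NPC.Poly.const _))
      (Poly.length (snd1.comp (snd1.comp (Poly.fst Poly.id)))) (NPC.Poly.const _)
  refine ⟨_, post hG hH, fun v u a => ?_⟩
  simp only [unpair_pairBits]
  split_ifs with hc
  · simp only [true_iff]
    exact hc
  · constructor
    · intro h
      exact absurd h (by simp)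
    · intro h
      exact absurd h hc

/-- the algorithm reads a string bit by bit -/
def DD (z : List Bool) : List Bool :=
  if (unpair z).2.length < 2 * (unpair z).1.length + 1 then
    false :: false :: pairBits (unpair z).1 (unpair z).2 else true :: (unpair (unpair z).2).1

theorem poly_DD : Poly DD := by
  unfold DD
  refine Poly.ite (Poly.decide_lt (Poly.length snd1)
    (Poly.add (Poly.mul (NPC.Poly.const 2) (Poly.length fst1)) (NPC.Poly.const 1))) ?_ ?_
  · exact Poly.cons (NPC.Poly.const _) (Poly.cons (NPC.Poly.const _) (poly_pairBits fst1 snd1))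
  · exact Poly.cons (NPC.Poly.const _) (fst1.comp snd1)

/-- the algorithm -/
noncomputable def MM : CAlg := ⟨DD, polyTime_of_poly_list poly_DD,
  Polynomial.C 2 * Polynomial.X + Polynomial.C 2⟩

/-- the first `k` bits -/
def pre (c : List Bool) (k : ℕ) : List Bool := (List.range k).map (fun j => c.getD j false)

theorem pre_succ (c : List Bool) (k : ℕ) : pre c (k + 1) = pre c k ++ [c.getD k false] := by
  simp [pre, List.range_succ]

theorem length_pre (c : List Bool) (k : ℕ) : (pre c k).length = k := by simp [pre]

theorem pre_all (c : List Bool) (k : ℕ) (h : c.length ≤ k) :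
    pre c k = c ++ List.replicate (k - c.length) false := by
  apply List.ext_getElem?
  intro i
  unfold pre
  rw [List.getElem?_map]
  rcases lt_or_ge i k with hi | hi
  · rw [List.getElem?_range hi]
    rcases lt_or_ge i c.length with hc | hc
    · rw [List.getElem?_append_left hc]
      simp [List.getD_eq_getElem?_getD, List.getElem?_eq_getElem hc]
    · rw [List.getElem?_append_right hc]
      simp only [Option.map_some, List.getD_eq_getElem?_getD, List.getElem?_eq_none hc,
        Option.getD_none]
      rw [List.getElem?_replicate, if_pos (by omega)]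
  · rw [List.getElem?_eq_none (by simpa using hi), List.getElem?_eq_none]
    · rfl
    · simp only [List.length_append, List.length_replicate]
      omega

theorem unpair_pre (v : List Bool) (k : ℕ) (h : 2 * v.length + 1 ≤ k) :
    (unpair (pre (pairBits v []) k)).1 = v := by
  have hl : (pairBits v []).length = 2 * v.length + 1 := by
    rw [length_pair]
    simp
  rw [pre_all _ _ (by omega)]
  have h1 : ∀ r : List Bool, pairBits v [] ++ r = pairBits v r := by
    intro r
    simp [pairBits]
  rw [h1, unpair_pairBits]

theorem run_MM {B : Oracle} {adv : Adversary} {u v : List Bool} (hv : v.length ≤ u.length)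
    (hB : ∀ a : List Bool, B (pairBits u a) = (pairBits v []).getD a.length false) :
    ∀ n k, k + n = 2 * u.length + 2 → k ≤ 2 * u.length + 1 →
      MM.run B adv u n (pre (pairBits v []) k) = some v := by
  intro n
  induction n with
  | zero => intro k h1 h2; omega
  | succ n ih =>
    intro k h1 h2
    rcases lt_or_eq_of_le h2 with h3 | h3
    · have hD : MM.D (pairBits u (pre (pairBits v []) k)) =
          false :: false :: pairBits u (pre (pairBits v []) k) := by
        show DD _ = _
        unfold DD
        rw [unpair_pairBits]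
        simp only [length_pre]
        rw [if_pos h3]
      simp only [CAlg.run, hD]
      rw [hB, length_pre, ← pre_succ]
      exact ih (k + 1) (by omega) (by omega)
    · have hD : MM.D (pairBits u (pre (pairBits v []) k)) = true :: v := by
        show DD _ = _
        unfold DD
        rw [unpair_pairBits]
        simp only [length_pre]
        rw [if_neg (by omega), unpair_pre _ _ (by omega)]
      simp only [CAlg.run, hD]

end Upper

open Upper in
open Classical in
theorem type1_of_reduces {A : Oracle} (h : ∀ L, IsPSPACE A L → Reduces L {x | A x = true})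
    (i : ℕ) : Type1 A i := by
  intro C ρ hO
  obtain ⟨F, hF, hFρ⟩ := hO.fp
  have hP := isP_of_reduces (h _ (IsSigma.isPSPACE hO.pi))
  obtain ⟨VC, hVC, hVCL⟩ := hP.compl
  have hC : ∀ u v, VC (pairBits u v) = [true] ↔ C (num u) (num v) := by
    intro u v
    rw [← hVCL]
    constructor
    · intro h1
      by_contra hc
      exact h1 ⟨num u, num v, by rw [str_num, str_num], hc⟩
    · rintro h1 ⟨x, y, hxy, hc⟩
      have h2 : (u, v) = (str x, str y) := by
        rw [← unpair_pairBits u v, hxy, unpair_pairBits]
      rw [Prod.mk.injEq] at h2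
      rw [h2.1, h2.2, num_str, num_str] at h1
      exact hc h1
  have hr : ∀ v, num (F v) = ρ (num v) := by
    intro v
    conv_lhs => rw [← str_num v]
    rw [hFρ, num_str]
  obtain ⟨V1, hV1, hV1L⟩ := ver1 hVC hF
  -- the set of the pairs that are not the best
  have hN : IsNP A {y | ∃ w : List Bool, w.length ≤ (Polynomial.X : Polynomial ℕ).eval y.length ∧
      V1 (pairBits w y) = [true]} := ⟨V1, Polynomial.X, hV1, fun x => Iff.rfl⟩
  obtain ⟨VN, hVN, hVNL⟩ := isP_of_reduces (h _ hN.isPSPACE)
  have hN2 : ∀ v u, VN (pairBits v u) = [true] ↔ ∃ z, Beats C ρ (num u) (num v) z := by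
    intro v u
    rw [← hVNL]
    constructor
    · rintro ⟨w, _, hw⟩
      rw [hV1L, hC, hr, hr] at hw
      exact ⟨num w, hw⟩
    · rintro ⟨z, hz⟩
      refine ⟨str z, ?_, ?_⟩
      · have h1 := length_le (hO.le _ _ hz.1)
        rw [str_num] at h1
        rw [Polynomial.eval_X, length_pair]
        omega
      · rw [hV1L, hC, hr, hr, num_str]
        exact hz
  obtain ⟨VB, hVB, hVBL⟩ := ver2 hVC hVN
  have hB2 : ∀ v u, VB (pairBits v u) = [true] ↔ Best C ρ (num u) (num v) := by
    intro v u
    rw [hVBL, hC, hN2, not_exists]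
    rfl
  obtain ⟨VL, hVL, hVLL⟩ := ver3 hVB
  have hL : IsNP A {y | ∃ w : List Bool, w.length ≤ (Polynomial.X : Polynomial ℕ).eval y.length ∧
      VL (pairBits w y) = [true]} := ⟨VL, Polynomial.X, hVL, fun x => Iff.rfl⟩
  have hLP := isP_of_reduces (h _ hL.isPSPACE)
  set L := {y | ∃ w : List Bool, w.length ≤ (Polynomial.X : Polynomial ℕ).eval y.length ∧
      VL (pairBits w y) = [true]} with hLdef
  have hLS : IsSigma A i L := IsSig.of_isP hLP i
  refine ⟨MM, fun q => decide (q ∈ L), ?_, fun x adv _ => ?_⟩
  · have : {q | decide (q ∈ L) = true} = L := by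
      ext q
      simp
    rw [this]
    exact hLS
  · obtain ⟨y, hy⟩ := best_exists (hO.zero x) (hO.le x)
    refine ⟨y, ?_, best_optimal hy⟩
    have hlen := length_le (hO.le _ _ hy.1)
    have hBq : ∀ a : List Bool, (fun q => decide (q ∈ L)) (pairBits (str x) a) =
        (pairBits (str y) []).getD a.length false := by
      intro a
      have h1 : pairBits (str x) a ∈ L ↔ (pairBits (str y) []).getD a.length false = true := by
        constructor
        · rintro ⟨w, _, hw⟩
          rw [hVLL, hB2, num_str] at hw
          have h2 := best_unique hw.1 hy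
          have h3 : w = str y := by rw [← h2, str_num]
          rw [← h3]
          exact hw.2
        · intro h2
          refine ⟨str y, ?_, ?_⟩
          · rw [Polynomial.eval_X, length_pair]
            omega
          · rw [hVLL, hB2, num_str, num_str]
            exact ⟨hy, h2⟩
      show decide (pairBits (str x) a ∈ L) = _
      rcases hb : (pairBits (str y) []).getD a.length false with _ | _
      · rw [hb] at h1
        simp [h1]
      · rw [hb] at h1
        simp [h1]
    have hp : MM.p.eval (str x).length = 2 * (str x).length + 2 := by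
      show (Polynomial.C 2 * Polynomial.X + Polynomial.C 2 : Polynomial ℕ).eval _ = _
      simp
    rw [hp]
    exact run_MM hlen hBq (2 * (str x).length + 2) 0 (by omega) (by omega)

end Pool.Agent.H591R3.CEX
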