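import Pool.Agent.H591R3.CEX.Main2
import Pool.Agent.H591R3.CEX.Moment
import Pool.Agent.H591R3.CEX.Game
import Pool.Agent.H591R3.CEX.Few
import Pool.Agent.H591R3.CEX.Good2
import Pool.Agent.H591R3.CEX.Nums2
import Pool.Agent.H591R3.CEX.PiCA
import Pool.Agent.H591R3.CEX.Upper
import Pool.Agent.H591R3.CEX.RunLen

/-! The event that all runs are successful. -/

set_option autoImplicit false

namespace Pool.Agent.H591R3.CEX

open Finset H568R2 Pool.Agent.H676 Pool.Agent.H620R2.Gauge Pool.Agent.NPC Pool.Agent.H591R3.PHG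

/-- all runs are successful -/
def EvS {K c : ℕ} (M : CAlg) (X : Fin K → List Bool) (Rn : ℕ) (nm : Fin c → ℕ)
    (B : List Bool → Bool) (v : Fin K × Fin c → Bool) : Prop :=
  ∀ j, Suc1 M (X j) Rn B (feas nm (fun g => v (j, g)))

open Classical in
theorem game_bound {K c r Rn D g : ℕ} {t lam : ℝ} (ht : 0 ≤ t) (ht1 : t ≤ 1) (hl : 1 ≤ lam)
    (M : CAlg) (X : Fin K → List Bool) (nm : Fin c → ℕ)
    (hnm : Function.Injective nm) (hpos : ∀ g, 0 < nm g) (s : Fin K × Fin c → Option Bool)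
    (O : List Bool → (Fin K × Fin c → Bool) → Bool) (hO : ∀ q, DTr r (O q))
    (hg : g ≤ ngood2 D s) :
    Ex (ber t) (fun z : Fin K × Fin c → Bool => if EvS M X Rn nm (fun q => O q z) (val s z)
      then (1 : ℝ) else 0) ≤
      K * (2 ^ Rn * (1 - t / 2) ^ D) + (1 / lam) ^ g * (1 + lam * t) ^ (K * (Rn * (r + 1))) := by
  set J : Finset (Fin K) := univ.filter (fun j => Good2 D (fun i => s (j, i))) with hJ
  have hJg : g ≤ J.card := hg
  have hJK : J.card ≤ K := (Finset.card_le_univ J).trans (by rw [Fintype.card_fin])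
  have hJgood : ∀ j ∈ J, Good2 D (fun i => s (j, i)) := fun j hj => (Finset.mem_filter.1 hj).2
  obtain ⟨H, hP, hH⟩ := game (Rn := Rn) M X nm hnm hpos s O hO J fun j hj => (hJgood j hj).1
  have hl0 : 0 < lam := by linarith
  have hpt : ∀ z : Fin K × Fin c → Bool, (if EvS M X Rn nm (fun q => O q z) (val s z)
      then (1 : ℝ) else 0) ≤ (∑ j ∈ J,
        if (univ.filter (fun g => val s z (j, g) = true)).card ≤ Rn then (1 : ℝ) else 0) +
        (1 / lam) ^ g * lam ^ H z := by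
    intro z
    have h0 : 0 ≤ ∑ j ∈ J,
        if (univ.filter (fun g => val s z (j, g) = true)).card ≤ Rn then (1 : ℝ) else 0 :=
      Finset.sum_nonneg fun j _ => by split_ifs <;> norm_num
    have h1 : 0 ≤ (1 / lam) ^ g * lam ^ H z := by positivity
    by_cases hE : EvS M X Rn nm (fun q => O q z) (val s z)
    · rw [if_pos hE]
      by_cases hf : ∃ j ∈ J, (univ.filter (fun g => val s z (j, g) = true)).card ≤ Rn
      · obtain ⟨j, hj, hjf⟩ := hf
        have h2 := Finset.single_le_sum (f := fun j =>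
          if (univ.filter (fun g => val s z (j, g) = true)).card ≤ Rn then (1 : ℝ) else 0)
          (fun j _ => by beta_reduce; split_ifs <;> norm_num) hj
        beta_reduce at h2
        rw [if_pos hjf] at h2
        linarith
      · push Not at hf
        have h3 : J.card ≤ H z := hH z fun j hj => ⟨hE j, hf j hj⟩
        have h4 : lam ^ g ≤ lam ^ H z := pow_le_pow_right₀ hl (hJg.trans h3)
        have h5 : 1 ≤ (1 / lam) ^ g * lam ^ H z := by
          rw [one_div, inv_pow, inv_mul_eq_div, le_div_iff₀ (by positivity), one_mul]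
          exact h4
        linarith
    · rw [if_neg hE]
      linarith
  refine (Ex_mono (ber_nonneg_m ht ht1) hpt).trans ?_
  rw [Ex_add, Ex_sum, Ex_smul]
  apply add_le_add
  · refine (Finset.sum_le_sum fun j hj => few_true ht ht1 s j (hJgood j hj).2).trans ?_
    rw [Finset.sum_const, nsmul_eq_mul]
    have h6 : (0 : ℝ) ≤ 2 ^ Rn * (1 - t / 2) ^ D := by
      have : 0 ≤ 1 - t / 2 := by linarith
      positivity
    apply mul_le_mul_of_nonneg_right _ h6
    exact_mod_cast hJK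
  · apply mul_le_mul_of_nonneg_left _ (by positivity)
    have h7 := prc_moment hP ht ht1 hl (fun _ => false)
    have h8 : (fun z : Fin K × Fin c → Bool => lam ^ (H (fun i => if i ∈ (∅ : Finset
        (Fin K × Fin c)) then false else z i))) = fun z => lam ^ H z := by
      funext z
      simp
    rw [h8] at h7
    refine h7.trans (pow_le_pow_right₀ ?_ (Nat.mul_le_mul_right _ hJK))
    have : 0 ≤ lam * t := by positivity
    linarith

theorem WT_add {X : Type} [Fintype X] [DecidableEq X] {t ξ : ℝ} {smin : ℕ} (ht : 0 < t)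
    (ht1 : t < 1) (hs : 1 ≤ smin) (W : (X → Option Bool) → ℝ) (C : ℝ) :
    ∀ (cs : List ℕ) (s : Idx X cs → Option Bool),
      WT t ξ smin (fun s => W s + C) cs s = WT t ξ smin W cs s + C := by
  intro cs
  induction cs with
  | nil => intro s; rfl
  | cons c cs ih =>
    intro s
    show ∑ ρ : Idx X cs → St c, wt (G := Idx X cs) t t ξ smin s ρ *
      WT t ξ smin (fun s => W s + C) cs (fun h => (ρ h).1) =
      (∑ ρ : Idx X cs → St c, wt (G := Idx X cs) t t ξ smin s ρ *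
      WT t ξ smin W cs (fun h => (ρ h).1)) + C
    simp only [ih, mul_add]
    rw [Finset.sum_add_distrib, ← Finset.sum_mul, wt_sum ht ht1 ht hs s, one_mul]

/-- all levels, and the level of the random bits -/
theorem main_leaf2 {X : Type} [Fintype X] [DecidableEq X] {n u : ℕ} (hn : 5 ≤ n)
    (hu : 8 * u ≤ n) (E : (List Bool → Bool) → (X → Bool) → Prop) (W0 : (X → Option Bool) → ℝ)
    (hW : ∀ s, 0 ≤ W0 s)
    (hbase : ∀ (O : List Bool → (X → Bool) → Bool), (∀ q, DTr (2 ^ (2 * u)) (O q)) →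
      ∀ s : X → Option Bool,
        Pe (1 / 2 ^ (4 * n)) [] s E (fun z q => O q z) ≤ W0 s)
    (μ : List Bool → ℕ) (mx ℓ : ℕ) (hμ : ∀ q : List Bool, q.length ≤ ℓ → μ q ≤ mx)
    (k : ℕ) (cs : List ℕ) (hcs : cs.length = k)
    (F : ℕ → List Bool → (Idx X (8 * n :: cs) → Bool) → Bool)
    (hF : ∀ m ≤ mx, ∀ y : List Bool, y.length ≤ ℓ + k * (2 * mx + 1) →
      DTr (2 ^ (2 * u)) (F m y)) (b : Bool) :
    Pe (1 / 2) (8 * n :: cs) (fun _ => none) E (orcF μ ℓ F k b) ≤
      k * ((mx + 1) * (2 ^ (ℓ + k * (2 * mx + 1) + 2) * (1 / 2) ^ (2 ^ (2 * u) + 1))) +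
      Ex (nxt (1 / 2) (1 / 2 ^ (4 * n)) 0 (8 * n) (8 * n) law0)
        (WT (X := X) (1 / 2 ^ (4 * n)) (1 / 2 ^ (2 * n)) (8 * n * 2 ^ (4 * n)) W0 cs) := by
  classical
  set t : ℝ := 1 / 2 ^ (4 * n) with ht
  have ht0 : 0 < t := by positivity
  have hpow : (1 - 1 / 2 : ℝ) ^ (8 * n) / t ≤ 1 := by
    rw [ht, div_le_one (by positivity)]
    rw [show (1 - 1 / 2 : ℝ) = 1 / 2 by norm_num, one_div_pow]
    apply one_div_le_one_div_of_le (by positivity)
    exact pow_le_pow_right₀ (by norm_num) (by omega)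
  have hs1 : 1 ≤ 8 * n := by omega
  have hcond : (1 - 0) * (1 - 1 / 2 : ℝ) ^ (8 * n) / t + 0 * (1 - 1 / 2 : ℝ) ^ (8 * n) ≤ 1 := by
    rw [zero_mul, add_zero, sub_zero, one_mul]
    exact hpow
  set s0 : Idx X (8 * n :: cs) → Option Bool := fun _ => none with hs0
  rw [Pe_stage (t := 1 / 2) (t' := t) (ξ := 0) (smin := 8 * n) (by norm_num) (by norm_num) ht0 hs1
    cs s0]
  set C : ℝ := k * ((mx + 1) * (2 ^ (ℓ + k * (2 * mx + 1) + 2) * (1 / 2) ^ (2 ^ (2 * u) + 1)))
    with hC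
  set W := WT (X := X) t (1 / 2 ^ (2 * n)) (8 * n * 2 ^ (4 * n)) W0 cs with hWdef
  have hterm : ∀ ρ : Idx X cs → St (8 * n),
      wt (G := Idx X cs) (1 / 2) t 0 (8 * n) s0 ρ *
        Pe t cs (fun h => (ρ h).1) E
          (fun z => orcF μ ℓ F k b (XX (G := Idx X cs) s0 ρ z)) ≤
      wt (G := Idx X cs) (1 / 2) t 0 (8 * n) s0 ρ * C +
        wt (G := Idx X cs) (1 / 2) t 0 (8 * n) s0 ρ * W (fun h => (ρ h).1) := by
    intro ρ
    rw [← mul_add]
    apply mul_le_mul_of_nonneg_left _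
      (wt_nonneg (by norm_num) (by norm_num) ht0 le_rfl zero_le_one hs1 hcond s0 ρ)
    have h5 := main_ind2 hn hu E W0 hW hbase μ mx ℓ hμ k cs hcs (fun h => (ρ h).1)
      (fun m y' z => F m y' (XX (G := Idx X cs) s0 ρ z))
      (fun m hm y' hy' => DTr_XX (G := Idx X cs) s0 ρ (hF m hm y' hy')) b
    refine le_trans (le_of_eq ?_) h5
    congr 1
    funext z q
    unfold orcF
    rw [QF_comp (μ q) (F (μ q)) (XX (G := Idx X cs) s0 ρ)]
  refine (Finset.sum_le_sum fun ρ _ => hterm ρ).trans ?_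
  rw [Finset.sum_add_distrib, ← Finset.sum_mul,
    wt_sum (by norm_num) (by norm_num) ht0 hs1 s0, one_mul]
  have h8 := law_stage (G := Idx X cs) (c := 8 * n) (smin := 8 * n) (t := 1 / 2) (t' := t) (ξ := 0)
    law0 W
  rw [Ex_law0] at h8
  rw [← h8]
  exact le_of_eq rfl

/-- the sizes of the levels -/
theorem exists_sizes2 {n : ℕ} (hn : 40 ≤ n) : ∀ (k : ℕ) (law : Option Bool → ℝ), Inv n law →
    ∃ as : List ℕ, as.length = k ∧ (∀ a ∈ as, a ≤ 64 * n) ∧ ∃ a : ℕ, a ≤ 64 * n ∧ 1 ≤ a ∧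
      ∀ (K g : ℕ), 4 * g ≤ K →
        Ex law (WT (X := Fin K × Fin (2 ^ a)) (1 / 2 ^ (4 * n)) (1 / 2 ^ (2 * n))
          (8 * n * 2 ^ (4 * n))
          (fun s => if ngood2 (2 ^ (5 * n - 3)) s < g then (1 : ℝ) else 0)
          (pw as)) ≤ (9 / 10) ^ K := by
  classical
  have hn5 : 5 ≤ n := by omega
  intro k
  induction k with
  | zero =>
    intro law hinv
    obtain ⟨a, ha, h1, h2⟩ := exists_pow2 hn hinv.lo hinv.hi
    have ha1 : 1 ≤ a := by
      by_contra hcon
      have ha0 : a = 0 := by omega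
      rw [ha0, pow_zero, one_mul] at h1
      have h3 : (1 : ℝ) / 2 ^ (8 * n) ≤ 1 := by
        rw [div_le_one (by positivity)]
        exact one_le_pow₀ (by norm_num)
      have h4 : (2 : ℝ) ≤ 2 ^ n := by
        calc (2 : ℝ) = 2 ^ 1 := by norm_num
          _ ≤ 2 ^ n := pow_le_pow_right₀ (by norm_num) (by omega)
      have h5 := hinv.hi
      linarith
    refine ⟨[], rfl, by simp, a, ha, ha1, ?_⟩
    intro K g hg
    have hc2 : (((2 ^ a : ℕ)) : ℝ) = 2 ^ a := by push_cast; rfl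
    have hgp := good2_prob (c := 2 ^ a) hn hinv (by rw [hc2]; exact h1) (by rw [hc2]; exact h2)
    have h3 := few_good2 (X := Fin K) (c := 2 ^ a) hinv.nonneg hinv.sum hgp (by
      rw [Fintype.card_fin]; exact hg)
    rw [Fintype.card_fin] at h3
    exact h3
  | succ k ih =>
    intro law hinv
    have hn5' : (5 : ℝ) ≤ n := by exact_mod_cast hn5
    obtain ⟨a, ha, h1, h2⟩ := exists_pow hn5 (B := 16 * n) hinv.lo hinv.hi (by linarith) le_rfl
    have hc2 : (((2 ^ a : ℕ)) : ℝ) = 2 ^ a := by push_cast; rfl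
    have hinv' := inv_step (c := 2 ^ a) hn5 hinv (by rw [hc2]; exact h1)
      (by rw [hc2]; linarith)
    obtain ⟨as, hlen, has, a', ha', ha1', hX⟩ := ih _ hinv'
    refine ⟨a :: as, by simp [hlen], ?_, a', ha', ha1', ?_⟩
    · intro a'' ha''
      rcases List.mem_cons.1 ha'' with rfl | h
      · exact ha
      · exact has a'' h
    · intro K g hg
      refine le_trans (le_of_eq ?_) (hX K g hg)
      rw [← law_stage (G := Idx (Fin K × Fin (2 ^ a')) (pw as)) (c := 2 ^ a)
        (smin := 8 * n * 2 ^ (4 * n))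
        (t := 1 / 2 ^ (4 * n)) (t' := 1 / 2 ^ (4 * n)) (ξ := 1 / 2 ^ (2 * n)) law]
      rfl

end Pool.Agent.H591R3.CEX
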