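import Pool.Agent.H591R3.CEX.Event2
import Pool.Agent.H591R3.PHG.Cover

/-! Covers of the sets of oracles for which the hard optimization problems are easy. -/

set_option autoImplicit false

namespace Pool.Agent.H591R3.CEX

open Finset H568R2 Pool.Agent.H676 Pool.Agent.H620R2.Gauge Pool.Agent.NPC Pool.Agent.H591R3.PHG

instance : Countable CAlg := by
  have h1 : Countable {D : List Bool → List Bool | PolyTime D} :=
    Pool.Agent.NPC.PIso.countable_polyTime.to_subtype
  have h2 : Countable (Polynomial ℕ) := by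
    have : Function.Injective (fun p : Polynomial ℕ => (p.toFinsupp.coeff : ℕ →₀ ℕ)) := by
      intro p q h
      ext n
      exact DFunLike.congr_fun h n
    exact this.countable
  let F : CAlg → {D : List Bool → List Bool | PolyTime D} × Polynomial ℕ :=
    fun M => (⟨M.D, M.poly⟩, M.p)
  have hF : Function.Injective F := by
    intro M N h
    obtain ⟨D, hD, p⟩ := M
    obtain ⟨D', hD', p'⟩ := N
    simp only [F, Prod.mk.injEq, Subtype.mk.injEq] at h
    obtain ⟨rfl, rfl⟩ := h
    rfl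
  exact hF.countable

instance : Countable Par2 := by
  have h2 : Countable (Polynomial ℕ) := by
    have : Function.Injective (fun p : Polynomial ℕ => (p.toFinsupp.coeff : ℕ →₀ ℕ)) := by
      intro p q h
      ext n
      exact DFunLike.congr_fun h n
    exact this.countable
  let F : Par2 → CAlg × Alg × Polynomial ℕ × ℕ := fun θ => (θ.M, θ.N, θ.p, θ.i)
  have hF : Function.Injective F := by
    rintro ⟨M, N, p, i⟩ ⟨M', N', p', i'⟩ h
    simp only [F, Prod.mk.injEq] at h
    obtain ⟨rfl, rfl, rfl, rfl⟩ := h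
    rfl
  exact hF.countable

/-- the oracles for which the parameters are good -/
def Easy3 (θ : Par2) : Set Oracle :=
  {A | ∃ V : List Bool → List Bool, (∀ x, θ.N.out A x = some (V x)) ∧
    ∃ B : Oracle, (∀ q, B q = true ↔ Quant (θ.p.eval q.length) V θ.i true q) ∧
      Computes θ.M B (CA A θ.i) id}

theorem mem_easy3 {A : Oracle} {i : ℕ} (h : Type1 A i) : ∃ θ, A ∈ Easy3 θ := by
  obtain ⟨M, B, ⟨V, p, ⟨N, hN⟩, hB⟩, hM⟩ := h (CA A i) id (ca_opt A i)
  exact ⟨⟨M, N, p, i⟩, V, hN, B, hB, hM⟩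

/-- the adversary plays correctly -/
theorem advN_legal {A : Oracle} {i x : ℕ} : Legal (CA A i) id x (advN {y | CA A i x y}) := by
  classical
  intro a y
  unfold advN
  by_cases h1 : y ∉ {y | CA A i x y}
  · rw [if_pos h1]
    exact ⟨Nat.zero_le _, fun h => h1 h.1⟩
  · rw [if_neg h1]
    by_cases h2 : ∃ z, z ∈ {y | CA A i x y} ∧ y < z
    · rw [dif_pos h2]
      have h3 := Nat.find_spec h2
      refine ⟨(ca_opt A i).le _ _ h3.1, fun h => h.2 h3.2 h3.1⟩
    · rw [dif_neg h2]
      refine ⟨not_not.1 h1, fun z _ hz => ?_⟩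
      by_contra hcon
      exact h2 ⟨z, hz, not_le.1 hcon⟩

/-- the solutions given by the adversary are short -/
theorem advN_short {A : Oracle} {i x : ℕ} {a : List Bool} {y z : ℕ}
    (h : advN {y | CA A i x y} a y = some z) : (str z).length ≤ (str x).length := by
  classical
  have hz : z ≤ x := by
    have h1 := advN_legal (A := A) (i := i) (x := x) a y
    rw [h] at h1
    exact h1.1
  have h1 := idx_lt (str x)
  have h2 := le_idx (str z)
  rw [idx_str] at h1 h2
  by_contra hcon
  have h3 : 2 ^ ((str x).length + 1) ≤ 2 ^ (str z).length :=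
    Nat.pow_le_pow_right (by norm_num) (by omega)
  omega

/-- the values of the nodes -/
theorem Tr_leaves {X : Type} (xs : X → List Bool) (as : List ℕ) (w : ℕ) (A : Oracle) (j : X) :
    Tr (w :: pw as) (leaves xs as w A) j = (as.foldl (fun v a => up a v) (bitv A w)) (xs j) := by
  rw [← LangTrAux.Tr_addr xs as (bitv A w) j]
  show Tr (pw as) (fun g : Idx X (pw as) => decide (∀ i : Fin w,
    A (addr xs as g ++ List.replicate i.val true) = false)) j = _
  congr 1
  funext g
  unfold bitv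
  congr 1
  apply propext
  constructor
  · intro h i hi
    exact h ⟨i, hi⟩
  · intro h i
    exact h i.val i.isLt

theorem nodeVal_enc (A : Oracle) (as : List ℕ) (w : ℕ) (z q : List Bool) :
    nodeVal A as.length (enc as w z) q = (as.foldl (fun v a => up a v) (bitv A w)) q := by
  unfold nodeVal
  rw [LangTrAux.parse_enc]
  dsimp only
  rw [unpair_pairBits]
  dsimp only
  rw [List.length_replicate, List.foldr_reverse]

/-- the feasible solutions of the inputs -/
theorem CA_iff (A : Oracle) (as : List ℕ) (a n K : ℕ) (j : Fin K) (y : ℕ) :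
    CA A as.length (num (inp (as ++ [a]) n K j)) y ↔
      y ∈ feas (nm2 a) (fun v => Tr (8 * n :: pw as) (leaves (xs2 as a n K) as (8 * n) A) (j, v)) := by
  unfold CA feas
  rw [str_num]
  have e1 : inp (as ++ [a]) n K j =
      pairBits (List.replicate a true) (enc as (8 * n) (bitsOf (n + 11) j.val)) :=
    LangTrAux.enc_append as a (8 * n) _
  have e2 : unpair (inp (as ++ [a]) n K j) =
      (List.replicate a true, enc as (8 * n) (bitsOf (n + 11) j.val)) := by
    rw [e1, unpair_pairBits]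
  rw [e2]
  dsimp only
  rw [List.length_replicate, nodeVal_enc]
  constructor
  · rintro (h | ⟨h1, h2⟩)
    · exact Or.inl h
    · right
      obtain ⟨v, hv, hvy⟩ := exists_bitsOf (str y)
      rw [h1] at hv hvy
      refine ⟨⟨v, hv⟩, ?_, ?_⟩
      · rw [Tr_leaves]
        unfold xs2
        dsimp only
        rw [hvy]
        exact h2
      · unfold nm2
        dsimp only
        rw [hvy, num_str]
  · rintro (h | ⟨v, h1, h2⟩)
    · exact Or.inl h
    · right
      rw [← h2]
      unfold nm2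
      rw [str_num, length_bitsOf]
      refine ⟨rfl, ?_⟩
      rw [Tr_leaves] at h1
      exact h1

theorem ev3_of_easy (θ : Par2) : ∃ qb Q : Polynomial ℕ, ∀ A ∈ Easy3 θ, ∀ (as : List ℕ)
    (a n N u : ℕ), as.length = θ.i → (∀ a ∈ as, a ≤ 64 * n) → a ≤ 64 * n →
    ∀ hN : ∀ g : Idx (Fin (2 ^ (u + 11)) × Fin (2 ^ a)) (8 * n :: pw as),
      idx (addr (xs2 as a n (2 ^ (u + 11))) as g.1 ++ List.replicate g.2.val true) < N,
    2 ^ (Q.eval n + 1) ≤ N → Ev3 θ qb as a n N u hN (pre N A) := by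
  classical
  obtain ⟨qb, hqb⟩ := run_trunc θ.M
  obtain ⟨qn, hqn⟩ := Alg.out_local θ.N
  refine ⟨qb, qn.comp (Lt2 θ qb), ?_⟩
  rintro A ⟨V, hV, B, hB, hM⟩ as a n N u hk has ha hpos hN
  have hQ : (qn.comp (Lt2 θ qb)).eval n = qn.eval ((Lt2 θ qb).eval n) := by
    simp [Polynomial.eval_comp]
  rw [hQ] at hN
  have hPt := eval_Lt2 θ qb n
  have hlx : 2 * (as ++ [a]).sum + (as ++ [a]).length + 2 * (8 * n) + 1 + (n + 11) ≤
      (Lx θ.i).eval n := inp_len_le (k := θ.i) (by simp [hk]) (by
        intro a' ha'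
        rcases List.mem_append.1 ha' with h | h
        · exact has a' h
        · rw [List.mem_singleton.1 h]; exact ha)
  have hVl : ∀ y : List Bool, y.length ≤ (Lt2 θ qb).eval n →
      (V y = [true] ↔ leaf θ.N N y (pre N A) = true) := by
    intro y hy
    obtain ⟨Q, _, hQl, hQA⟩ := hqn A y
    have h1 : θ.N.out (orc N (pre N A)) y = θ.N.out A y := by
      apply hQA
      intro q hq
      apply orc_pre
      have h2 := idx_lt q
      have h3 : q.length ≤ qn.eval ((Lt2 θ qb).eval n) := (hQl q hq).trans (eval_mono _ hy)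
      have h4 : 2 ^ (q.length + 1) ≤ 2 ^ (qn.eval ((Lt2 θ qb).eval n) + 1) :=
        Nat.pow_le_pow_right (by norm_num) (by omega)
      omega
    unfold leaf
    rw [h1, hV y, decide_eq_true_eq, Option.some.injEq]
  -- the oracle
  have hO : (fun q : List Bool => decide (q.length ≤ (LL θ qb).eval n) && B q) =
      orcF (fun q => θ.p.eval q.length) ((LL θ qb).eval n) (fun _ y => leaf θ.N N y) θ.i true
        (pre N A) := by
    funext q
    unfold orcF
    by_cases hq : q.length ≤ (LL θ qb).eval n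
    · have h3 := quant_iff (m := θ.p.eval q.length) ((Lt2 θ qb).eval n) hVl θ.i true q (by
        rw [hPt]
        have h5 : θ.p.eval q.length ≤ θ.p.eval ((LL θ qb).eval n) := eval_mono _ hq
        have h6 : θ.i * (2 * θ.p.eval q.length + 1) ≤
          θ.i * (2 * θ.p.eval ((LL θ qb).eval n) + 1) := Nat.mul_le_mul_left _ (by omega)
        omega)
      rw [← hB q] at h3
      have h4 : B q = QF (θ.p.eval q.length) (leaf θ.N N) θ.i true q (pre N A) := by
        rw [Bool.eq_iff_iff]
        exact h3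
      rw [h4]
    · rw [decide_eq_false hq, Bool.false_and, Bool.false_and]
  intro j
  have hlen : (inp (as ++ [a]) n (2 ^ (u + 11)) j).length = _ := inp_len (as ++ [a]) n _ j
  have h1 := hM (num (inp (as ++ [a]) n (2 ^ (u + 11)) j)) _ advN_legal
  rw [str_num, hlen] at h1
  obtain ⟨y, h2, h3⟩ := h1
  have hS : {y | CA A θ.i (num (inp (as ++ [a]) n (2 ^ (u + 11)) j)) y} =
      feas (nm2 a) (fun v => Tr (8 * n :: pw as)
        (fun g => pre N A (pos2 as a n (2 ^ (u + 11)) N hpos g)) (j, v)) := by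
    ext y
    rw [Set.mem_ofPred_eq, ← hk, CA_iff]
    have e : leaves (xs2 as a n (2 ^ (u + 11))) as (8 * n) A =
        fun g => pre N A (pos2 as a n (2 ^ (u + 11)) N hpos g) := by
      funext g
      show A (addr (xs2 as a n (2 ^ (u + 11))) as g.1 ++ List.replicate g.2.val true) =
        A (str (idx (addr (xs2 as a n (2 ^ (u + 11))) as g.1 ++ List.replicate g.2.val true)))
      rw [str_idx]
    rw [e]
  refine ⟨y, ?_, ?_, ?_⟩
  · rw [← hS, ← hO]
    have h4 := hqb B (advN {y | CA A θ.i (num (inp (as ++ [a]) n (2 ^ (u + 11)) j)) y})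
      (inp (as ++ [a]) n (2 ^ (u + 11)) j) (fun a y z h => by
        have h5 := advN_short h
        rw [str_num] at h5
        exact h5) ((LL θ qb).eval n) (by
          rw [eval_LL, hlen]
          exact eval_mono _ hlx)
    rw [hlen] at h4
    rw [← h4]
    exact h2
  · rw [← hS]
    exact h3.1
  · intro z hz
    rw [← hS] at hz
    exact h3.2 z ((ca_opt A θ.i).le _ _ hz) hz

/-- the positions are small -/
theorem pos2_lt {as : List ℕ} {a n k K N : ℕ} (hk : as.length = k)
    (has : ∀ a ∈ as, a ≤ 64 * n) (ha : a ≤ 64 * n)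
    (hN : 2 ^ ((Lx k).eval n + 64 * (k + 1) * n + 8 * n + 1) ≤ N)
    (g : Idx (Fin K × Fin (2 ^ a)) (8 * n :: pw as)) :
    idx (addr (xs2 as a n K) as g.1 ++ List.replicate g.2.val true) < N := by
  have h1 := leaf_len (xs2 as a n K) _ (fun j => xs2_len as a n K j) as (8 * n) g
  have h2 := idx_lt (addr (xs2 as a n K) as g.1 ++ List.replicate g.2.val true)
  have h3 : 2 * (as ++ [a]).sum + (as ++ [a]).length + 2 * (8 * n) + 1 + (n + 11) ≤
      (Lx k).eval n := inp_len_le (k := k) (by simp [hk]) (by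
        intro a' ha'
        rcases List.mem_append.1 ha' with h | h
        · exact has a' h
        · rw [List.mem_singleton.1 h]; exact ha)
  have h4 := sum_le n as has
  rw [hk] at h4
  have h5 : 64 * (k + 1) * n = k * (64 * n) + 64 * n := by ring
  have h6 : 2 ^ ((addr (xs2 as a n K) as g.1 ++ List.replicate g.2.val true).length + 1) ≤
      2 ^ ((Lx k).eval n + 64 * (k + 1) * n + 8 * n + 1) := by
    apply Nat.pow_le_pow_right (by norm_num)
    rw [h5]
    omega
  omega

theorem cover_easy3 (θ : Par2) (f : ℕ → ℝ)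
    (hf : ∀ ε : ℝ, 0 < ε → ∃ᶠ N : ℕ in Filter.atTop, f N ≤ 2 ^ (Real.logb 2 N) ^ ε)
    (δ : ℝ) (hδ : 0 < δ) : ∃ S : Set (List Bool), (∀ A ∈ Easy3 θ, ∃ σ ∈ S, Extends A σ) ∧
    ∑' σ : S, ENNReal.ofReal (2 ^ (f σ.1.length - σ.1.length)) ≤ ENNReal.ofReal δ := by
  classical
  obtain ⟨qb, Q, hQ⟩ := ev3_of_easy θ
  obtain ⟨n, N, u, hn40, hP, hu, hN, hb⟩ := asym θ.i (PP2 θ qb)
    (Q + Lx θ.i + Polynomial.C (64 * (θ.i + 1) + 8) * Polynomial.X) f hf δ hδ 40
  have hn5 : 5 ≤ n := by omega
  have hQe : (Q + Lx θ.i + Polynomial.C (64 * (θ.i + 1) + 8) * Polynomial.X).eval n =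
      Q.eval n + (Lx θ.i).eval n + (64 * (θ.i + 1) + 8) * n := by simp
  rw [hQe] at hN
  have hN1 : 2 ^ (Q.eval n + 1) ≤ N :=
    le_trans (Nat.pow_le_pow_right (by norm_num) (by omega)) hN
  have hN2 : 2 ^ ((Lx θ.i).eval n + 64 * (θ.i + 1) * n + 8 * n + 1) ≤ N := by
    refine le_trans (Nat.pow_le_pow_right (by norm_num) ?_) hN
    have : (64 * (θ.i + 1) + 8) * n = 64 * (θ.i + 1) * n + 8 * n := by ring
    omega
  have hu8 : 8 * u ≤ n := by
    have : 8 * u ≤ 8 * (θ.i + 1) * u := by nlinarith [Nat.zero_le (θ.i * u)]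
    omega
  obtain ⟨as, hk, has, a, ha, ha1, hX⟩ := exists_sizes2 hn40 θ.i _ (inv_start hn5)
  have hlaw := hX (2 ^ (u + 11)) (2 ^ (u + 9)) (by
      have : 2 ^ (u + 11) = 4 * 2 ^ (u + 9) := by
        rw [show u + 11 = u + 9 + 2 from rfl, pow_add _ (u + 9) 2]; ring
      omega)
  have hpos : ∀ g : Idx (Fin (2 ^ (u + 11)) × Fin (2 ^ a)) (8 * n :: pw as),
      idx (addr (xs2 as a n (2 ^ (u + 11))) as g.1 ++ List.replicate g.2.val true) < N :=
    fun g => pos2_lt hk has ha hN2 g
  have hev := ev3_bound θ qb hn40 hu8 hk has ha ha1 hlaw hP hpos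
  refine ⟨(fun α : Fin N → Bool => List.ofFn α) '' {α | Ev3 θ qb as a n N u hpos α}, ?_, ?_⟩
  · intro A hA
    refine ⟨List.ofFn (pre N A), ⟨pre N A, hQ A hA as a n N u hk has ha hpos hN1, rfl⟩, ?_⟩
    intro i hi
    rw [List.getElem_ofFn]
    rfl
  · have hinj : Set.InjOn (fun α : Fin N → Bool => List.ofFn α)
        {α | Ev3 θ qb as a n N u hpos α} :=
      fun a _ b _ h => List.ofFn_injective h
    rw [tsum_image (fun σ : List Bool => ENNReal.ofReal (2 ^ (f σ.length - σ.length))) hinj]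
    simp only [List.length_ofFn]
    rw [tsum_fintype, Finset.sum_const, nsmul_eq_mul, Finset.card_univ]
    rw [← ENNReal.ofReal_natCast, ← ENNReal.ofReal_mul (by positivity)]
    apply ENNReal.ofReal_le_ofReal
    have h1 : Fintype.card {α : Fin N → Bool | Ev3 θ qb as a n N u hpos α} =
        (univ.filter (fun α : Fin N → Bool => Ev3 θ qb as a n N u hpos α)).card := by
      rw [← Fintype.card_subtype]
      rfl
    have h2 := card_of_Ex (fun α : Fin N → Bool => Ev3 θ qb as a n N u hpos α)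
    have h3 : (2 : ℝ) ^ (f N - N) = 2 ^ (-(N : ℝ)) * 2 ^ f N := by
      rw [← Real.rpow_add (by norm_num)]; congr 1; ring
    rw [h1, h3, ← mul_assoc, h2]
    exact (mul_le_mul_of_nonneg_right hev (by positivity)).trans hb

theorem null_of_frequently3 (f : ℕ → ℝ)
    (hf : ∀ ε : ℝ, 0 < ε → ∃ᶠ N : ℕ in Filter.atTop, f N ≤ 2 ^ (Real.logb 2 N) ^ ε)
    (O : Set Oracle) (hO : ∀ A ∈ O, ∃ i, Type1 A i) : Null f O := by
  intro δ hδ
  obtain ⟨δ', hδ', hsum⟩ := ENNReal.exists_pos_sum_of_countable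
    (ENNReal.ofReal_pos.2 hδ).ne' Par2
  choose S hS hSs using fun θ : Par2 => cover_easy3 θ f hf (δ' θ) (by exact_mod_cast hδ' θ)
  refine ⟨⋃ θ, S θ, ?_, ?_⟩
  · intro A hA
    obtain ⟨k, hk⟩ := hO A hA
    obtain ⟨θ, hθ⟩ := mem_easy3 hk
    obtain ⟨σ, hσ, hE⟩ := hS θ A hθ
    exact ⟨σ, Set.mem_iUnion.2 ⟨θ, hσ⟩, hE⟩
  · refine (ENNReal.tsum_iUnion_le_tsum (fun σ : List Bool =>
      ENNReal.ofReal (2 ^ (f σ.length - σ.length))) S).trans ?_
    refine (ENNReal.tsum_le_tsum hSs).trans ?_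
    refine le_trans (le_of_eq ?_) hsum.le
    congr 1
    funext θ
    exact ENNReal.ofReal_coe_nnreal

end Pool.Agent.H591R3.CEX
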