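import Pool.Agent.H620R2.GaugeS.Defs

/-!
# Counterexample computations relative to an oracle

Natural numbers are identified with bit strings: the number `i` with the string `str i` of number
`i` in the list of all strings (by length, then alphabetically), so the order of the numbers is
the order of the list.
-/

set_option autoImplicit false

namespace Pool.Agent.H591R3.CEX

open Pool.Agent.NPC Pool.Agent.H620R2.Gauge

/-- The number of a string in the list of all strings (the inverse of `str`). -/
def num (y : List Bool) : ℕ := y.foldl (fun n b => 2 * n + b.toNat) 1 - 1

/-- The relation `C` on natural numbers is in the level `Π_i` relative to `A`: the set of the pairs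
that are not in `C` is in `Σ_i`. -/
def IsPiRel (A : Oracle) (i : ℕ) (C : ℕ → ℕ → Prop) : Prop :=
  IsSigma A i {z | ∃ x y, z = pairBits (str x) (str y) ∧ ¬ C x y}

/-- `(C, ρ)` is an optimization problem with `C` in `Π_i` relative to `A` and `ρ` computable in
polynomial time relative to `A`. -/
structure OptProblem (A : Oracle) (i : ℕ) (C : ℕ → ℕ → Prop) (ρ : ℕ → ℕ) : Prop where
  /-- `0` is a feasible solution of every `x` -/
  zero : ∀ x, C x 0
  /-- the feasible solutions of `x` are at most `x` -/
  le : ∀ x y, C x y → y ≤ x
  /-- `C` is in `Π_i` -/
  pi : IsPiRel A i C
  /-- `ρ` is computable in polynomial time -/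
  fp : ∃ F, IsFP A F ∧ ∀ y, F (str y) = str (ρ y)

/-- `y` is an optimal solution of `x`. -/
def Optimal (C : ℕ → ℕ → Prop) (ρ : ℕ → ℕ) (x y : ℕ) : Prop :=
  C x y ∧ ∀ z ≤ x, C x z → ρ z ≤ ρ y

/-- `z` shows that `y` is not optimal for `x`: `B(x, y, z)` fails. -/
def Counter (C : ℕ → ℕ → Prop) (ρ : ℕ → ℕ) (x y z : ℕ) : Prop :=
  z ≤ x ∧ ¬ (C x y ∧ (ρ y < ρ z → ¬ C x z))

/-- A polynomial-time algorithm that asks an oracle and an adversary. On input `x`, when the
protocol of the answers received so far is `a`, the string `D ⟨x, a⟩` tells what comes next:
`true :: z` means that the algorithm stops with output `z`; `false :: false :: q` means that it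
asks whether `q` is in the oracle; `false :: true :: y` means that it presents the number of the
string `y` and asks whether it is optimal (with any other value it stops with the empty output).
The function `D` is computable in polynomial time and the number of rounds is bounded by the
polynomial `p` in the length of the input. -/
structure CAlg : Type where
  /-- the next action, as a function of the input and of the protocol -/
  D : List Bool → List Bool
  /-- it is computable in polynomial time -/
  poly : PolyTime D
  /-- the bound for the number of rounds -/
  p : Polynomial ℕ

/-- A strategy of an adversary: the answer to the question whether the number `y` is optimal, when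
the protocol so far is `a`; `none` means yes, and `some z` means no, with the counterexample `z`. -/
abbrev Adversary : Type := List Bool → ℕ → Option ℕ

/-- The output on input `x`, within `n` further rounds, when the protocol so far is `a`. The answer
of the oracle (one bit) is added to the protocol; so is the answer of the adversary: `false` for
yes, `true` and the self-delimiting code of the counterexample for no. -/
def CAlg.run (M : CAlg) (B : Oracle) (adv : Adversary) (x : List Bool) :
    ℕ → List Bool → Option (List Bool)
  | 0, _ => none
  | n + 1, a =>
    match M.D (pairBits x a) with
    | true :: z => some z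
    | false :: false :: q => M.run B adv x n (a ++ [B q])
    | false :: true :: y =>
      match adv a (num y) with
      | none => M.run B adv x n (a ++ [false])
      | some z => M.run B adv x n (a ++ (true :: pairBits (str z) []))
    | _ => some []

/-- The strategy of the adversary answers all questions about `x` correctly. -/
def Legal (C : ℕ → ℕ → Prop) (ρ : ℕ → ℕ) (x : ℕ) (adv : Adversary) : Prop :=
  ∀ a y, match adv a y with
    | none => Optimal C ρ x y
    | some z => Counter C ρ x y z

/-- The algorithm with oracle `B` computes the optimization problem: for every `x` and every
correct strategy of the adversary it outputs an optimal solution of `x`. -/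
def Computes (M : CAlg) (B : Oracle) (C : ℕ → ℕ → Prop) (ρ : ℕ → ℕ) : Prop :=
  ∀ (x : ℕ) (adv : Adversary), Legal C ρ x adv →
    ∃ y, M.run B adv (str x) (M.p.eval (str x).length) [] = some (str y) ∧ Optimal C ρ x y

/-- Every optimization problem with `C` in `Π_i` relative to `A` is computed by a counterexample
computation of type 1 with an oracle in `Σ_i` relative to `A`. -/
def Type1 (A : Oracle) (i : ℕ) : Prop :=
  ∀ (C : ℕ → ℕ → Prop) (ρ : ℕ → ℕ), OptProblem A i C ρ →
    ∃ (M : CAlg) (B : Oracle), IsSigma A i {q | B q = true} ∧ Computes M B C ρ

end Pool.Agent.H591R3.CEX
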