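import Pool.Agent.H591R3.CEX.Bound
import Pool.Agent.H591R3.PHG.Event

/-! The event that the algorithm is right on `2 ^ (u + 11)` inputs. -/

set_option autoImplicit false

namespace Pool.Agent.H591R3.CEX

open Finset H568R2 Pool.Agent.H676 Pool.Agent.H620R2.Gauge Pool.Agent.NPC Pool.Agent.H591R3.PHG

/-- The parameters: the algorithm, the algorithm for the matrix of the oracle, the bound for the
quantifiers, the level. -/
structure Par2 : Type where
  M : CAlg
  N : Alg
  p : Polynomial ℕ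
  i : ℕ

/-- the bound for the questions -/
noncomputable def LL (θ : Par2) (qb : Polynomial ℕ) : Polynomial ℕ := qb.comp (Lx θ.i)

/-- the bound for all strings -/
noncomputable def Lt2 (θ : Par2) (qb : Polynomial ℕ) : Polynomial ℕ :=
  LL θ qb + Polynomial.C θ.i * (2 * θ.p.comp (LL θ qb) + 1)

/-- the polynomial for the final bound -/
noncomputable def PP2 (θ : Par2) (qb : Polynomial ℕ) : Polynomial ℕ :=
  θ.N.p.comp (Lt2 θ qb) + θ.M.p.comp (Lx θ.i) + Lt2 θ qb + θ.p.comp (LL θ qb) + 4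

theorem eval_LL (θ : Par2) (qb : Polynomial ℕ) (n : ℕ) :
    (LL θ qb).eval n = qb.eval ((Lx θ.i).eval n) := by
  simp [LL, Polynomial.eval_comp]

theorem eval_Lt2 (θ : Par2) (qb : Polynomial ℕ) (n : ℕ) : (Lt2 θ qb).eval n =
    (LL θ qb).eval n + θ.i * (2 * θ.p.eval ((LL θ qb).eval n) + 1) := by
  simp [Lt2, Polynomial.eval_comp]

theorem eval_PP2 (θ : Par2) (qb : Polynomial ℕ) (n : ℕ) : (PP2 θ qb).eval n =
    θ.N.p.eval ((Lt2 θ qb).eval n) + θ.M.p.eval ((Lx θ.i).eval n) + (Lt2 θ qb).eval n +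
      θ.p.eval ((LL θ qb).eval n) + 4 := by
  simp [PP2, Polynomial.eval_comp]

/-- the strings of the roots: the inputs, followed by the solutions -/
def xs2 (as : List ℕ) (a n K : ℕ) (g : Fin K × Fin (2 ^ a)) : List Bool :=
  inp (as ++ [a]) n K g.1 ++ bitsOf a g.2.val

theorem xs2_len (as : List ℕ) (a n K : ℕ) (g : Fin K × Fin (2 ^ a)) :
    (xs2 as a n K g).length = (2 * (as ++ [a]).sum + (as ++ [a]).length + 2 * (8 * n) + 1 +
      (n + 11)) + a := by
  unfold xs2
  rw [List.length_append, inp_len, length_bitsOf]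

theorem xs2_inj (as : List ℕ) (a n K : ℕ) (hK : K ≤ 2 ^ (n + 11)) :
    Function.Injective (xs2 as a n K) := by
  rintro ⟨j, v⟩ ⟨j', v'⟩ h
  have h1 := List.append_inj h (by rw [inp_len, inp_len])
  have h2 : j = j' := inp_inj (as ++ [a]) n K hK h1.1
  have h3 : v = v' := Fin.ext (bitsOf_inj v.2 v'.2 h1.2)
  rw [h2, h3]

/-- the numbers of the solutions -/
def nm2 (a : ℕ) (v : Fin (2 ^ a)) : ℕ := num (bitsOf a v.val)

theorem num_eq (y : List Bool) : num y = idx y := rfl

theorem str_num (y : List Bool) : str (num y) = y := str_idx y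

theorem num_str (i : ℕ) : num (str i) = i := idx_str i

theorem nm2_inj (a : ℕ) : Function.Injective (nm2 a) := by
  intro v v' h
  have h1 : bitsOf a v.val = bitsOf a v'.val := by
    rw [← str_num (bitsOf a v.val), ← str_num (bitsOf a v'.val)]
    exact congrArg str h
  exact Fin.ext (bitsOf_inj v.2 v'.2 h1)

theorem nm2_pos {a : ℕ} (ha : 1 ≤ a) (v : Fin (2 ^ a)) : 0 < nm2 a v := by
  have h1 := le_idx (bitsOf a v.val)
  rw [length_bitsOf] at h1
  have h2 : 2 ≤ 2 ^ a := by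
    calc 2 = 2 ^ 1 := by norm_num
      _ ≤ 2 ^ a := Nat.pow_le_pow_right (by norm_num) ha
  show 0 < idx (bitsOf a v.val)
  omega

/-- the position of a leaf -/
def pos2 (as : List ℕ) (a n K N : ℕ) (hN : ∀ g : Idx (Fin K × Fin (2 ^ a)) (8 * n :: pw as),
    idx (addr (xs2 as a n K) as g.1 ++ List.replicate g.2.val true) < N)
    (g : Idx (Fin K × Fin (2 ^ a)) (8 * n :: pw as)) : Fin N :=
  ⟨idx (addr (xs2 as a n K) as g.1 ++ List.replicate g.2.val true), hN g⟩

theorem pos2_inj (as : List ℕ) (a n K N : ℕ)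
    (hN : ∀ g : Idx (Fin K × Fin (2 ^ a)) (8 * n :: pw as),
    idx (addr (xs2 as a n K) as g.1 ++ List.replicate g.2.val true) < N) (hK : K ≤ 2 ^ (n + 11)) :
    Function.Injective (pos2 as a n K N hN) := by
  intro g g' h
  have h1 : idx (addr (xs2 as a n K) as g.1 ++ List.replicate g.2.val true) =
      idx (addr (xs2 as a n K) as g'.1 ++ List.replicate g'.2.val true) := by
    simpa [pos2] using h
  have h2 : addr (xs2 as a n K) as g.1 ++ List.replicate g.2.val true =
      addr (xs2 as a n K) as g'.1 ++ List.replicate g'.2.val true := by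
    rw [← str_idx (addr (xs2 as a n K) as g.1 ++ List.replicate g.2.val true), h1, str_idx]
  exact leaf_inj (xs2 as a n K) (xs2_inj as a n K hK) _ (fun j => xs2_len as a n K j) as (8 * n) h2

/-- The event: the algorithm is right on all the inputs. -/
def Ev3 (θ : Par2) (qb : Polynomial ℕ) (as : List ℕ) (a n N u : ℕ)
    (hN : ∀ g : Idx (Fin (2 ^ (u + 11)) × Fin (2 ^ a)) (8 * n :: pw as),
      idx (addr (xs2 as a n (2 ^ (u + 11))) as g.1 ++ List.replicate g.2.val true) < N)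
    (α : Fin N → Bool) : Prop :=
  EvS θ.M (inp (as ++ [a]) n (2 ^ (u + 11)))
    (θ.M.p.eval (2 * (as ++ [a]).sum + (as ++ [a]).length + 2 * (8 * n) + 1 + (n + 11)))
    (nm2 a)
    (orcF (fun q => θ.p.eval q.length) ((LL θ qb).eval n) (fun _ y => leaf θ.N N y) θ.i true α)
    (Tr (8 * n :: pw as) (fun g => α (pos2 as a n (2 ^ (u + 11)) N hN g)))

open Classical in
theorem ev3_bound (θ : Par2) (qb : Polynomial ℕ) {n N u : ℕ} (hn : 40 ≤ n) (hu : 8 * u ≤ n)
    {as : List ℕ} {a : ℕ} (hk : as.length = θ.i) (has : ∀ a ∈ as, a ≤ 64 * n) (ha : a ≤ 64 * n)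
    (ha1 : 1 ≤ a)
    (hlaw : Ex (nxt (1 / 2) (1 / 2 ^ (4 * n)) 0 (8 * n) (8 * n) law0)
      (WT (X := Fin (2 ^ (u + 11)) × Fin (2 ^ a)) (1 / 2 ^ (4 * n)) (1 / 2 ^ (2 * n))
        (8 * n * 2 ^ (4 * n))
        (fun s => if ngood2 (2 ^ (5 * n - 3)) s < 2 ^ (u + 9) then (1 : ℝ) else 0) (pw as)) ≤
      (9 / 10) ^ (2 ^ (u + 11)))
    (hP : (PP2 θ qb).eval n ≤ 2 ^ (2 * u))
    (hN : ∀ g : Idx (Fin (2 ^ (u + 11)) × Fin (2 ^ a)) (8 * n :: pw as),
      idx (addr (xs2 as a n (2 ^ (u + 11))) as g.1 ++ List.replicate g.2.val true) < N) :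
    Ex unif (fun α : Fin N → Bool => if Ev3 θ qb as a n N u hN α then (1 : ℝ) else 0) ≤
      bnd θ.i (PP2 θ qb) n u := by
  have hn5 : 5 ≤ n := by omega
  set K : ℕ := 2 ^ (u + 11) with hK
  have hKn : K ≤ 2 ^ (n + 11) := Nat.pow_le_pow_right (by norm_num) (by omega)
  have hinj := pos2_inj as a n K N hN hKn
  have hPe := eval_PP2 θ qb n
  have hPt := eval_Lt2 θ qb n
  have hlx : 2 * (as ++ [a]).sum + (as ++ [a]).length + 2 * (8 * n) + 1 + (n + 11) ≤
      (Lx θ.i).eval n := inp_len_le (k := θ.i) (by simp [hk]) (by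
        intro a' ha'
        rcases List.mem_append.1 ha' with h | h
        · exact has a' h
        · rw [List.mem_singleton.1 h]; exact ha)
  set Rn : ℕ := θ.M.p.eval (2 * (as ++ [a]).sum + (as ++ [a]).length + 2 * (8 * n) + 1 + (n + 11))
    with hRn
  have hRn2 : Rn ≤ 2 ^ (2 * u) := by
    have h1 : Rn ≤ θ.M.p.eval ((Lx θ.i).eval n) := eval_mono _ hlx
    omega
  set ℓ : ℕ := (LL θ qb).eval n with hℓ
  set mx : ℕ := θ.p.eval ℓ with hmx
  have hμ : ∀ q : List Bool, q.length ≤ ℓ → (fun q : List Bool => θ.p.eval q.length) q ≤ mx :=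
    fun q hq => eval_mono _ hq
  set g₀ : ℕ := 2 ^ (u + 9) with hg₀
  set D₀ : ℕ := 2 ^ (5 * n - 3) with hD₀
  set t : ℝ := 1 / 2 ^ (4 * n) with ht
  set lam : ℝ := 2 ^ (4 * n) / 2 ^ (5 * u + 13) with hlam
  have ht0 : 0 < t := by positivity
  have ht1 : t < 1 := by
    rw [ht, div_lt_one (by positivity)]
    exact one_lt_pow₀ (by norm_num) (by omega)
  have hlam1 : 1 ≤ lam := by
    rw [hlam, one_le_div (by positivity)]
    exact pow_le_pow_right₀ (by norm_num) (by omega)
  set C : ℝ := K * (2 ^ Rn * (1 - t / 2) ^ D₀) +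
    (1 / lam) ^ g₀ * (1 + lam * t) ^ (K * (Rn * (2 ^ (2 * u) + 1))) with hC
  have hC0 : 0 ≤ C := by
    have h1 : 0 ≤ 1 - t / 2 := by linarith
    positivity
  set W0 : (Fin K × Fin (2 ^ a) → Option Bool) → ℝ :=
    fun s => (if ngood2 D₀ s < g₀ then (1 : ℝ) else 0) + C with hW0
  have hW : ∀ s, 0 ≤ W0 s := by
    intro s
    rw [hW0]
    beta_reduce
    split_ifs <;> linarith
  set E : (List Bool → Bool) → (Fin K × Fin (2 ^ a) → Bool) → Prop :=
    EvS θ.M (inp (as ++ [a]) n K) Rn (nm2 a) with hE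
  have hbase : ∀ (O : List Bool → (Fin K × Fin (2 ^ a) → Bool) → Bool),
      (∀ q, DTr (2 ^ (2 * u)) (O q)) → ∀ s : Fin K × Fin (2 ^ a) → Option Bool,
        Pe t [] s E (fun z q => O q z) ≤ W0 s := by
    intro O hO s
    by_cases hg : ngood2 D₀ s < g₀
    · have h1 : Pe (X := Fin K × Fin (2 ^ a)) t [] s E (fun z q => O q z) ≤ 1 :=
        Pe_le_one ht0.le ht1.le [] s E _
      rw [hW0]
      beta_reduce
      rw [if_pos hg]
      linarith
    · have h1 := game_bound ht0.le ht1.le hlam1 θ.M (inp (as ++ [a]) n K) (nm2 a)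
        (nm2_inj a) (nm2_pos ha1) s O hO (Rn := Rn) (g := g₀) (D := D₀) (by omega)
      rw [hW0]
      beta_reduce
      rw [if_neg hg, zero_add]
      exact h1
  rw [Ex_overwrite (pos2 as a n K N hN) hinj]
  have hkey : ∀ α : Fin N → Bool,
      Ex (ber (1 / 2)) (fun z : Idx (Fin K × Fin (2 ^ a)) (8 * n :: pw as) → Bool =>
      (fun α : Fin N → Bool => if Ev3 θ qb as a n N u hN α then (1 : ℝ) else 0)
        (fun i => if h : ∃ j, pos2 as a n K N hN j = i then z h.choose else α i)) ≤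
      bnd θ.i (PP2 θ qb) n u := by
    intro α
    set F : ℕ → List Bool → (Idx (Fin K × Fin (2 ^ a)) (8 * n :: pw as) → Bool) → Bool :=
      fun _ y z => leaf θ.N N y
        (fun i => if h : ∃ j, pos2 as a n K N hN j = i then z h.choose else α i) with hF
    have hFd : ∀ m ≤ mx, ∀ y : List Bool, y.length ≤ ℓ + θ.i * (2 * mx + 1) →
        DTr (2 ^ (2 * u)) (F m y) := by
      intro m _ y hy
      have h1 : DTr (θ.N.p.eval y.length) (leaf θ.N N y) := dtr_out θ.N N y
      have h2 : θ.N.p.eval y.length ≤ 2 ^ (2 * u) := by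
        have h3 : y.length ≤ (Lt2 θ qb).eval n := by rw [hPt]; exact hy
        have h4 : θ.N.p.eval y.length ≤ θ.N.p.eval ((Lt2 θ qb).eval n) := eval_mono _ h3
        omega
      exact DTr_overwrite (pos2 as a n K N hN) α (h1.mono h2)
    have hlen2 : (pw as).length = θ.i := by
      rw [pw, List.length_map]; exact hk
    have h1 := main_leaf2 (X := Fin K × Fin (2 ^ a)) hn5 hu E W0 hW hbase
      (fun q : List Bool => θ.p.eval q.length) mx ℓ hμ θ.i (pw as) hlen2 F hFd true
    -- the last term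
    have hinv := inv_start hn5
    have h2 : Ex (nxt (1 / 2) t 0 (8 * n) (8 * n) law0)
        (WT (X := Fin K × Fin (2 ^ a)) t (1 / 2 ^ (2 * n)) (8 * n * 2 ^ (4 * n)) W0 (pw as)) =
        Ex (nxt (1 / 2) t 0 (8 * n) (8 * n) law0)
        (WT (X := Fin K × Fin (2 ^ a)) t (1 / 2 ^ (2 * n)) (8 * n * 2 ^ (4 * n))
          (fun s => if ngood2 D₀ s < g₀ then (1 : ℝ) else 0) (pw as)) + C := by
      have h3 : WT (X := Fin K × Fin (2 ^ a)) t (1 / 2 ^ (2 * n)) (8 * n * 2 ^ (4 * n)) W0 (pw as) =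
          fun s => WT (X := Fin K × Fin (2 ^ a)) t (1 / 2 ^ (2 * n)) (8 * n * 2 ^ (4 * n))
          (fun s => if ngood2 D₀ s < g₀ then (1 : ℝ) else 0) (pw as) s + C := by
        funext s
        exact WT_add ht0 ht1 (by
          have : 0 < 8 * n * 2 ^ (4 * n) := by positivity
          omega) _ C (pw as) s
      rw [h3, Ex_add, Ex_const hinv.sum]
    rw [h2] at h1
    have h4 := final2 hn hu hRn2
    have h5 : (C : ℝ) + (9 / 10) ^ K ≤ 3 * (1 / 2) ^ (2 ^ u) := by
      refine le_trans (le_of_eq ?_) h4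
      rw [hC, hK]
      push_cast
      ring
    -- the comparison with the general bound
    have hPn1 : (mx + 1 : ℝ) * 2 ^ (ℓ + θ.i * (2 * mx + 1) + 2) ≤ 2 ^ (PP2 θ qb).eval n := by
      have h6 : ((mx + 1 : ℕ) : ℝ) ≤ 2 ^ mx := by
        have : mx + 1 ≤ 2 ^ mx := Nat.lt_two_pow_self
        exact_mod_cast this
      have h7 : (mx + 1 : ℝ) * 2 ^ (ℓ + θ.i * (2 * mx + 1) + 2) ≤
          2 ^ mx * 2 ^ (ℓ + θ.i * (2 * mx + 1) + 2) :=
        mul_le_mul_of_nonneg_right (by exact_mod_cast h6) (by positivity)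
      refine h7.trans ?_
      rw [← pow_add]
      apply pow_le_pow_right₀ (by norm_num)
      omega
    have hPn2 : (3 : ℝ) ≤ 2 ^ (PP2 θ qb).eval n := by
      calc (3 : ℝ) ≤ 2 ^ 2 := by norm_num
        _ ≤ _ := pow_le_pow_right₀ (by norm_num) (by omega)
    have h8 : (θ.i : ℝ) * ((mx + 1) * (2 ^ (ℓ + θ.i * (2 * mx + 1) + 2) *
        (1 / 2) ^ (2 ^ (2 * u) + 1))) ≤
        2 ^ (PP2 θ qb).eval n * (θ.i * (1 / 2) ^ (2 ^ (2 * u) + 1)) := by
      have h9 : (0 : ℝ) ≤ θ.i * (1 / 2) ^ (2 ^ (2 * u) + 1) := by positivity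
      have h10 := mul_le_mul_of_nonneg_right hPn1 h9
      refine le_trans (le_of_eq ?_) h10
      ring
    have h11 : (3 : ℝ) * (1 / 2) ^ (2 ^ u) ≤ 2 ^ (PP2 θ qb).eval n * (1 / 2) ^ (2 ^ u) :=
      mul_le_mul_of_nonneg_right hPn2 (by positivity)
    have hq1 : ((1 : ℝ) / (24 * 2 ^ (2 * u))) ^ θ.i ≤ 1 := by
      apply pow_le_one₀ (by positivity)
      rw [div_le_one (by positivity)]
      have : (1 : ℝ) ≤ 2 ^ (2 * u) := one_le_pow₀ (by norm_num)
      linarith
    have h12 : (0 : ℝ) ≤ 2 ^ (PP2 θ qb).eval n * (2 ^ u * (2 ^ (3 * u) + 1) *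
        (1 - (1 / (24 * 2 ^ (2 * u))) ^ θ.i) ^ (2 ^ n / (2 ^ (3 * u) + 1))) := by
      have : (0 : ℝ) ≤ (1 - (1 / (24 * 2 ^ (2 * u))) ^ θ.i) ^ (2 ^ n / (2 ^ (3 * u) + 1)) :=
        pow_nonneg (by linarith) _
      positivity
    refine le_trans (le_of_eq ?_) (h1.trans ?_)
    · unfold Pe
      congr 1
      funext z
      have e1 : (fun g => (fun i => if h : ∃ j, pos2 as a n K N hN j = i then z h.choose else α i)
          (pos2 as a n K N hN g)) = val (fun _ => none) z := by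
        funext g
        have hex : ∃ j, pos2 as a n K N hN j = pos2 as a n K N hN g := ⟨g, rfl⟩
        show (if h : ∃ j, pos2 as a n K N hN j = pos2 as a n K N hN g then z h.choose else
          α (pos2 as a n K N hN g)) = z g
        rw [dif_pos hex]
        exact congrArg z (hinj hex.choose_spec)
      have e2 : orcF (fun q : List Bool => θ.p.eval q.length) ℓ (fun _ y => leaf θ.N N y) θ.i true
          (fun i => if h : ∃ j, pos2 as a n K N hN j = i then z h.choose else α i) =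
          orcF (fun q : List Bool => θ.p.eval q.length) ℓ F θ.i true z := by
        funext q
        unfold orcF
        rw [← QF_comp (θ.p.eval q.length) (leaf θ.N N) (fun z i =>
          if h : ∃ j, pos2 as a n K N hN j = i then z h.choose else α i)]
      have e3 : Ev3 θ qb as a n N u hN
          (fun i => if h : ∃ j, pos2 as a n K N hN j = i then z h.choose else α i) ↔
          E (orcF (fun q : List Bool => θ.p.eval q.length) ℓ F θ.i true z)
            (Tr (8 * n :: pw as) (val (fun _ => none) z)) := by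
        unfold Ev3
        rw [e1, e2]
      exact if_congr e3 rfl rfl
    · unfold bnd
      linarith
  refine (Ex_mono unif_nonneg hkey).trans (le_of_eq ?_)
  exact Ex_const unif_sum _

end Pool.Agent.H591R3.CEX
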