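import Pool.Agent.H591R3.CEX.Base
import Pool.Agent.H591R3.PHG.Main

/-! The induction over the levels for a general event. -/

set_option autoImplicit false

namespace Pool.Agent.H591R3.CEX

open Finset H568R2 Pool.Agent.H676 Pool.Agent.H620R2.Gauge Pool.Agent.NPC Pool.Agent.H591R3.PHG

/-- the oracle of level `k` given by the functions `F`, for questions of length at most `ℓ` -/
noncomputable def orcF {I : Type} (μ : List Bool → ℕ) (ℓ : ℕ) (F : ℕ → List Bool → (I → Bool) → Bool)
    (k : ℕ) (b : Bool) (z : I → Bool) : List Bool → Bool :=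
  fun q => decide (q.length ≤ ℓ) && QF (μ q) (F (μ q)) k b q z

open Classical in
/-- the probability of an event `E` that depends on the oracle and on the values at the roots -/
noncomputable def Pe {X : Type} [Fintype X] [DecidableEq X] (t : ℝ) (cs : List ℕ)
    (s : Idx X cs → Option Bool) (E : (List Bool → Bool) → (X → Bool) → Prop)
    (O : (Idx X cs → Bool) → List Bool → Bool) : ℝ :=
  Ex (ber t) (fun z : Idx X cs → Bool => if E (O z) (Tr cs (val s z)) then (1 : ℝ) else 0)

theorem Pe_le_one {X : Type} [Fintype X] [DecidableEq X] {t : ℝ} (h0 : 0 ≤ t) (h1 : t ≤ 1)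
    (cs : List ℕ) (s : Idx X cs → Option Bool) (E : (List Bool → Bool) → (X → Bool) → Prop)
    (O : (Idx X cs → Bool) → List Bool → Bool) : Pe t cs s E O ≤ 1 := by
  classical
  unfold Pe
  refine (Ex_mono (G := fun _ => (1 : ℝ)) (ber_nonneg_m h0 h1) fun z => ?_).trans
    (le_of_eq (Ex_const (ber_sum_m t) 1))
  split_ifs <;> norm_num

/-- One level of the process. -/
theorem Pe_stage {X : Type} [Fintype X] [DecidableEq X] {c smin : ℕ} {t t' ξ : ℝ} (ht : 0 < t)
    (ht1 : t < 1) (ht' : 0 < t') (hs : 1 ≤ smin) (cs : List ℕ) (s : Idx X (c :: cs) → Option Bool)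
    (E : (List Bool → Bool) → (X → Bool) → Prop)
    (O : (Idx X (c :: cs) → Bool) → List Bool → Bool) :
    Pe t (c :: cs) s E O = ∑ ρ : Idx X cs → St c, wt (G := Idx X cs) t t' ξ smin s ρ *
      Pe t' cs (fun h => (ρ h).1) E (fun z => O (XX (G := Idx X cs) s ρ z)) := by
  classical
  unfold Pe
  have h1 := stage (G := Idx X cs) (ξ := ξ) ht ht1 ht' hs s (fun z : Idx X cs × Fin c → Bool =>
    if E (O z) (Tr (c :: cs) (val (I := Idx X cs × Fin c) s z)) then (1 : ℝ) else 0)
  refine Eq.trans ?_ (h1.trans ?_)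
  · rfl
  · refine Finset.sum_congr rfl fun ρ _ => ?_
    by_cases hρ : wt (G := Idx X cs) t t' ξ smin s ρ = 0
    · rw [hρ, zero_mul, zero_mul]
    · have h2 : ∀ z : Idx X cs → Bool,
          Tr (c :: cs) (val (I := Idx X cs × Fin c) s (XX s ρ z)) =
            Tr (X := X) cs (val (fun h => (ρ h).1) z) := by
        intro z
        show Tr cs (fun g => decide (∀ i : Fin c,
          val (I := Idx X cs × Fin c) s (XX s ρ z) (g, i) = false)) = _
        congr 1
        funext g'
        exact val_stage (G := Idx X cs) s ρ hρ z g'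
      simp only [h2]

theorem WT_nonneg {X : Type} [Fintype X] [DecidableEq X] {t ξ : ℝ} {smin : ℕ} (ht : 0 < t)
    (ht1 : t < 1) (hξ : 0 ≤ ξ) (hξ1 : ξ ≤ 1) (hs : 1 ≤ smin)
    (h : (1 - ξ) * (1 - t) ^ smin / t + ξ * (1 - t) ^ smin ≤ 1) (W0 : (X → Option Bool) → ℝ)
    (hW : ∀ s, 0 ≤ W0 s) :
    ∀ (cs : List ℕ) (s : Idx X cs → Option Bool), 0 ≤ WT t ξ smin W0 cs s := by
  intro cs
  induction cs with
  | nil => intro s; exact hW s
  | cons c cs ih =>
    intro s
    show 0 ≤ ∑ ρ : Idx X cs → St c, wt (G := Idx X cs) t t ξ smin s ρ *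
      WT t ξ smin W0 cs (fun h => (ρ h).1)
    exact Finset.sum_nonneg fun ρ _ =>
        mul_nonneg (wt_nonneg ht ht1 ht hξ hξ1 hs h s ρ) (ih _)

theorem cond_ok {n u : ℕ} (hn : 5 ≤ n) (hu : 8 * u ≤ n) :
    (1 - 1 / 2 ^ (2 * n)) * (1 - 1 / 2 ^ (4 * n) : ℝ) ^ (8 * n * 2 ^ (4 * n)) / (1 / 2 ^ (4 * n)) +
      1 / 2 ^ (2 * n) * (1 - 1 / 2 ^ (4 * n) : ℝ) ^ (8 * n * 2 ^ (4 * n)) ≤ 1 := by
  set t : ℝ := 1 / 2 ^ (4 * n) with ht
  set ξ : ℝ := 1 / 2 ^ (2 * n) with hξ
  set smin : ℕ := 8 * n * 2 ^ (4 * n) with hsmin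
  have ht0 : 0 < t := by positivity
  have ht2 : t ≤ 1 / 2 := by
    rw [ht]
    apply one_div_le_one_div_of_le (by norm_num)
    calc (2 : ℝ) = 2 ^ 1 := by norm_num
      _ ≤ 2 ^ (4 * n) := pow_le_pow_right₀ (by norm_num) (by omega)
  have hξ0 : 0 < ξ := by positivity
  have hξ1 : ξ ≤ 1 := by
    rw [hξ, div_le_one (by positivity)]
    exact one_le_pow₀ (by norm_num)
  obtain ⟨hl1, hl2, hl3⟩ := lam_bound hn hu
  have hlam4 : (1 : ℝ) / 2 ^ (6 * n) ≤ 1 / 4 := by
    apply one_div_le_one_div_of_le (by norm_num)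
    calc (4 : ℝ) = 2 ^ 2 := by norm_num
      _ ≤ 2 ^ (6 * n) := pow_le_pow_right₀ (by norm_num) (by omega)
  have h1 : (1 - t) ^ smin / t ≤ 1 / 4 := hl1.trans hlam4
  have h2 : (1 - t) ^ smin ≤ 1 / 4 := by
    have h3 : (1 - t) ^ smin ≤ 1 / 4 * t := (div_le_iff₀ ht0).1 h1
    nlinarith
  have h0 : 0 ≤ (1 - t) ^ smin := pow_nonneg (by linarith) _
  have h5 : 0 ≤ (1 - t) ^ smin / t := by positivity
  have h3 : (1 - ξ) * (1 - t) ^ smin / t ≤ (1 - t) ^ smin / t := by
    rw [mul_div_assoc]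
    nlinarith
  have h4 : ξ * (1 - t) ^ smin ≤ (1 - t) ^ smin := by nlinarith
  linarith

theorem main_ind2 {X : Type} [Fintype X] [DecidableEq X] {n u : ℕ} (hn : 5 ≤ n)
    (hu : 8 * u ≤ n) (E : (List Bool → Bool) → (X → Bool) → Prop) (W0 : (X → Option Bool) → ℝ)
    (hW : ∀ s, 0 ≤ W0 s)
    (hbase : ∀ (O : List Bool → (X → Bool) → Bool), (∀ q, DTr (2 ^ (2 * u)) (O q)) →
      ∀ s : X → Option Bool,
        Pe (1 / 2 ^ (4 * n)) [] s E (fun z q => O q z) ≤ W0 s)
    (μ : List Bool → ℕ) (mx ℓ : ℕ) (hμ : ∀ q : List Bool, q.length ≤ ℓ → μ q ≤ mx) :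
    ∀ (k : ℕ) (cs : List ℕ), cs.length = k → ∀ (s : Idx X cs → Option Bool)
      (F : ℕ → List Bool → (Idx X cs → Bool) → Bool),
      (∀ m ≤ mx, ∀ y : List Bool, y.length ≤ ℓ + k * (2 * mx + 1) → DTr (2 ^ (2 * u)) (F m y)) →
      ∀ b : Bool,
      Pe (1 / 2 ^ (4 * n)) cs s E (orcF μ ℓ F k b) ≤
        k * ((mx + 1) * (2 ^ (ℓ + k * (2 * mx + 1) + 2) * (1 / 2) ^ (2 ^ (2 * u) + 1))) +
        WT (1 / 2 ^ (4 * n)) (1 / 2 ^ (2 * n)) (8 * n * 2 ^ (4 * n)) W0 cs s := by
  classical
  have hcond := cond_ok hn hu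
  set t : ℝ := 1 / 2 ^ (4 * n) with ht
  set ξ : ℝ := 1 / 2 ^ (2 * n) with hξ
  set smin : ℕ := 8 * n * 2 ^ (4 * n) with hsmin
  set r : ℕ := 2 ^ (2 * u) with hr
  have ht0 : 0 < t := by positivity
  have ht2 : t ≤ 1 / 2 := by
    rw [ht]
    apply one_div_le_one_div_of_le (by norm_num)
    calc (2 : ℝ) = 2 ^ 1 := by norm_num
      _ ≤ 2 ^ (4 * n) := pow_le_pow_right₀ (by norm_num) (by omega)
  have ht1 : t < 1 := by linarith
  have hξ0 : 0 < ξ := by positivity
  have hξ1 : ξ ≤ 1 := by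
    rw [hξ, div_le_one (by positivity)]
    exact one_le_pow₀ (by norm_num)
  have hs1 : 1 ≤ smin := by
    rw [hsmin]
    have : 0 < 8 * n * 2 ^ (4 * n) := by positivity
    omega
  have hr1 : 1 ≤ r := Nat.one_le_two_pow
  obtain ⟨hl1, hl2, hl3⟩ := lam_bound hn hu
  have hlam4 : (1 : ℝ) / 2 ^ (6 * n) ≤ 1 / 4 := by
    apply one_div_le_one_div_of_le (by norm_num)
    calc (4 : ℝ) = 2 ^ 2 := by norm_num
      _ ≤ 2 ^ (6 * n) := pow_le_pow_right₀ (by norm_num) (by omega)
  intro k
  induction k with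
  | zero =>
    intro cs hcs s F hF b
    match cs, hcs with
    | [], _ =>
      have h0 : ∀ q : List Bool, DTr r
          (fun z : Idx X [] → Bool => decide (q.length ≤ ℓ) && F (μ q) q z) := by
        intro q
        by_cases hq : q.length ≤ ℓ
        · have h2 : (fun z : Idx X [] → Bool => decide (q.length ≤ ℓ) && F (μ q) q z) =
              F (μ q) q := by
            funext z
            simp [hq]
          rw [h2]
          exact hF (μ q) (hμ q hq) q (by omega)
        · have h2 : (fun z : Idx X [] → Bool => decide (q.length ≤ ℓ) && F (μ q) q z) =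
              fun _ => false := by
            funext z
            simp [hq]
          rw [h2]
          exact DTr.const ⟨false, fun _ => rfl⟩
      have h1 := hbase (fun q z => decide (q.length ≤ ℓ) && F (μ q) q z) h0 s
      push_cast
      rw [zero_mul, zero_add]
      exact h1
  | succ k ih =>
    intro cs hcs s F hF b
    match cs, hcs with
    | c :: cs, hcs =>
      have hlen : cs.length = k := by simpa using hcs
      rw [Pe_stage (t' := t) (ξ := ξ) (smin := smin) ht0 ht1 ht0 hs1 cs s]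
      have hℓ : ℓ + (k + 1) * (2 * mx + 1) = ℓ + k * (2 * mx + 1) + (2 * mx + 1) := by ring
      have hnn : ∀ ρ : Idx X cs → St c, 0 ≤ wt (G := Idx X cs) t t ξ smin s ρ := fun ρ =>
        wt_nonneg ht0 ht1 ht0 hξ0.le hξ1 hs1 hcond s ρ
      have hsw : ∀ m ∈ Finset.range (mx + 1), _ := fun m hm =>
        stage_switch (G := Idx X cs) (c := c) (smin := smin) (r := r) (t := t) (t' := t)
        (ξ := ξ) (lam := 1 / 2 ^ (6 * n)) ht0 ht2 ht0 ht1.le hξ0 hξ1 hs1 hl1 hlam4 hr1 hl3 s m
        (ℓ + k * (2 * mx + 1)) (F m) (fun y' hy' => hF m (by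
          rw [Finset.mem_range] at hm; omega) y' (by
          rw [Finset.mem_range] at hm; rw [hℓ]; omega))
      set bad : ℕ → (Idx X cs → St c) → Prop := fun m ρ => ¬ ∀ y : List Bool,
        y.length ≤ ℓ + k * (2 * mx + 1) → ∀ b,
        DTr r (fun z : Idx X cs → Bool => QF m (F m) 1 b y (XX s ρ z)) with hbad
      set B : (Idx X cs → St c) → ℝ := fun ρ =>
        ∑ m ∈ Finset.range (mx + 1), (if bad m ρ then (1 : ℝ) else 0) with hB
      set E₁ : ℝ := k * ((mx + 1) * (2 ^ (ℓ + k * (2 * mx + 1) + 2) * (1 / 2) ^ (r + 1))) with hE₁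
      have hE₁0 : 0 ≤ E₁ := by positivity
      have hterm : ∀ ρ : Idx X cs → St c, wt (G := Idx X cs) t t ξ smin s ρ *
          Pe t cs (fun h => (ρ h).1) E
            (fun z => orcF μ ℓ F (k + 1) b (XX (G := Idx X cs) s ρ z))
          ≤ wt (G := Idx X cs) t t ξ smin s ρ * B ρ +
            wt (G := Idx X cs) t t ξ smin s ρ * E₁ +
            wt (G := Idx X cs) t t ξ smin s ρ *
              WT t ξ smin W0 cs (fun h => (ρ h).1) := by
        intro ρ
        rw [← mul_add, ← mul_add]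
        apply mul_le_mul_of_nonneg_left _ (hnn ρ)
        have hW' : 0 ≤ WT t ξ smin W0 cs (fun h : Idx X cs => (ρ h).1) :=
            WT_nonneg ht0 ht1 hξ0.le hξ1 hs1 hcond W0 hW cs _
        have hB0 : 0 ≤ B ρ := Finset.sum_nonneg fun m _ => by split_ifs <;> norm_num
        by_cases hb : ∃ m ∈ Finset.range (mx + 1), bad m ρ
        · obtain ⟨m, hm, hmb⟩ := hb
          have h3 := Pe_le_one (X := X) ht0.le ht1.le cs (fun h => (ρ h).1) E
            (fun z => orcF μ ℓ F (k + 1) b (XX (G := Idx X cs) s ρ z))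
          have h4 : 1 ≤ B ρ := by
            rw [hB]
            refine le_trans ?_ (Finset.single_le_sum (f := fun m =>
              if bad m ρ then (1 : ℝ) else 0) (fun m _ => by
                beta_reduce; split_ifs <;> norm_num) hm)
            rw [if_pos hmb]
          linarith
        · have hgood : ∀ m ≤ mx, ∀ y : List Bool, y.length ≤ ℓ + k * (2 * mx + 1) → ∀ b,
              DTr r (fun z : Idx X cs → Bool => QF m (F m) 1 b y (XX s ρ z)) := by
            intro m hm
            by_contra hcon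
            exact hb ⟨m, Finset.mem_range.2 (by omega), hcon⟩
          have h5 := ih cs hlen (fun h => (ρ h).1)
            (fun m y' z => QF m (F m) 1 (bot b k) y' (XX (G := Idx X cs) s ρ z))
            (fun m hm y' hy' => hgood m hm y' hy' _) b
          have h6 : (fun z : Idx X cs → Bool => orcF μ ℓ F (k + 1) b (XX (G := Idx X cs) s ρ z)) =
              orcF μ ℓ (fun m y' z => QF m (F m) 1 (bot b k) y' (XX (G := Idx X cs) s ρ z)) k b := by
            funext z q
            unfold orcF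
            rw [QF_peel, QF_comp (μ q) (fun y' => QF (μ q) (F (μ q)) 1 (bot b k) y')
              (XX (G := Idx X cs) s ρ)]
          rw [h6]
          linarith
      refine (Finset.sum_le_sum fun ρ _ => hterm ρ).trans ?_
      rw [Finset.sum_add_distrib, Finset.sum_add_distrib, ← Finset.sum_mul,
        wt_sum ht0 ht1 ht0 hs1 s, one_mul]
      have h6 : 2 ^ (ℓ + k * (2 * mx + 1) + 2) * (16 * (r : ℝ) * (1 / 2 ^ (6 * n))) ^ (r + 1) ≤
          2 ^ (ℓ + (k + 1) * (2 * mx + 1) + 2) * (1 / 2) ^ (r + 1) := by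
        apply mul_le_mul
        · apply pow_le_pow_right₀ (by norm_num)
          rw [hℓ]; omega
        · exact pow_le_pow_left₀ (by positivity) hl2 _
        · positivity
        · positivity
      have h7 : E₁ ≤ k * ((mx + 1) *
          (2 ^ (ℓ + (k + 1) * (2 * mx + 1) + 2) * (1 / 2) ^ (r + 1))) := by
        rw [hE₁]
        apply mul_le_mul_of_nonneg_left _ (by positivity)
        apply mul_le_mul_of_nonneg_left _ (by positivity)
        apply mul_le_mul_of_nonneg_right _ (by positivity)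
        apply pow_le_pow_right₀ (by norm_num)
        rw [hℓ]; omega
      have h8' : ∑ ρ : Idx X cs → St c, wt (G := Idx X cs) t t ξ smin s ρ * B ρ ≤
          (mx + 1) * (2 ^ (ℓ + (k + 1) * (2 * mx + 1) + 2) * (1 / 2) ^ (r + 1)) := by
        have e1 : ∑ ρ : Idx X cs → St c, wt (G := Idx X cs) t t ξ smin s ρ * B ρ =
            ∑ m ∈ Finset.range (mx + 1), ∑ ρ : Idx X cs → St c,
              wt (G := Idx X cs) t t ξ smin s ρ * (if bad m ρ then (1 : ℝ) else 0) := by
          rw [Finset.sum_comm]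
          refine Finset.sum_congr rfl fun ρ _ => ?_
          rw [hB, Finset.mul_sum]
        rw [e1]
        have e2 : ∀ m ∈ Finset.range (mx + 1), ∑ ρ : Idx X cs → St c,
              wt (G := Idx X cs) t t ξ smin s ρ * (if bad m ρ then (1 : ℝ) else 0) ≤
              2 ^ (ℓ + (k + 1) * (2 * mx + 1) + 2) * (1 / 2) ^ (r + 1) := by
          intro m hm
          refine le_trans (le_of_eq (Finset.sum_congr rfl fun ρ _ => ?_)) ((hsw m hm).trans h6)
          exact congrArg (fun q => wt (G := Idx X cs) t t ξ smin s ρ * q) (if_congr Iff.rfl rfl rfl)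
        refine (Finset.sum_le_sum e2).trans ?_
        rw [Finset.sum_const, Finset.card_range, nsmul_eq_mul]
        push_cast
        exact le_rfl
      show _ ≤ _ + (∑ ρ : Idx X cs → St c, wt (G := Idx X cs) t t ξ smin s ρ *
        WT t ξ smin W0 cs (fun h => (ρ h).1))
      push_cast
      have h9 : ((k : ℝ) + 1) * ((mx + 1) *
          (2 ^ (ℓ + (k + 1) * (2 * mx + 1) + 2) * (1 / 2) ^ (r + 1))) =
        k * ((mx + 1) * (2 ^ (ℓ + (k + 1) * (2 * mx + 1) + 2) * (1 / 2) ^ (r + 1))) +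
          (mx + 1) * (2 ^ (ℓ + (k + 1) * (2 * mx + 1) + 2) * (1 / 2) ^ (r + 1)) := by ring
      rw [h9]
      linarith

end Pool.Agent.H591R3.CEX
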