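import Pool.Agent.H591R3.CEX.Base
import Pool.Agent.H591R3.PHG.Inv

/-! Stubs. Never import this file in a finished file. -/

set_option autoImplicit false

namespace Pool.Agent.H591R3.CEX

open Finset H568R2 Pool.Agent.H676 Pool.Agent.H620R2.Gauge Pool.Agent.NPC Pool.Agent.H591R3.PHG

/-! ### T1: file `Moment.lean` -/

theorem prc_moment {I : Type} [Fintype I] [DecidableEq I] {D : ℕ} {R : Finset I}
    {H : (I → Bool) → ℕ} (h : Prc D R H) {t lam : ℝ} (ht : 0 ≤ t) (ht1 : t ≤ 1) (hl : 1 ≤ lam)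
    (z₀ : I → Bool) :
    Ex (ber t) (fun z => lam ^ (H (fun i => if i ∈ R then z₀ i else z i))) ≤ (1 + lam * t) ^ D := by
  sorry

/-! ### T2: file `Game.lean` -/

open Classical in
theorem game {K c r Rn : ℕ} (M : CAlg) (X : Fin K → List Bool) (nm : Fin c → ℕ)
    (hnm : Function.Injective nm) (hpos : ∀ g, 0 < nm g) (s : Fin K × Fin c → Option Bool)
    (F : List Bool → (Fin K × Fin c → Bool) → Bool) (hF : ∀ q, DTr r (F q))
    (J : Finset (Fin K)) (hJ : ∀ j ∈ J, Unkilled (fun g => s (j, g))) :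
    ∃ H : (Fin K × Fin c → Bool) → ℕ, Prc (J.card * (Rn * (r + 1))) ∅ H ∧
      ∀ z : Fin K × Fin c → Bool,
        (∀ j ∈ J, Suc1 M (X j) Rn (fun q => F q z) (feas nm (fun g => val s z (j, g))) ∧
          Rn < (univ.filter (fun g => val s z (j, g) = true)).card) → J.card ≤ H z := by
  sorry

/-! ### T3: file `Few.lean` -/

open Classical in
theorem few_true {X : Type} [Fintype X] [DecidableEq X] {c D R : ℕ} {t : ℝ} (ht : 0 ≤ t)
    (ht1 : t ≤ 1) (s : X × Fin c → Option Bool) (j : X) (hD : D ≤ (live (fun g => s (j, g))).card) :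
    Ex (ber t) (fun z : X × Fin c → Bool =>
      if (univ.filter (fun g => val s z (j, g) = true)).card ≤ R then (1 : ℝ) else 0) ≤
      2 ^ R * (1 - t / 2) ^ D := by
  sorry

open Classical in
theorem few_good2 {X : Type} [Fintype X] [DecidableEq X] {c D g : ℕ} {law : Option Bool → ℝ}
    (hn : ∀ v, 0 ≤ law v) (hl : ∑ v, law v = 1)
    (hgood : 1 / 2 ≤ ∑ σ : Fin c → Option Bool, (∏ i, law (σ i)) *
      (if Good2 D σ then (1 : ℝ) else 0)) (hg : 4 * g ≤ Fintype.card X) :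
    Ex law (fun s : X × Fin c → Option Bool => if ngood2 D s < g then (1 : ℝ) else 0) ≤
      (9 / 10) ^ Fintype.card X := by
  sorry

/-! ### T4: file `Good2.lean` -/

open Classical in
theorem good2_prob {n c : ℕ} (hn : 40 ≤ n) {law : Option Bool → ℝ} (h : Inv n law)
    (h1 : 2 ^ n ≤ c * (law none / 2 ^ (4 * n) + law (some true)))
    (h2 : c * (law none / 2 ^ (4 * n) + law (some true)) < 2 * 2 ^ n) :
    1 / 2 ≤ ∑ σ : Fin c → Option Bool, (∏ i, law (σ i)) *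
      (if Good2 (2 ^ (5 * n - 3)) σ then (1 : ℝ) else 0) := by
  sorry

/-! ### T5: file `Nums2.lean` -/

theorem exists_pow2 {n : ℕ} (hn : 40 ≤ n) {p : ℝ} (h1 : Real.exp (-(36 * n)) ≤ p)
    (h2 : p ≤ 1 / 2 ^ (8 * n)) :
    ∃ a : ℕ, a ≤ 64 * n ∧ (2 : ℝ) ^ n ≤ 2 ^ a * p ∧ (2 : ℝ) ^ a * p < 2 * 2 ^ n := by
  sorry

theorem final2 {n u Rn : ℕ} (hn : 40 ≤ n) (hu : 8 * u ≤ n) (hR : Rn ≤ 2 ^ (2 * u)) :
    (2 : ℝ) ^ (u + 11) * (2 ^ Rn * (1 - 1 / 2 ^ (4 * n) / 2) ^ (2 ^ (5 * n - 3))) +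
      (1 / (2 ^ (4 * n) / 2 ^ (5 * u + 13))) ^ (2 ^ (u + 9)) *
        (1 + 2 ^ (4 * n) / 2 ^ (5 * u + 13) * (1 / 2 ^ (4 * n))) ^
          (2 ^ (u + 11) * (Rn * (2 ^ (2 * u) + 1))) +
      (9 / 10) ^ (2 ^ (u + 11)) ≤ 3 * (1 / 2) ^ (2 ^ u) := by
  sorry

/-! ### T6: file `PiCA.lean` -/

theorem ca_opt (A : Oracle) (i : ℕ) : OptProblem A i (CA A i) id := by
  sorry

/-! ### T7: file `Upper.lean` -/

theorem type1_of_reduces {A : Oracle} (h : ∀ L, IsPSPACE A L → Reduces L {x | A x = true})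
    (i : ℕ) : Type1 A i := by
  sorry

/-! ### T8: file `RunLen.lean` -/

theorem run_trunc (M : CAlg) : ∃ qb : Polynomial ℕ, ∀ (B : Oracle) (adv : Adversary)
    (x : List Bool), (∀ a y z, adv a y = some z → (str z).length ≤ x.length) → ∀ ℓ : ℕ,
    qb.eval x.length ≤ ℓ →
    M.run B adv x (M.p.eval x.length) [] =
      M.run (fun q => decide (q.length ≤ ℓ) && B q) adv x (M.p.eval x.length) [] := by
  sorry

end Pool.Agent.H591R3.CEX
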